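import Pool.Agent.RigidConf.Count

/-!
# Configurations with at most eight points are not realizable over the reals
-/

namespace Pool.Agent.RigidConf

open Classical

/-! ### Algebra -/

theorem tri_cyc (a b c : V3) : tri a b c = tri b c a := by
  simp only [tri, dt, cr_zero, cr_one, cr_two]; ring

theorem tri_swap (a b c : V3) : tri a b c = - tri b a c := by
  simp only [tri, dt, cr_zero, cr_one, cr_two]; ring

theorem cr_ne_of_tri {a b c : V3} (h : tri a b c ≠ 0) : cr a b ≠ 0 := by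
  intro h'
  apply h
  rw [tri_cyc, tri_cyc]
  simp only [tri, h', dt]
  simp

/-- coordinates with respect to three independent vectors -/
theorem exists_lin3 {a b c : V3} (h : tri a b c ≠ 0) (d : V3) :
    d = (tri d b c / tri a b c) • a + (tri a d c / tri a b c) • b + (tri a b d / tri a b c) • c := by
  have key : ∀ i, tri a b c * d i = tri d b c * a i + tri a d c * b i + tri a b d * c i := by
    intro i
    fin_cases i <;> simp [tri, dt] <;> ring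
  funext i
  simp only [Pi.add_apply, Pi.smul_apply, smul_eq_mul]
  field_simp
  linarith [key i]

/-- the Fano configuration is not realizable -/
theorem fano_alg {x p1 p2 q1 q2 r1 r2 : V3}
    (h0 : tri x q1 r1 ≠ 0)
    (hxp : tri x p1 p2 = 0) (hxq : tri x q1 q2 = 0) (hxr : tri x r1 r2 = 0)
    (a1 : tri q1 r1 p1 = 0) (a2 : tri q1 r2 p2 = 0) (a3 : tri q2 r1 p2 = 0)
    (a4 : tri q2 r2 p1 = 0)
    (n1 : cr q1 q2 ≠ 0) (n2 : cr x r2 ≠ 0) (n3 : cr x p2 ≠ 0) (n4 : cr r1 p1 ≠ 0)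
    (n5 : cr x p1 ≠ 0) (n6 : cr x r1 ≠ 0) (n7 : cr q1 r1 ≠ 0) (n8 : cr x q1 ≠ 0) : False := by
  obtain ⟨α, β, rfl⟩ := exists_lin hxq n8
  obtain ⟨γ, δ, rfl⟩ := exists_lin hxr n6
  obtain ⟨s, t, rfl⟩ := exists_lin a1 n7
  obtain ⟨u, v, rfl⟩ := exists_lin hxp n5
  have hα : α ≠ 0 := by
    rintro rfl
    apply n1
    apply v3_ext <;> simp <;> ring
  have hδ : δ ≠ 0 := by
    rintro rfl
    apply n2
    apply v3_ext <;> simp <;> ring
  have hs : s ≠ 0 := by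
    rintro rfl
    apply n4
    apply v3_ext <;> simp <;> ring
  have hv : v ≠ 0 := by
    rintro rfl
    apply n3
    apply v3_ext <;> simp <;> ring
  have e2 : (δ * u - γ * v * t) * tri x q1 r1 = 0 := by
    rw [← a2]
    simp only [tri, dt, cr_zero, cr_one, cr_two, Pi.add_apply, Pi.smul_apply, smul_eq_mul]; ring
  have e3 : (β * u - α * v * s) * tri x q1 r1 = 0 := by
    rw [← a3]
    simp only [tri, dt, cr_zero, cr_one, cr_two, Pi.add_apply, Pi.smul_apply, smul_eq_mul]; ring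
  have e4 : (α * δ * s + β * γ * t) * tri x q1 r1 = 0 := by
    rw [← neg_zero, ← a4]
    simp only [tri, dt, cr_zero, cr_one, cr_two, Pi.add_apply, Pi.smul_apply, smul_eq_mul]; ring
  have e2' := (mul_eq_zero.1 e2).resolve_right h0
  have e3' := (mul_eq_zero.1 e3).resolve_right h0
  have e4' := (mul_eq_zero.1 e4).resolve_right h0
  have e5 : v * (β * γ * t - α * δ * s) = 0 := by linear_combination δ * e3' - β * e2'
  have e6 := (mul_eq_zero.1 e5).resolve_left hv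
  have e7 : α * δ * s = 0 := by linarith
  exact mul_ne_zero (mul_ne_zero hα hδ) hs e7

/-- the Moebius-Kantor configuration is not realizable over the reals -/
theorem mk_alg {x y p1 p2 q1 q2 r1 r2 : V3}
    (h0 : tri x y p1 ≠ 0) (h1 : tri r2 y p1 ≠ 0)
    (l1 : tri x p1 p2 = 0) (l2 : tri x q1 q2 = 0) (l3 : tri x r2 r1 = 0)
    (l4 : tri y p1 q1 = 0) (l5 : tri y q2 r1 = 0) (l6 : tri y r2 p2 = 0)
    (l7 : tri p1 r2 q2 = 0) (l8 : tri q1 r1 p2 = 0)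
    (n1 : cr p1 p2 ≠ 0) (n2 : cr p1 q1 ≠ 0) (n3 : cr x r1 ≠ 0) (n4 : cr p1 q2 ≠ 0)
    (n5 : cr x p1 ≠ 0) (n6 : cr y p1 ≠ 0) (n7 : cr x r2 ≠ 0) (n8 : cr p1 r2 ≠ 0)
    (n9 : cr x p2 ≠ 0) : False := by
  obtain ⟨α, β, γ, hα, hr2⟩ : ∃ α β γ : ℝ, α ≠ 0 ∧ r2 = α • x + β • y + γ • p1 :=
    ⟨_, _, _, div_ne_zero h1 h0, exists_lin3 h0 r2⟩
  obtain ⟨u, u', hp2⟩ := exists_lin l1 n5
  obtain ⟨s, t, hq1⟩ := exists_lin l4 n6
  obtain ⟨s', t', hr1⟩ := exists_lin l3 n7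
  obtain ⟨s'', t'', hq2⟩ := exists_lin l7 n8
  have hu : u ≠ 0 := by
    rintro rfl; apply n1; rw [hp2]; apply v3_ext <;> simp <;> ring
  have hu' : u' ≠ 0 := by
    rintro rfl; apply n9; rw [hp2]; apply v3_ext <;> simp <;> ring
  have hs : s ≠ 0 := by
    rintro rfl; apply n2; rw [hq1]; apply v3_ext <;> simp <;> ring
  have ht' : t' ≠ 0 := by
    rintro rfl; apply n3; rw [hr1]; apply v3_ext <;> simp <;> ring
  have ht'' : t'' ≠ 0 := by
    rintro rfl; apply n4; rw [hq2]; apply v3_ext <;> simp <;> ring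
  rw [hr2] at hr1 hq2
  subst hr1 hq2 hq1 hp2
  have e6 : (γ * u - α * u') * tri x y p1 = 0 := by
    rw [← l6, hr2]
    simp only [tri, dt, cr_zero, cr_one, cr_two, Pi.add_apply, Pi.smul_apply, smul_eq_mul]; ring
  have e2 : (s * (s'' + t'' * γ) - t * t'' * β) * tri x y p1 = 0 := by
    rw [← l2]
    simp only [tri, dt, cr_zero, cr_one, cr_two, Pi.add_apply, Pi.smul_apply, smul_eq_mul]; ring
  have e5 : (t'' * α * t' * γ - (s'' + t'' * γ) * (s' + t' * α)) * tri x y p1 = 0 := by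
    rw [← neg_zero, ← l5]
    simp only [tri, dt, cr_zero, cr_one, cr_two, Pi.add_apply, Pi.smul_apply, smul_eq_mul]; ring
  have e8 : (s * ((s' + t' * α) * u' - t' * γ * u) + t * t' * β * u) * tri x y p1 = 0 := by
    rw [← neg_zero, ← l8]
    simp only [tri, dt, cr_zero, cr_one, cr_two, Pi.add_apply, Pi.smul_apply, smul_eq_mul]; ring
  have f6 := (mul_eq_zero.1 e6).resolve_right h0
  have f2 := (mul_eq_zero.1 e2).resolve_right h0
  have f5 := (mul_eq_zero.1 e5).resolve_right h0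
  have f8 := (mul_eq_zero.1 e8).resolve_right h0
  have g8 : u * (s * s' * γ + t * t' * α * β) = 0 := by
    linear_combination α * f8 + (s * s' + t' * α * s) * f6
  have g8' := (mul_eq_zero.1 g8).resolve_left hu
  have hγ : γ ≠ 0 := by
    rintro rfl
    have : α * u' = 0 := by linarith
    exact mul_ne_zero hα hu' this
  have g : (t'' * t' * α) * ((s * γ) ^ 2 - (t * β) * (s * γ) + (t * β) ^ 2) = 0 := by
    linear_combination (s * (s * γ)) * f5 + ((s * γ) * (s' + t' * α)) * f2 + (t * t'' * β) * g8'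
  have g' := (mul_eq_zero.1 g).resolve_left (mul_ne_zero (mul_ne_zero ht'' ht') hα)
  have h5 : s * γ ≠ 0 := mul_ne_zero hs hγ
  have h6 : 0 < (s * γ) ^ 2 := by positivity
  nlinarith [sq_nonneg (2 * (t * β) - s * γ)]

theorem tri_zero_of_orth {n a b c : V3} (hn : n ≠ 0) (ha : dt n a = 0) (hb : dt n b = 0)
    (hc : dt n c = 0) : tri a b c = 0 := by
  have key : ∀ i, tri a b c * n i = dt n a * (cr b c) i + dt n b * (cr c a) i
      + dt n c * (cr a b) i := by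
    intro i
    fin_cases i <;> simp [tri, dt] <;> ring
  by_contra h
  apply hn
  funext i
  have := key i
  rw [ha, hb, hc] at this
  have h2 : tri a b c * n i = 0 := by rw [this]; ring
  exact (mul_eq_zero.1 h2).resolve_left h

/-! ### Combinatorics -/

variable {P L : Type*} {I : P → L → Prop}

/-- the line `l` consists of exactly the three distinct points -/
structure Li (I : P → L → Prop) (l : L) (A B C : P) : Prop where
  ab : A ≠ B
  ac : A ≠ C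
  bc : B ≠ C
  all : ∀ p, I p l ↔ (p = A ∨ p = B ∨ p = C)

theorem Li.a {l : L} {A B C : P} (h : Li I l A B C) : I A l := (h.all A).2 (Or.inl rfl)
theorem Li.b {l : L} {A B C : P} (h : Li I l A B C) : I B l := (h.all B).2 (Or.inr (Or.inl rfl))
theorem Li.c {l : L} {A B C : P} (h : Li I l A B C) : I C l := (h.all C).2 (Or.inr (Or.inr rfl))

theorem Li.swap {l : L} {A B C : P} (h : Li I l A B C) : Li I l A C B :=
  ⟨h.ac, h.ab, h.bc.symm, fun p => by rw [h.all]; tauto⟩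

theorem Conf.li1 (hI : Conf I) {l : L} {A : P} (h : I A l) : ∃ B C, Li I l A B C := by
  obtain ⟨a, b, c, hab, hac, hbc, H⟩ := hI.point3 l
  rcases (H A).1 h with rfl | rfl | rfl
  · exact ⟨b, c, hab, hac, hbc, H⟩
  · exact ⟨a, c, hab.symm, hbc, hac, fun p => by rw [H]; tauto⟩
  · exact ⟨a, b, hac.symm, hbc.symm, hab, fun p => by rw [H]; tauto⟩

theorem Conf.li2 (hI : Conf I) {l : L} {A B : P} (hAB : A ≠ B) (h : I A l) (h' : I B l) :
    ∃ C, Li I l A B C := by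
  obtain ⟨U, W, H⟩ := hI.li1 h
  rcases (H.all B).1 h' with rfl | rfl | rfl
  · exact absurd rfl hAB
  · exact ⟨W, H⟩
  · exact ⟨U, H.swap⟩

theorem Conf.lines1 (hI : Conf I) {l : L} {A : P} (h : I A l) :
    ∃ m n, l ≠ m ∧ l ≠ n ∧ m ≠ n ∧ I A m ∧ I A n := by
  obtain ⟨a, b, c, hab, hac, hbc, H⟩ := hI.line3 A
  have ha : I A a := (H a).2 (by tauto)
  have hb : I A b := (H b).2 (by tauto)
  have hc : I A c := (H c).2 (by tauto)
  rcases (H l).1 h with rfl | rfl | rfl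
  · exact ⟨b, c, hab, hac, hbc, hb, hc⟩
  · exact ⟨a, c, hab.symm, hbc, hac, ha, hc⟩
  · exact ⟨a, b, hac.symm, hbc.symm, hab, ha, hb⟩

theorem Conf.lines2 (hI : Conf I) {l m : L} {A : P} (h : I A l) :
    ∃ n, l ≠ n ∧ m ≠ n ∧ I A n := by
  obtain ⟨u, v, h1, h2, h3, h4, h5⟩ := hI.lines1 h
  by_cases e : m = u
  · subst e; exact ⟨v, h2, h3, h5⟩
  · exact ⟨u, h1, e, h4⟩

/-- a point with its three lines and the six other points on them -/
structure Star (I : P → L → Prop) (X : P) (a b c : L) (P1 P2 Q1 Q2 R1 R2 : P) : Prop where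
  hab : a ≠ b
  hac : a ≠ c
  hbc : b ≠ c
  la : Li I a X P1 P2
  lb : Li I b X Q1 Q2
  lc : Li I c X R1 R2

theorem Conf.star (hI : Conf I) (X : P) :
    ∃ a b c P1 P2 Q1 Q2 R1 R2, Star I X a b c P1 P2 Q1 Q2 R1 R2 := by
  obtain ⟨a, b, c, hab, hac, hbc, H⟩ := hI.line3 X
  obtain ⟨P1, P2, hP⟩ := hI.li1 ((H a).2 (Or.inl rfl))
  obtain ⟨Q1, Q2, hQ⟩ := hI.li1 ((H b).2 (Or.inr (Or.inl rfl)))
  obtain ⟨R1, R2, hR⟩ := hI.li1 ((H c).2 (Or.inr (Or.inr rfl)))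
  exact ⟨a, b, c, P1, P2, Q1, Q2, R1, R2, hab, hac, hbc, hP, hQ, hR⟩

section star
variable {X : P} {a b c : L} {P1 P2 Q1 Q2 R1 R2 : P}

theorem Star.swapQ (h : Star I X a b c P1 P2 Q1 Q2 R1 R2) : Star I X a b c P1 P2 Q2 Q1 R1 R2 :=
  ⟨h.hab, h.hac, h.hbc, h.la, h.lb.swap, h.lc⟩

theorem Star.swapR (h : Star I X a b c P1 P2 Q1 Q2 R1 R2) : Star I X a b c P1 P2 Q1 Q2 R2 R1 :=
  ⟨h.hab, h.hac, h.hbc, h.la, h.lb, h.lc.swap⟩

theorem Star.swapQR (h : Star I X a b c P1 P2 Q1 Q2 R1 R2) : Star I X a c b P1 P2 R1 R2 Q1 Q2 :=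
  ⟨h.hac, h.hab, h.hbc.symm, h.la, h.lc, h.lb⟩

theorem Star.swapPQ (h : Star I X a b c P1 P2 Q1 Q2 R1 R2) : Star I X b a c Q1 Q2 P1 P2 R1 R2 :=
  ⟨h.hab.symm, h.hbc, h.hac, h.lb, h.la, h.lc⟩

/-- two different lines through `X` share no other point -/
theorem off (hI : Conf I) {X Z : P} {a b : L} (hab : a ≠ b) (hXa : I X a) (hXb : I X b)
    (hXZ : X ≠ Z) (hZ : I Z b) : ¬ I Z a :=
  fun h => hab (hI.lin X Z a b hXZ hXa h hXb hZ)

/-- a line through `Q1` other than `b` meets both other lines of the star, if there are only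
seven points -/
theorem two7 (hI : Conf I) (S : Star I X a b c P1 P2 Q1 Q2 R1 R2)
    (hall : ∀ Z, Z = X ∨ Z = P1 ∨ Z = P2 ∨ Z = Q1 ∨ Z = Q2 ∨ Z = R1 ∨ Z = R2)
    {m : L} (hm : m ≠ b) (hQ : I Q1 m) :
    (I P1 m ∧ I R1 m) ∨ (I P1 m ∧ I R2 m) ∨ (I P2 m ∧ I R1 m) ∨ (I P2 m ∧ I R2 m) := by
  have nX : ¬ I X m := fun h => hm (hI.lin X Q1 m b S.lb.ab h hQ S.lb.a S.lb.b)
  have nQ : ¬ I Q2 m := fun h => hm (hI.lin Q1 Q2 m b S.lb.bc hQ h S.lb.b S.lb.c)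
  have nP : ¬ (I P1 m ∧ I P2 m) := by
    rintro ⟨h1, h2⟩
    have e : m = a := hI.lin P1 P2 m a S.la.bc h1 h2 S.la.b S.la.c
    subst e
    exact nX S.la.a
  have nR : ¬ (I R1 m ∧ I R2 m) := by
    rintro ⟨h1, h2⟩
    have e : m = c := hI.lin R1 R2 m c S.lc.bc h1 h2 S.lc.b S.lc.c
    subst e
    exact nX S.lc.a
  obtain ⟨u, v, H⟩ := hI.li1 hQ
  have hu := H.b
  have hv := H.c
  have h1 := H.ab
  have h2 := H.ac
  have h3 := H.bc
  rcases hall u with rfl | rfl | rfl | rfl | rfl | rfl | rfl <;>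
  rcases hall v with rfl | rfl | rfl | rfl | rfl | rfl | rfl <;> tauto

theorem col {ρ : P ⊕ L → V3} (hρ : VReal (levi I) sty ρ) {A B C : P} {l : L}
    (hA : I A l) (hB : I B l) (hC : I C l) :
    tri (ρ (.inl A)) (ρ (.inl B)) (ρ (.inl C)) = 0 := by
  have key : ∀ A : P, I A l → dt (ρ (.inr l)) (ρ (.inl A)) = 0 := fun A h =>
    (hρ.inc (.inr l) (.inl A) (by simp [sty])).2 h
  exact tri_zero_of_orth (hρ.ne (.inr l)) (key A hA) (key B hB) (key C hC)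

theorem ncr {ρ : P ⊕ L → V3} (hρ : VReal (levi I) sty ρ) {A B : P} (h : A ≠ B) :
    cr (ρ (.inl A)) (ρ (.inl B)) ≠ 0 :=
  hρ.dist _ _ (by simp [sty]) (by simpa using h)

theorem ncol {ρ : P ⊕ L → V3} (hρ : VReal (levi I) sty ρ) {A B C : P} {l : L} (hAB : A ≠ B)
    (hA : I A l) (hB : I B l) (hC : ¬ I C l) :
    tri (ρ (.inl A)) (ρ (.inl B)) (ρ (.inl C)) ≠ 0 := by
  intro h
  apply hC
  have key : ∀ A : P, I A l → dt (ρ (.inr l)) (ρ (.inl A)) = 0 := fun A h =>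
    (hρ.inc (.inr l) (.inl A) (by simp [sty])).2 h
  obtain ⟨α, β, e⟩ := exists_lin h (ncr hρ hAB)
  refine (hρ.inc (.inr l) (.inl C) (by simp [sty])).1 ?_
  have h1 := key A hA
  have h2 := key B hB
  rw [e]
  simp only [dt, Pi.add_apply, Pi.smul_apply, smul_eq_mul] at h1 h2 ⊢
  linear_combination α * h1 + β * h2

theorem case7 (hI : Conf I) (S : Star I X a b c P1 P2 Q1 Q2 R1 R2)
    (hall : ∀ Z, Z = X ∨ Z = P1 ∨ Z = P2 ∨ Z = Q1 ∨ Z = Q2 ∨ Z = R1 ∨ Z = R2)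
    {ρ : P ⊕ L → V3} (hρ : VReal (levi I) sty ρ) : False := by
  -- a concrete Fano labelling is impossible
  have fin : ∀ {P1 P2 R1 R2 : P}, Li I a X P1 P2 → Li I c X R1 R2 → ∀ m m' n n' : L,
      I Q1 m → I R1 m → I P1 m → I Q1 m' → I R2 m' → I P2 m' →
      I Q2 n → I R1 n → I P2 n → I Q2 n' → I R2 n' → I P1 n' → False := by
    intro P1 P2 R1 R2 la lc m m' n n' h1 h2 h3 h4 h5 h6 h7 h8 h9 h10 h11 h12
    have nR : ¬ I R1 b := off hI S.hbc S.lb.a lc.a lc.ab lc.b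
    have nP : ¬ I P1 c := off hI S.hac.symm lc.a la.a la.ab la.b
    refine fano_alg (x := ρ (.inl X)) (p1 := ρ (.inl P1)) (p2 := ρ (.inl P2))
      (q1 := ρ (.inl Q1)) (q2 := ρ (.inl Q2)) (r1 := ρ (.inl R1)) (r2 := ρ (.inl R2))
      (ncol hρ S.lb.ab S.lb.a S.lb.b nR)
      (col hρ la.a la.b la.c) (col hρ S.lb.a S.lb.b S.lb.c) (col hρ lc.a lc.b lc.c)
      (col hρ h1 h2 h3) (col hρ h4 h5 h6) (col hρ h7 h8 h9) (col hρ h10 h11 h12)
      (ncr hρ S.lb.bc) (ncr hρ lc.ac) (ncr hρ la.ac) (ncr hρ ?_) (ncr hρ la.ab)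
      (ncr hρ lc.ab) (ncr hρ ?_) (ncr hρ S.lb.ab)
    · rintro rfl; exact nP lc.b
    · rintro rfl; exact nR S.lb.b
  obtain ⟨m, m', hbm, hbm', hmm', hQm, hQm'⟩ := hI.lines1 S.lb.b
  obtain ⟨n, n', hbn, hbn', hnn', hQn, hQn'⟩ := hI.lines1 S.lb.c
  have t1 := two7 hI S hall hbm.symm hQm
  have t2 := two7 hI S hall hbm'.symm hQm'
  have hall' : ∀ Z, Z = X ∨ Z = P1 ∨ Z = P2 ∨ Z = Q2 ∨ Z = Q1 ∨ Z = R1 ∨ Z = R2 := by
    intro Z
    rcases hall Z with h | h | h | h | h | h | h <;> simp only [h, true_or, or_true]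
  have t3 := two7 hI S.swapQ hall' hbn.symm hQn
  have t4 := two7 hI S.swapQ hall' hbn'.symm hQn'
  -- no two lines share two points
  have k1 : ∀ Z, I Z m → I Z m' → Z = Q1 := by
    intro Z h h'; by_contra hne; exact hmm' (hI.lin Z Q1 m m' hne h hQm h' hQm')
  have k2 : ∀ Z, I Z n → I Z n' → Z = Q2 := by
    intro Z h h'; by_contra hne; exact hnn' (hI.lin Z Q2 n n' hne h hQn h' hQn')
  have k3 : ∀ l l' : L, I Q1 l → I Q2 l' → b ≠ l → ∀ Z W, Z ≠ W → I Z l → I W l → I Z l' → I W l' →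
      False := by
    intro l l' h1 h2 h3 Z W hZW h4 h5 h6 h7
    have e := hI.lin Z W l l' hZW h4 h5 h6 h7
    subst e
    exact h3 (hI.lin Q1 Q2 b l S.lb.bc S.lb.b S.lb.c h1 h2)
  have d1 : P1 ≠ Q1 := by
    rintro rfl; exact off hI S.hab S.la.a S.lb.a S.lb.ab S.lb.b S.la.b
  have d2 : P2 ≠ Q1 := by
    rintro rfl; exact off hI S.hab S.la.a S.lb.a S.lb.ab S.lb.b S.la.c
  have d3 : R1 ≠ Q1 := by
    rintro rfl; exact off hI S.hbc.symm S.lc.a S.lb.a S.lb.ab S.lb.b S.lc.b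
  have d4 : R2 ≠ Q1 := by
    rintro rfl; exact off hI S.hbc.symm S.lc.a S.lb.a S.lb.ab S.lb.b S.lc.c
  have d5 : P1 ≠ Q2 := by
    rintro rfl; exact off hI S.hab S.la.a S.lb.a S.lb.ac S.lb.c S.la.b
  have d6 : P2 ≠ Q2 := by
    rintro rfl; exact off hI S.hab S.la.a S.lb.a S.lb.ac S.lb.c S.la.c
  have d7 : R1 ≠ Q2 := by
    rintro rfl; exact off hI S.hbc.symm S.lc.a S.lb.a S.lb.ac S.lb.c S.lc.b
  have d8 : R2 ≠ Q2 := by
    rintro rfl; exact off hI S.hbc.symm S.lc.a S.lb.a S.lb.ac S.lb.c S.lc.c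
  have e1 : P1 ≠ R1 := by
    rintro rfl; exact off hI S.hac S.la.a S.lc.a S.lc.ab S.lc.b S.la.b
  have e2 : P1 ≠ R2 := by
    rintro rfl; exact off hI S.hac S.la.a S.lc.a S.lc.ac S.lc.c S.la.b
  have e3 : P2 ≠ R1 := by
    rintro rfl; exact off hI S.hac S.la.a S.lc.a S.lc.ab S.lc.b S.la.c
  have e4 : P2 ≠ R2 := by
    rintro rfl; exact off hI S.hac S.la.a S.lc.a S.lc.ac S.lc.c S.la.c
  have la := S.la
  have lc := S.lc
  rcases t1 with ⟨a1, a2⟩ | ⟨a1, a2⟩ | ⟨a1, a2⟩ | ⟨a1, a2⟩ <;>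
  rcases t2 with ⟨b1, b2⟩ | ⟨b1, b2⟩ | ⟨b1, b2⟩ | ⟨b1, b2⟩ <;>
  first
  | exact absurd (k1 _ a1 b1) d1
  | exact absurd (k1 _ a1 b1) d2
  | exact absurd (k1 _ a2 b2) d3
  | exact absurd (k1 _ a2 b2) d4
  | (rcases t3 with ⟨c1, c2⟩ | ⟨c1, c2⟩ | ⟨c1, c2⟩ | ⟨c1, c2⟩ <;>
     rcases t4 with ⟨f1, f2⟩ | ⟨f1, f2⟩ | ⟨f1, f2⟩ | ⟨f1, f2⟩ <;>
     first
     | exact absurd (k2 _ c1 f1) d5
     | exact absurd (k2 _ c1 f1) d6
     | exact absurd (k2 _ c2 f2) d7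
     | exact absurd (k2 _ c2 f2) d8
     | exact k3 m n hQm hQn hbm _ _ e1 a1 a2 c1 c2
     | exact k3 m n hQm hQn hbm _ _ e2 a1 a2 c1 c2
     | exact k3 m n hQm hQn hbm _ _ e3 a1 a2 c1 c2
     | exact k3 m n hQm hQn hbm _ _ e4 a1 a2 c1 c2
     | exact k3 m n' hQm hQn' hbm _ _ e1 a1 a2 f1 f2
     | exact k3 m n' hQm hQn' hbm _ _ e2 a1 a2 f1 f2
     | exact k3 m n' hQm hQn' hbm _ _ e3 a1 a2 f1 f2
     | exact k3 m n' hQm hQn' hbm _ _ e4 a1 a2 f1 f2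
     | exact fin la lc m m' n n' hQm a2 a1 hQm' b2 b1 hQn c2 c1 hQn' f2 f1
     | exact fin la lc m m' n' n hQm a2 a1 hQm' b2 b1 hQn' f2 f1 hQn c2 c1
     | exact fin la.swap lc m m' n n' hQm a2 a1 hQm' b2 b1 hQn c2 c1 hQn' f2 f1
     | exact fin la.swap lc m m' n' n hQm a2 a1 hQm' b2 b1 hQn' f2 f1 hQn c2 c1
     | exact fin la lc.swap m m' n n' hQm a2 a1 hQm' b2 b1 hQn c2 c1 hQn' f2 f1
     | exact fin la lc.swap m m' n' n hQm a2 a1 hQm' b2 b1 hQn' f2 f1 hQn c2 c1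
     | exact fin la.swap lc.swap m m' n n' hQm a2 a1 hQm' b2 b1 hQn c2 c1 hQn' f2 f1
     | exact fin la.swap lc.swap m m' n' n hQm a2 a1 hQm' b2 b1 hQn' f2 f1 hQn c2 c1)

theorem pm1 {Z X P1 P2 Q1 Q2 R1 R2 Y : P}
    (h : Z = X ∨ Z = P1 ∨ Z = P2 ∨ Z = Q1 ∨ Z = Q2 ∨ Z = R1 ∨ Z = R2 ∨ Z = Y) :
    Z = X ∨ Z = P1 ∨ Z = P2 ∨ Z = Q2 ∨ Z = Q1 ∨ Z = R1 ∨ Z = R2 ∨ Z = Y := by
  rcases h with h | h | h | h | h | h | h | h <;> simp only [h, true_or, or_true]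

theorem pm2 {Z X P1 P2 Q1 Q2 R1 R2 Y : P}
    (h : Z = X ∨ Z = P1 ∨ Z = P2 ∨ Z = Q1 ∨ Z = Q2 ∨ Z = R1 ∨ Z = R2 ∨ Z = Y) :
    Z = X ∨ Z = P1 ∨ Z = P2 ∨ Z = Q1 ∨ Z = Q2 ∨ Z = R2 ∨ Z = R1 ∨ Z = Y := by
  rcases h with h | h | h | h | h | h | h | h <;> simp only [h, true_or, or_true]

theorem pm3 {Z X P1 P2 Q1 Q2 R1 R2 Y : P}
    (h : Z = X ∨ Z = P1 ∨ Z = P2 ∨ Z = Q1 ∨ Z = Q2 ∨ Z = R1 ∨ Z = R2 ∨ Z = Y) :
    Z = X ∨ Z = P1 ∨ Z = P2 ∨ Z = R1 ∨ Z = R2 ∨ Z = Q1 ∨ Z = Q2 ∨ Z = Y := by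
  rcases h with h | h | h | h | h | h | h | h <;> simp only [h, true_or, or_true]

theorem case8_core (hI : Conf I) (S : Star I X a b c P1 P2 Q1 Q2 R1 R2) {Y : P}
    (hall : ∀ Z, Z = X ∨ Z = P1 ∨ Z = P2 ∨ Z = Q1 ∨ Z = Q2 ∨ Z = R1 ∨ Z = R2 ∨ Z = Y)
    (ha : ¬ I Y a) (hb : ¬ I Y b) (hc : ¬ I Y c)
    (hJ : ∀ Z, Z ≠ X → Z ≠ Y → ∃ l, I Y l ∧ I Z l)
    {y1 y2 : L} (hy1 : I Y y1) (hP1 : I P1 y1) (hQ1 : I Q1 y1)
    (hy2 : I Y y2) (hQ2 : I Q2 y2) (hR1 : I R1 y2)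
    {ρ : P ⊕ L → V3} (hρ : VReal (levi I) sty ρ) : False := by
  have la := S.la
  have lb := S.lb
  have lc := S.lc
  -- distinctness
  have oQ1a : ¬ I Q1 a := off hI S.hab la.a lb.a lb.ab lb.b
  have oQ2a : ¬ I Q2 a := off hI S.hab la.a lb.a lb.ac lb.c
  have oR1a : ¬ I R1 a := off hI S.hac la.a lc.a lc.ab lc.b
  have oR2a : ¬ I R2 a := off hI S.hac la.a lc.a lc.ac lc.c
  have oP1b : ¬ I P1 b := off hI S.hab.symm lb.a la.a la.ab la.b
  have oP2b : ¬ I P2 b := off hI S.hab.symm lb.a la.a la.ac la.c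
  have oR1b : ¬ I R1 b := off hI S.hbc lb.a lc.a lc.ab lc.b
  have oR2b : ¬ I R2 b := off hI S.hbc lb.a lc.a lc.ac lc.c
  have oP1c : ¬ I P1 c := off hI S.hac.symm lc.a la.a la.ab la.b
  have oP2c : ¬ I P2 c := off hI S.hac.symm lc.a la.a la.ac la.c
  have oQ1c : ¬ I Q1 c := off hI S.hbc.symm lc.a lb.a lb.ab lb.b
  have oQ2c : ¬ I Q2 c := off hI S.hbc.symm lc.a lb.a lb.ac lb.c
  have dYX : Y ≠ X := by rintro rfl; exact ha la.a
  have dYP1 : Y ≠ P1 := by rintro rfl; exact ha la.b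
  have dYP2 : Y ≠ P2 := by rintro rfl; exact ha la.c
  have dYQ1 : Y ≠ Q1 := by rintro rfl; exact hb lb.b
  have dYQ2 : Y ≠ Q2 := by rintro rfl; exact hb lb.c
  have dYR1 : Y ≠ R1 := by rintro rfl; exact hc lc.b
  have dYR2 : Y ≠ R2 := by rintro rfl; exact hc lc.c
  have dP1Q1 : P1 ≠ Q1 := by rintro rfl; exact oP1b lb.b
  have dP1Q2 : P1 ≠ Q2 := by rintro rfl; exact oP1b lb.c
  have dP1R1 : P1 ≠ R1 := by rintro rfl; exact oP1c lc.b
  have dP1R2 : P1 ≠ R2 := by rintro rfl; exact oP1c lc.c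
  have dP2Q1 : P2 ≠ Q1 := by rintro rfl; exact oP2b lb.b
  have dP2Q2 : P2 ≠ Q2 := by rintro rfl; exact oP2b lb.c
  have dP2R1 : P2 ≠ R1 := by rintro rfl; exact oP2c lc.b
  have dP2R2 : P2 ≠ R2 := by rintro rfl; exact oP2c lc.c
  have dQ1R1 : Q1 ≠ R1 := by rintro rfl; exact oQ1c lc.b
  have dQ1R2 : Q1 ≠ R2 := by rintro rfl; exact oQ1c lc.c
  have dQ2R1 : Q2 ≠ R1 := by rintro rfl; exact oQ2c lc.b
  have dQ2R2 : Q2 ≠ R2 := by rintro rfl; exact oQ2c lc.c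
  -- the lines y1 and y2
  have L1 : Li I y1 Y P1 Q1 := by
    obtain ⟨T, H⟩ := hI.li2 dYP1 hy1 hP1
    rcases (H.all Q1).1 hQ1 with e | e | e
    · exact absurd e.symm dYQ1
    · exact absurd e.symm dP1Q1
    · rw [e]; exact H
  have L2 : Li I y2 Y Q2 R1 := by
    obtain ⟨T, H⟩ := hI.li2 dYQ2 hy2 hQ2
    rcases (H.all R1).1 hR1 with e | e | e
    · exact absurd e.symm dYR1
    · exact absurd e.symm dQ2R1
    · rw [e]; exact H
  have oR2y1 : ¬ I R2 y1 := by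
    intro h
    rcases (L1.all R2).1 h with e | e | e
    · exact dYR2 e.symm
    · exact dP1R2 e.symm
    · exact dQ1R2 e.symm
  have oR2y2 : ¬ I R2 y2 := by
    intro h
    rcases (L2.all R2).1 h with e | e | e
    · exact dYR2 e.symm
    · exact dQ2R2 e.symm
    · exact lc.bc e.symm
  have oP1y2 : ¬ I P1 y2 := by
    intro h
    rcases (L2.all P1).1 h with e | e | e
    · exact dYP1 e.symm
    · exact dP1Q2 e
    · exact dP1R1 e
  have oP2y2 : ¬ I P2 y2 := by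
    intro h
    rcases (L2.all P2).1 h with e | e | e
    · exact dYP2 e.symm
    · exact dP2Q2 e
    · exact dP2R1 e
  -- the line through Y and R2
  obtain ⟨y3, hy3, hR2⟩ := hJ R2 lc.ac.symm dYR2.symm
  obtain ⟨T, H3⟩ := hI.li2 dYR2 hy3 hR2
  have hP2y3 : I P2 y3 := by
    have hT := H3.c
    have n1 : ¬ I X y3 := fun h => hc (by
      have e := hI.lin X R2 y3 c lc.ac h hR2 lc.a lc.c
      rw [← e]; exact hy3)
    have n2 : ¬ I R1 y3 := fun h => hc (by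
      have e := hI.lin R1 R2 y3 c lc.bc h hR2 lc.b lc.c
      rw [← e]; exact hy3)
    have n3 : ¬ I P1 y3 := fun h => oR2y1 (by
      have e := hI.lin Y P1 y3 y1 dYP1 hy3 h hy1 hP1
      rw [← e]; exact hR2)
    have n4 : ¬ I Q1 y3 := fun h => oR2y1 (by
      have e := hI.lin Y Q1 y3 y1 dYQ1 hy3 h hy1 hQ1
      rw [← e]; exact hR2)
    have n5 : ¬ I Q2 y3 := fun h => oR2y2 (by
      have e := hI.lin Y Q2 y3 y2 dYQ2 hy3 h hy2 hQ2
      rw [← e]; exact hR2)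
    rcases hall T with e | e | e | e | e | e | e | e
    · exact absurd (e ▸ hT) n1
    · exact absurd (e ▸ hT) n3
    · exact e ▸ hT
    · exact absurd (e ▸ hT) n4
    · exact absurd (e ▸ hT) n5
    · exact absurd (e ▸ hT) n2
    · exact absurd e.symm H3.bc
    · exact absurd e.symm H3.ac
  -- the third line through P1
  obtain ⟨n, han, hy1n, hP1n⟩ := hI.lines2 (l := a) (m := y1) la.b
  have hn : I Q2 n ∧ I R2 n := by
    have n1 : ¬ I X n := fun h => han (hI.lin X P1 a n la.ab la.a la.b h hP1n)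
    have n2 : ¬ I P2 n := fun h => han (hI.lin P1 P2 a n la.bc la.b la.c hP1n h)
    have n3 : ¬ I Y n := fun h => hy1n (hI.lin Y P1 y1 n dYP1 hy1 hP1 h hP1n)
    have n4 : ¬ I Q1 n := fun h => hy1n (hI.lin P1 Q1 y1 n dP1Q1 hP1 hQ1 hP1n h)
    have n5 : ¬ (I Q2 n ∧ I R1 n) := fun h => oP1y2 (by
      have e := hI.lin Q2 R1 n y2 dQ2R1 h.1 h.2 hQ2 hR1
      rw [← e]; exact hP1n)
    have n6 : ¬ (I R1 n ∧ I R2 n) := fun h => oP1c (by
      have e := hI.lin R1 R2 n c lc.bc h.1 h.2 lc.b lc.c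
      rw [← e]; exact hP1n)
    obtain ⟨u, v, H⟩ := hI.li1 hP1n
    have hu := H.b
    have hv := H.c
    have h1 := H.ab
    have h2 := H.ac
    have h3 := H.bc
    clear H H3 L1 L2 la lb lc S
    rcases hall u with rfl | rfl | rfl | rfl | rfl | rfl | rfl | rfl <;>
    rcases hall v with rfl | rfl | rfl | rfl | rfl | rfl | rfl | rfl <;> tauto
  -- the third line through P2
  obtain ⟨n', han', hy3n', hP2n'⟩ := hI.lines2 (l := a) (m := y3) la.c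
  have hn' : I Q1 n' ∧ I R1 n' := by
    have n1 : ¬ I X n' := fun h => han' (hI.lin X P2 a n' la.ac la.a la.c h hP2n')
    have n2 : ¬ I P1 n' := fun h => han' (hI.lin P1 P2 a n' la.bc la.b la.c h hP2n')
    have n3 : ¬ I Y n' := fun h => hy3n' (hI.lin Y P2 y3 n' dYP2 hy3 hP2y3 h hP2n')
    have n4 : ¬ I R2 n' := fun h => hy3n' (hI.lin P2 R2 y3 n' dP2R2 hP2y3 hR2 hP2n' h)
    have n5 : ¬ (I Q1 n' ∧ I Q2 n') := fun h => oP2b (by
      have e := hI.lin Q1 Q2 n' b lb.bc h.1 h.2 lb.b lb.c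
      rw [← e]; exact hP2n')
    have n6 : ¬ (I Q2 n' ∧ I R1 n') := fun h => oP2y2 (by
      have e := hI.lin Q2 R1 n' y2 dQ2R1 h.1 h.2 hQ2 hR1
      rw [← e]; exact hP2n')
    obtain ⟨u, v, H⟩ := hI.li1 hP2n'
    have hu := H.b
    have hv := H.c
    have h1 := H.ab
    have h2 := H.ac
    have h3 := H.bc
    clear H H3 L1 L2 la lb lc S
    rcases hall u with rfl | rfl | rfl | rfl | rfl | rfl | rfl | rfl <;>
    rcases hall v with rfl | rfl | rfl | rfl | rfl | rfl | rfl | rfl <;> tauto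
  -- algebra
  refine mk_alg (x := ρ (.inl X)) (y := ρ (.inl Y)) (p1 := ρ (.inl P1)) (p2 := ρ (.inl P2))
      (q1 := ρ (.inl Q1)) (q2 := ρ (.inl Q2)) (r1 := ρ (.inl R1)) (r2 := ρ (.inl R2))
      ?_ ?_ (col hρ la.a la.b la.c) (col hρ lb.a lb.b lb.c) (col hρ lc.a lc.c lc.b)
      (col hρ hy1 hP1 hQ1) (col hρ hy2 hQ2 hR1) (col hρ hy3 hR2 hP2y3)
      (col hρ hP1n hn.2 hn.1) (col hρ hn'.1 hn'.2 hP2n')
      (ncr hρ la.bc) (ncr hρ dP1Q1) (ncr hρ lc.ab) (ncr hρ dP1Q2) (ncr hρ la.ab)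
      (ncr hρ dYP1) (ncr hρ lc.ac) (ncr hρ dP1R2) (ncr hρ la.ac)
  · have := ncol hρ la.ab.symm la.b la.a ha
    rwa [tri_cyc] at this
  · have := ncol hρ dYP1 hy1 hP1 oR2y1
    rwa [tri_cyc]

theorem case8_b (hI : Conf I) (S : Star I X a b c P1 P2 Q1 Q2 R1 R2) {Y : P}
    (hall : ∀ Z, Z = X ∨ Z = P1 ∨ Z = P2 ∨ Z = Q1 ∨ Z = Q2 ∨ Z = R1 ∨ Z = R2 ∨ Z = Y)
    (ha : ¬ I Y a) (hb : ¬ I Y b) (hc : ¬ I Y c)
    (hJ : ∀ Z, Z ≠ X → Z ≠ Y → ∃ l, I Y l ∧ I Z l)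
    {y1 : L} (hy1 : I Y y1) (hP1 : I P1 y1) (hQ1 : I Q1 y1)
    {ρ : P ⊕ L → V3} (hρ : VReal (levi I) sty ρ) : False := by
  have la := S.la
  have lb := S.lb
  have lc := S.lc
  have dYP1 : Y ≠ P1 := by rintro rfl; exact ha la.b
  have dYP2 : Y ≠ P2 := by rintro rfl; exact ha la.c
  have dYQ1 : Y ≠ Q1 := by rintro rfl; exact hb lb.b
  have dYQ2 : Y ≠ Q2 := by rintro rfl; exact hb lb.c
  have dYR1 : Y ≠ R1 := by rintro rfl; exact hc lc.b
  have dYR2 : Y ≠ R2 := by rintro rfl; exact hc lc.c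
  have oP2b : ¬ I P2 b := off hI S.hab.symm lb.a la.a la.ac la.c
  have oR1b : ¬ I R1 b := off hI S.hbc lb.a lc.a lc.ab lc.b
  have oP2c : ¬ I P2 c := off hI S.hac.symm lc.a la.a la.ac la.c
  have oR1a : ¬ I R1 a := off hI S.hac la.a lc.a lc.ab lc.b
  have oP1b : ¬ I P1 b := off hI S.hab.symm lb.a la.a la.ab la.b
  have dQ2P1 : P1 ≠ Q2 := by rintro rfl; exact oP1b lb.c
  have dR1Q1 : R1 ≠ Q1 := by rintro rfl; exact oR1b lb.b
  have dR1Q2 : R1 ≠ Q2 := by rintro rfl; exact oR1b lb.c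
  have dR1P1 : R1 ≠ P1 := by rintro rfl; exact oR1a la.b
  have dR1P2 : R1 ≠ P2 := by rintro rfl; exact oR1a la.c
  have dP2Q2 : P2 ≠ Q2 := by rintro rfl; exact oP2b lb.c
  have dP1Q1 : P1 ≠ Q1 := by rintro rfl; exact oP1b lb.b
  have L1 : Li I y1 Y P1 Q1 := by
    obtain ⟨T, H⟩ := hI.li2 dYP1 hy1 hP1
    rcases (H.all Q1).1 hQ1 with e | e | e
    · exact absurd e.symm dYQ1
    · exact absurd e.symm dP1Q1
    · rw [e]; exact H
  have oQ2y1 : ¬ I Q2 y1 := by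
    intro h
    rcases (L1.all Q2).1 h with e | e | e
    · exact dYQ2 e.symm
    · exact dQ2P1 e.symm
    · exact lb.bc e.symm
  have oR1y1 : ¬ I R1 y1 := by
    intro h
    rcases (L1.all R1).1 h with e | e | e
    · exact dYR1 e.symm
    · exact dR1P1 e
    · exact dR1Q1 e
  obtain ⟨y2, hy2, hQ2⟩ := hJ Q2 lb.ac.symm dYQ2.symm
  obtain ⟨T, H2⟩ := hI.li2 dYQ2 hy2 hQ2
  have hT := H2.c
  have n1 : ¬ I X y2 := fun h => hb (by
    have e := hI.lin X Q2 y2 b lb.ac h hQ2 lb.a lb.c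
    rw [← e]; exact hy2)
  have n2 : ¬ I Q1 y2 := fun h => hb (by
    have e := hI.lin Q1 Q2 y2 b lb.bc h hQ2 lb.b lb.c
    rw [← e]; exact hy2)
  have n3 : ¬ I P1 y2 := fun h => oQ2y1 (by
    have e := hI.lin Y P1 y2 y1 dYP1 hy2 h hy1 hP1
    rw [← e]; exact hQ2)
  rcases hall T with e | e | e | e | e | e | e | e
  · exact absurd (e ▸ hT) n1
  · exact absurd (e ▸ hT) n3
  · -- third point is P2 : impossible
    have hP2 : I P2 y2 := e ▸ hT
    have L2 : Li I y2 Y Q2 P2 := by rw [← e]; exact H2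
    have oR1y2 : ¬ I R1 y2 := by
      intro h
      rcases (L2.all R1).1 h with e | e | e
      · exact dYR1 e.symm
      · exact dR1Q2 e
      · exact dR1P2 e
    obtain ⟨y3, hy3, hR1⟩ := hJ R1 lc.ab.symm dYR1.symm
    obtain ⟨T', H3⟩ := hI.li2 dYR1 hy3 hR1
    have hT' := H3.c
    have m1 : ¬ I X y3 := fun h => hc (by
      have e := hI.lin X R1 y3 c lc.ab h hR1 lc.a lc.b
      rw [← e]; exact hy3)
    have m2 : ¬ I R2 y3 := fun h => hc (by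
      have e := hI.lin R1 R2 y3 c lc.bc hR1 h lc.b lc.c
      rw [← e]; exact hy3)
    have m3 : ¬ I P1 y3 := fun h => oR1y1 (by
      have e := hI.lin Y P1 y3 y1 dYP1 hy3 h hy1 hP1
      rw [← e]; exact hR1)
    have m4 : ¬ I Q1 y3 := fun h => oR1y1 (by
      have e := hI.lin Y Q1 y3 y1 dYQ1 hy3 h hy1 hQ1
      rw [← e]; exact hR1)
    have m5 : ¬ I Q2 y3 := fun h => oR1y2 (by
      have e := hI.lin Y Q2 y3 y2 dYQ2 hy3 h hy2 hQ2
      rw [← e]; exact hR1)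
    have m6 : ¬ I P2 y3 := fun h => oR1y2 (by
      have e := hI.lin Y P2 y3 y2 dYP2 hy3 h hy2 hP2
      rw [← e]; exact hR1)
    rcases hall T' with e | e | e | e | e | e | e | e
    · exact absurd (e ▸ hT') m1
    · exact absurd (e ▸ hT') m3
    · exact absurd (e ▸ hT') m6
    · exact absurd (e ▸ hT') m4
    · exact absurd (e ▸ hT') m5
    · exact absurd e.symm H3.bc
    · exact absurd (e ▸ hT') m2
    · exact absurd e.symm H3.ac
  · exact absurd (e ▸ hT) n2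
  · exact absurd e.symm H2.bc
  · exact case8_core hI S hall ha hb hc hJ hy1 hP1 hQ1 hy2 hQ2 (e ▸ hT) hρ
  · exact case8_core hI S.swapR (fun Z => pm2 (hall Z)) ha hb hc hJ hy1 hP1 hQ1 hy2 hQ2
      (e ▸ hT) hρ
  · exact absurd e.symm H2.ac

theorem case8 (hI : Conf I) (S : Star I X a b c P1 P2 Q1 Q2 R1 R2) {Y : P}
    (hall : ∀ Z, Z = X ∨ Z = P1 ∨ Z = P2 ∨ Z = Q1 ∨ Z = Q2 ∨ Z = R1 ∨ Z = R2 ∨ Z = Y)
    (ha : ¬ I Y a) (hb : ¬ I Y b) (hc : ¬ I Y c)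
    (hJ : ∀ Z, Z ≠ X → Z ≠ Y → ∃ l, I Y l ∧ I Z l)
    {ρ : P ⊕ L → V3} (hρ : VReal (levi I) sty ρ) : False := by
  have la := S.la
  have dYP1 : Y ≠ P1 := by rintro rfl; exact ha la.b
  obtain ⟨y1, hy1, hP1⟩ := hJ P1 la.ab.symm dYP1.symm
  obtain ⟨T, H⟩ := hI.li2 dYP1 hy1 hP1
  have hT := H.c
  have n1 : ¬ I X y1 := fun h => ha (by
    have e := hI.lin X P1 y1 a la.ab h hP1 la.a la.b
    rw [← e]; exact hy1)
  have n2 : ¬ I P2 y1 := fun h => ha (by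
    have e := hI.lin P1 P2 y1 a la.bc hP1 h la.b la.c
    rw [← e]; exact hy1)
  rcases hall T with e | e | e | e | e | e | e | e
  · exact absurd (e ▸ hT) n1
  · exact absurd e.symm H.bc
  · exact absurd (e ▸ hT) n2
  · exact case8_b hI S hall ha hb hc hJ hy1 hP1 (e ▸ hT) hρ
  · exact case8_b hI S.swapQ (fun Z => pm1 (hall Z)) ha hb hc hJ hy1 hP1 (e ▸ hT) hρ
  · exact case8_b hI S.swapQR (fun Z => pm3 (hall Z)) ha hc hb hJ hy1 hP1 (e ▸ hT) hρ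
  · exact case8_b hI S.swapQR.swapQ (fun Z => pm1 (pm3 (hall Z))) ha hc hb hJ hy1 hP1
      (e ▸ hT) hρ
  · exact absurd e.symm H.ac

theorem Star.card (hI : Conf I) (S : Star I X a b c P1 P2 Q1 Q2 R1 R2) :
    ({X, P1, P2, Q1, Q2, R1, R2} : Finset P).card = 7 := by
  have la := S.la
  have lb := S.lb
  have lc := S.lc
  have oP1b : ¬ I P1 b := off hI S.hab.symm lb.a la.a la.ab la.b
  have oP2b : ¬ I P2 b := off hI S.hab.symm lb.a la.a la.ac la.c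
  have oP1c : ¬ I P1 c := off hI S.hac.symm lc.a la.a la.ab la.b
  have oP2c : ¬ I P2 c := off hI S.hac.symm lc.a la.a la.ac la.c
  have oQ1c : ¬ I Q1 c := off hI S.hbc.symm lc.a lb.a lb.ab lb.b
  have oQ2c : ¬ I Q2 c := off hI S.hbc.symm lc.a lb.a lb.ac lb.c
  have dP1Q1 : P1 ≠ Q1 := by rintro rfl; exact oP1b lb.b
  have dP1Q2 : P1 ≠ Q2 := by rintro rfl; exact oP1b lb.c
  have dP1R1 : P1 ≠ R1 := by rintro rfl; exact oP1c lc.b
  have dP1R2 : P1 ≠ R2 := by rintro rfl; exact oP1c lc.c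
  have dP2Q1 : P2 ≠ Q1 := by rintro rfl; exact oP2b lb.b
  have dP2Q2 : P2 ≠ Q2 := by rintro rfl; exact oP2b lb.c
  have dP2R1 : P2 ≠ R1 := by rintro rfl; exact oP2c lc.b
  have dP2R2 : P2 ≠ R2 := by rintro rfl; exact oP2c lc.c
  have dQ1R1 : Q1 ≠ R1 := by rintro rfl; exact oQ1c lc.b
  have dQ1R2 : Q1 ≠ R2 := by rintro rfl; exact oQ1c lc.c
  have dQ2R1 : Q2 ≠ R1 := by rintro rfl; exact oQ2c lc.b
  have dQ2R2 : Q2 ≠ R2 := by rintro rfl; exact oQ2c lc.c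
  rw [Finset.card_insert_of_notMem, Finset.card_insert_of_notMem, Finset.card_insert_of_notMem,
    Finset.card_insert_of_notMem, Finset.card_insert_of_notMem, Finset.card_insert_of_notMem,
    Finset.card_singleton]
  · simp [lc.bc]
  · simp [dQ2R1, dQ2R2]
  · simp [lb.bc, dQ1R1, dQ1R2]
  · simp [dP2Q1, dP2Q2, dP2R1, dP2R2]
  · simp [la.bc, dP1Q1, dP1Q2, dP1R1, dP1R2]
  · simp [la.ab, la.ac, lb.ab, lb.ac, lc.ab, lc.ac]

end star

/-- a configuration with at most eight points has no real realization -/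
theorem small {P L : Type*} [Fintype P] [Fintype L] {I : P → L → Prop} (hI : Conf I) [Nonempty P]
    (ρ : P ⊕ L → V3) (hρ : VReal (levi I) sty ρ) : 9 ≤ Fintype.card P := by
  by_contra hlt
  push Not at hlt
  obtain ⟨X⟩ := (inferInstance : Nonempty P)
  obtain ⟨a, b, c, hab, hac, hbc, H⟩ := hI.line3 X
  obtain ⟨P1, P2, hP⟩ := hI.li1 ((H a).2 (Or.inl rfl))
  obtain ⟨Q1, Q2, hQ⟩ := hI.li1 ((H b).2 (Or.inr (Or.inl rfl)))
  obtain ⟨R1, R2, hR⟩ := hI.li1 ((H c).2 (Or.inr (Or.inr rfl)))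
  have S : Star I X a b c P1 P2 Q1 Q2 R1 R2 := ⟨hab, hac, hbc, hP, hQ, hR⟩
  have hcard := S.card hI
  by_cases hall : ∀ Z, Z = X ∨ Z = P1 ∨ Z = P2 ∨ Z = Q1 ∨ Z = Q2 ∨ Z = R1 ∨ Z = R2
  · exact case7 hI S hall hρ
  · push Not at hall
    obtain ⟨Y, h1, h2, h3, h4, h5, h6, h7⟩ := hall
    have hYn : Y ∉ ({X, P1, P2, Q1, Q2, R1, R2} : Finset P) := by simp [*]
    have hcard8 : (insert Y ({X, P1, P2, Q1, Q2, R1, R2} : Finset P)).card = 8 := by
      rw [Finset.card_insert_of_notMem hYn, hcard]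
    have huniv : (insert Y ({X, P1, P2, Q1, Q2, R1, R2} : Finset P)) = Finset.univ := by
      apply Finset.eq_univ_of_card
      have := Finset.card_le_univ (insert Y ({X, P1, P2, Q1, Q2, R1, R2} : Finset P))
      omega
    have hc8 : Fintype.card P = 8 := by
      rw [← Finset.card_univ, ← huniv, hcard8]
    have hall8 : ∀ Z, Z = X ∨ Z = P1 ∨ Z = P2 ∨ Z = Q1 ∨ Z = Q2 ∨ Z = R1 ∨ Z = R2 ∨ Z = Y := by
      intro Z
      have hZ : Z ∈ (insert Y ({X, P1, P2, Q1, Q2, R1, R2} : Finset P)) := by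
        rw [huniv]; exact Finset.mem_univ Z
      simp only [Finset.mem_insert, Finset.mem_singleton] at hZ
      rcases hZ with h | h | h | h | h | h | h | h <;> simp only [h, true_or, or_true]
    have ha : ¬ I Y a := by
      intro h
      rcases (hP.all Y).1 h with e | e | e
      · exact h1 e
      · exact h2 e
      · exact h3 e
    have hb : ¬ I Y b := by
      intro h
      rcases (hQ.all Y).1 h with e | e | e
      · exact h1 e
      · exact h4 e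
      · exact h5 e
    have hc : ¬ I Y c := by
      intro h
      rcases (hR.all Y).1 h with e | e | e
      · exact h1 e
      · exact h6 e
      · exact h7 e
    have hXY : ∀ l, I X l → ¬ I Y l := by
      intro l hl
      rcases (H l).1 hl with rfl | rfl | rfl <;> assumption
    have hJ : ∀ Z, Z ≠ X → Z ≠ Y → ∃ l, I Y l ∧ I Z l := by
      intro Z hZX hZY
      obtain ⟨d, e, f, A1, A2, B1, B2, C1, C2, S'⟩ := hI.star Y
      have hc' := S'.card hI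
      have hXn : X ∉ ({Y, A1, A2, B1, B2, C1, C2} : Finset P) := by
        simp only [Finset.mem_insert, Finset.mem_singleton, not_or]
        refine ⟨fun e => h1 e.symm, ?_, ?_, ?_, ?_, ?_, ?_⟩
        · rintro rfl; exact hXY d S'.la.b S'.la.a
        · rintro rfl; exact hXY d S'.la.c S'.la.a
        · rintro rfl; exact hXY e S'.lb.b S'.lb.a
        · rintro rfl; exact hXY e S'.lb.c S'.lb.a
        · rintro rfl; exact hXY f S'.lc.b S'.lc.a
        · rintro rfl; exact hXY f S'.lc.c S'.lc.a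
      have hu : insert X ({Y, A1, A2, B1, B2, C1, C2} : Finset P) = Finset.univ := by
        apply Finset.eq_univ_of_card
        rw [Finset.card_insert_of_notMem hXn, hc', hc8]
      have hZ : Z ∈ insert X ({Y, A1, A2, B1, B2, C1, C2} : Finset P) := by
        rw [hu]; exact Finset.mem_univ Z
      simp only [Finset.mem_insert, Finset.mem_singleton] at hZ
      rcases hZ with e1 | e1 | e1 | e1 | e1 | e1 | e1 | e1
      · exact absurd e1 hZX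
      · exact absurd e1 hZY
      · exact ⟨d, S'.la.a, e1 ▸ S'.la.b⟩
      · exact ⟨d, S'.la.a, e1 ▸ S'.la.c⟩
      · exact ⟨e, S'.lb.a, e1 ▸ S'.lb.b⟩
      · exact ⟨e, S'.lb.a, e1 ▸ S'.lb.c⟩
      · exact ⟨f, S'.lc.a, e1 ▸ S'.lc.b⟩
      · exact ⟨f, S'.lc.a, e1 ▸ S'.lc.c⟩
    exact case8 hI S hall8 ha hb hc hJ hρ

end Pool.Agent.RigidConf
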