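import Pool.Agent.RigidConf.Vec

/-!
# The algebraic core: a determinantal cubic is not the product of a line and a definite conic
-/

namespace Pool.Agent.RigidConf

theorem alg_contra (U1 U2 U3 V1 V2 V3 : V3) (x1 y1 x2 y2 x3 y3 q0 q1 q2 : ℝ)
    (h12 : x1 * y2 - x2 * y1 ≠ 0) (h13 : x1 * y3 - x3 * y1 ≠ 0) (h23 : x2 * y3 - x3 * y2 ≠ 0)
    (hV12 : cr V1 V2 ≠ 0) (hV13 : cr V1 V3 ≠ 0) (hV23 : cr V2 V3 ≠ 0)
    (hq : ∀ x y : ℝ, (x ≠ 0 ∨ y ≠ 0) → q0 * x ^ 2 + q1 * x * y + q2 * y ^ 2 ≠ 0)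
    (hid : ∀ s x y : ℝ, tri ((x * y1 - y * x1) • U1 + s • V1) ((x * y2 - y * x2) • U2 + s • V2)
      ((x * y3 - y * x3) • U3 + s • V3) = s * (q0 * x ^ 2 + q1 * x * y + q2 * y ^ 2)) :
    False := by
  have hexp : ∀ s x y : ℝ, (x * y1 - y * x1) * (x * y2 - y * x2) * (x * y3 - y * x3) *
      tri U1 U2 U3 + s * (tri V1 U2 U3 * ((x * y2 - y * x2) * (x * y3 - y * x3)) +
        tri U1 V2 U3 * ((x * y1 - y * x1) * (x * y3 - y * x3)) +
        tri U1 U2 V3 * ((x * y1 - y * x1) * (x * y2 - y * x2))) +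
      s ^ 2 * (tri U1 V2 V3 * (x * y1 - y * x1) + tri V1 U2 V3 * (x * y2 - y * x2) +
        tri V1 V2 U3 * (x * y3 - y * x3)) + s ^ 3 * tri V1 V2 V3 =
      s * (q0 * x ^ 2 + q1 * x * y + q2 * y ^ 2) := by
    intro s x y
    rw [← hid s x y]
    simp only [tri, dt, cr_zero, cr_one, cr_two, Pi.add_apply, Pi.smul_apply, smul_eq_mul]
    ring
  have hT : tri V1 V2 V3 = 0 := by
    have := hexp 1 0 0
    simpa using this
  have h0 : ∀ x y : ℝ, (x * y1 - y * x1) * (x * y2 - y * x2) * (x * y3 - y * x3) *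
      tri U1 U2 U3 = 0 := by
    intro x y
    have := hexp 0 x y
    simpa using this
  have hd : ∀ x y : ℝ, tri U1 V2 V3 * (x * y1 - y * x1) + tri V1 U2 V3 * (x * y2 - y * x2) +
        tri V1 V2 U3 * (x * y3 - y * x3) = 0 := by
    intro x y
    have e1 := hexp 1 x y
    have e2 := hexp (-1) x y
    have e0 := h0 x y
    rw [hT, e0] at e1 e2
    linarith
  have hc : ∀ x y : ℝ, tri V1 U2 U3 * ((x * y2 - y * x2) * (x * y3 - y * x3)) +
        tri U1 V2 U3 * ((x * y1 - y * x1) * (x * y3 - y * x3)) +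
        tri U1 U2 V3 * ((x * y1 - y * x1) * (x * y2 - y * x2)) =
        q0 * x ^ 2 + q1 * x * y + q2 * y ^ 2 := by
    intro x y
    have e1 := hexp 1 x y
    have e0 := h0 x y
    rw [hT, e0, hd x y] at e1
    linarith
  have hn1 : x1 ≠ 0 ∨ y1 ≠ 0 := by
    by_contra h
    push Not at h
    apply h12
    rw [h.1, h.2]; ring
  have hn2 : x2 ≠ 0 ∨ y2 ≠ 0 := by
    by_contra h
    push Not at h
    apply h12
    rw [h.1, h.2]; ring
  have hn3 : x3 ≠ 0 ∨ y3 ≠ 0 := by
    by_contra h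
    push Not at h
    apply h13
    rw [h.1, h.2]; ring
  have hc1 : tri V1 U2 U3 ≠ 0 := by
    intro h
    have e := hc x1 y1
    rw [h] at e
    apply hq x1 y1 hn1
    rw [← e]; ring
  have hc2 : tri U1 V2 U3 ≠ 0 := by
    intro h
    have e := hc x2 y2
    rw [h] at e
    apply hq x2 y2 hn2
    rw [← e]; ring
  have hc3 : tri U1 U2 V3 ≠ 0 := by
    intro h
    have e := hc x3 y3
    rw [h] at e
    apply hq x3 y3 hn3
    rw [← e]; ring
  have hD : tri U1 U2 U3 = 0 := by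
    by_cases hs : (x1 * y3 - x3 * y1) + (x2 * y3 - x3 * y2) = 0
    · have e := h0 (x1 - x2) (y1 - y2)
      have e' : ((x1 - x2) * y1 - (y1 - y2) * x1) * ((x1 - x2) * y2 - (y1 - y2) * x2) *
          ((x1 - x2) * y3 - (y1 - y2) * x3) =
          (x1 * y2 - x2 * y1) * (x1 * y2 - x2 * y1) *
            (2 * (x1 * y3 - x3 * y1) - ((x1 * y3 - x3 * y1) + (x2 * y3 - x3 * y2))) := by ring
      rw [e', hs, sub_zero] at e
      rcases mul_eq_zero.mp e with h | h
      · exfalso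
        rcases mul_eq_zero.mp h with h | h
        · exact (mul_ne_zero h12 h12) h
        · exact (mul_ne_zero two_ne_zero h13) h
      · exact h
    · have e := h0 (x1 + x2) (y1 + y2)
      have e' : ((x1 + x2) * y1 - (y1 + y2) * x1) * ((x1 + x2) * y2 - (y1 + y2) * x2) *
          ((x1 + x2) * y3 - (y1 + y2) * x3) =
          -((x1 * y2 - x2 * y1) * (x1 * y2 - x2 * y1)) *
            ((x1 * y3 - x3 * y1) + (x2 * y3 - x3 * y2)) := by ring
      rw [e'] at e
      rcases mul_eq_zero.mp e with h | h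
      · exfalso
        rcases mul_eq_zero.mp h with h | h
        · exact (neg_ne_zero.mpr (mul_ne_zero h12 h12)) h
        · exact hs h
      · exact h
  have hU12 : cr U1 U2 ≠ 0 := by
    intro h
    apply hc3
    have : tri U1 U2 V3 = dt V3 (cr U1 U2) := by
      simp only [tri, dt, cr_zero, cr_one, cr_two]; ring
    rw [this, h]
    simp [dt]
  obtain ⟨α, β, hU3⟩ := exists_lin hD hU12
  obtain ⟨γ, δ, hV3⟩ := exists_lin hT hV12
  have hγ : γ ≠ 0 := by
    rintro rfl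
    apply hV23
    rw [hV3]
    apply v3_ext <;> simp <;> ring
  have hδ : δ ≠ 0 := by
    rintro rfl
    apply hV13
    rw [hV3]
    apply v3_ext <;> simp <;> ring
  set p := tri V1 U1 U2 with hp
  set r := tri V2 U1 U2 with hr
  set ψ1 := tri U1 V1 V2 with hψ1
  set ψ2 := tri U2 V1 V2 with hψ2
  have ec1 : tri V1 U2 U3 = -α * p := by
    rw [hp, hU3]
    simp only [tri, dt, cr_zero, cr_one, cr_two, Pi.add_apply, Pi.smul_apply, smul_eq_mul]
    ring
  have ec2 : tri U1 V2 U3 = -β * r := by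
    rw [hr, hU3]
    simp only [tri, dt, cr_zero, cr_one, cr_two, Pi.add_apply, Pi.smul_apply, smul_eq_mul]
    ring
  have ec3 : tri U1 U2 V3 = γ * p + δ * r := by
    rw [hp, hr, hV3]
    simp only [tri, dt, cr_zero, cr_one, cr_two, Pi.add_apply, Pi.smul_apply, smul_eq_mul]
    ring
  have ed1 : tri U1 V2 V3 = -γ * ψ1 := by
    rw [hψ1, hV3]
    simp only [tri, dt, cr_zero, cr_one, cr_two, Pi.add_apply, Pi.smul_apply, smul_eq_mul]
    ring
  have ed2 : tri V1 U2 V3 = -δ * ψ2 := by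
    rw [hψ2, hV3]
    simp only [tri, dt, cr_zero, cr_one, cr_two, Pi.add_apply, Pi.smul_apply, smul_eq_mul]
    ring
  have ed3 : tri V1 V2 U3 = α * ψ1 + β * ψ2 := by
    rw [hψ1, hψ2, hU3]
    simp only [tri, dt, cr_zero, cr_one, cr_two, Pi.add_apply, Pi.smul_apply, smul_eq_mul]
    ring
  have r1 := hd x1 y1
  have r2 := hd x2 y2
  rw [ed1, ed2, ed3] at r1 r2
  have hd3 : α * ψ1 + β * ψ2 ≠ 0 := by
    intro h
    rw [h] at r1 r2
    have hz2 : ψ2 = 0 := by
      have : δ * (x1 * y2 - x2 * y1) * ψ2 = 0 := by linarith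
      rcases mul_eq_zero.mp this with h' | h'
      · exact absurd h' (mul_ne_zero hδ h12)
      · exact h'
    have hz1 : ψ1 = 0 := by
      have : γ * (x1 * y2 - x2 * y1) * ψ1 = 0 := by linarith
      rcases mul_eq_zero.mp this with h' | h'
      · exact absurd h' (mul_ne_zero hγ h12)
      · exact h'
    have t1 : tri V1 V2 U1 = 0 := by
      rw [← hz1, hψ1]; simp only [tri, dt, cr_zero, cr_one, cr_two]; ring
    have t2 : tri V1 V2 U2 = 0 := by
      rw [← hz2, hψ2]; simp only [tri, dt, cr_zero, cr_one, cr_two]; ring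
    obtain ⟨a, b, hU1⟩ := exists_lin t1 hV12
    obtain ⟨a', b', hU2⟩ := exists_lin t2 hV12
    apply hc1
    rw [ec1, hp, hU1, hU2]
    simp only [tri, dt, cr_zero, cr_one, cr_two, Pi.add_apply, Pi.smul_apply, smul_eq_mul]
    ring
  -- the real zero of the quadratic form
  set x := x1 * (β * γ) - x2 * (α * δ) with hx
  set y := y1 * (β * γ) - y2 * (α * δ) with hy
  have n1 : x * y1 - y * x1 = α * δ * (x1 * y2 - x2 * y1) := by rw [hx, hy]; ring
  have n2 : x * y2 - y * x2 = β * γ * (x1 * y2 - x2 * y1) := by rw [hx, hy]; ring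
  have n3 : x * y3 - y * x3 = γ * δ * (x1 * y2 - x2 * y1) := by
    apply mul_left_cancel₀ hd3
    rw [hx, hy]
    linear_combination γ * β * r1 - α * δ * r2
  have hxy : x ≠ 0 ∨ y ≠ 0 := by
    by_contra h
    push Not at h
    rw [h.1, h.2] at n3
    apply mul_ne_zero (mul_ne_zero hγ hδ) h12
    rw [← n3]; ring
  apply hq x y hxy
  rw [← hc x y, n1, n2, n3, ec1, ec2, ec3]
  ring

end Pool.Agent.RigidConf
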