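import Pool.Agent.RigidConf.Main

/-!
# Two-dimensional subspaces and normal vectors
-/

namespace Pool.Agent.RigidConf

open scoped LinearAlgebra.Projectivization

/-- the functional `x ↦ n · x` -/
def dtl (n : V3) : V3 →ₗ[ℝ] ℝ where
  toFun x := dt n x
  map_add' x y := by simp [dt]; ring
  map_smul' c x := by simp [dt]; ring

@[simp] theorem dtl_apply (n x : V3) : dtl n x = dt n x := rfl

theorem finrank_ker_dtl {n : V3} (hn : n ≠ 0) : Module.finrank ℝ (LinearMap.ker (dtl n)) = 2 := by
  have h1 := LinearMap.finrank_range_add_finrank_ker (dtl n)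
  have h2 : LinearMap.range (dtl n) = ⊤ := by
    rw [LinearMap.range_eq_top]
    apply LinearMap.surjective
    intro h
    have := v3_ne_zero hn
    apply this
    have h3 := congrArg (fun f : V3 →ₗ[ℝ] ℝ => f n) h
    simp only [dtl_apply, dt, LinearMap.zero_apply] at h3
    linarith
  rw [h2, finrank_top] at h1
  simp at h1
  omega

theorem exists_normal (W : Submodule ℝ V3) (hW : Module.finrank ℝ W = 2) :
    ∃ n : V3, n ≠ 0 ∧ ∀ x, dt x n = 0 ↔ x ∈ W := by
  have : FiniteDimensional ℝ W := inferInstance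
  set b := Module.finBasisOfFinrankEq ℝ W hW with hb
  have hli := b.linearIndependent
  set u : V3 := (b 0 : V3) with hu
  set v : V3 := (b 1 : V3) with hv
  have hpair : ∀ s t : ℝ, s • u + t • v = 0 → s = 0 ∧ t = 0 := by
    intro s t hst
    have h1 := Fintype.linearIndependent_iff.mp hli ![s, t] (by
      rw [Fin.sum_univ_two]
      apply Subtype.ext
      simpa using hst)
    exact ⟨h1 0, h1 1⟩
  have hcr : cr u v ≠ 0 := by
    intro h
    have h0 := congrFun h 0
    have h1 := congrFun h 1
    have h2 := congrFun h 2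
    simp only [cr_zero, cr_one, cr_two, Pi.zero_apply] at h0 h1 h2
    have hu0 : u = 0 := by
      apply v3_ext
      · have := hpair (v 0) (-u 0) (by apply v3_ext <;> simp <;> linarith)
        simpa using this.2
      · have := hpair (v 1) (-u 1) (by apply v3_ext <;> simp <;> linarith)
        simpa using this.2
      · have := hpair (v 2) (-u 2) (by apply v3_ext <;> simp <;> linarith)
        simpa using this.2
    have := (hpair 1 0 (by rw [hu0]; simp)).1
    exact one_ne_zero this
  refine ⟨cr u v, hcr, ?_⟩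
  intro x
  constructor
  · intro hx
    obtain ⟨α, β, hab⟩ := exists_lin (a := u) (b := v) (c := x) (by
      rw [tri_eq_dt_cr, dt_comm]; exact hx) hcr
    rw [hab]
    exact W.add_mem (W.smul_mem _ (b 0).2) (W.smul_mem _ (b 1).2)
  · intro hx
    have h1 := b.sum_repr ⟨x, hx⟩
    rw [Fin.sum_univ_two] at h1
    have h2 := congrArg Subtype.val h1
    simp only [Submodule.coe_add, Submodule.coe_smul] at h2
    rw [← h2]
    have : ∀ s t : ℝ, dt (s • u + t • v) (cr u v) = 0 := by
      intro s t
      simp [dt]; ring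
    exact this _ _

theorem mk_eq_of_cr {u v : V3} (hu : u ≠ 0) (hv : v ≠ 0) (h : cr u v = 0) :
    Projectivization.mk ℝ u hu = Projectivization.mk ℝ v hv := by
  obtain ⟨c, hc⟩ := exists_smul_of_cr_zero hu h
  rw [Projectivization.mk_eq_mk_iff']
  have hc0 : c ≠ 0 := by
    rintro rfl
    rw [zero_smul] at hc
    exact hv hc
  refine ⟨c⁻¹, ?_⟩
  rw [hc, smul_smul, inv_mul_cancel₀ hc0, one_smul]

theorem cr_of_mk_eq {u v : V3} (hu : u ≠ 0) (hv : v ≠ 0)
    (h : Projectivization.mk ℝ u hu = Projectivization.mk ℝ v hv) : cr u v = 0 := by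
  rw [Projectivization.mk_eq_mk_iff'] at h
  obtain ⟨c, hc⟩ := h
  rw [← hc]
  apply v3_ext <;> simp <;> ring

theorem mem_iff_of_cr {W : Submodule ℝ V3} {u v : V3} (hu : u ≠ 0) (hv : v ≠ 0)
    (h : cr u v = 0) : u ∈ W ↔ v ∈ W := by
  obtain ⟨c, hc⟩ := exists_smul_of_cr_zero hu h
  have hc0 : c ≠ 0 := by
    rintro rfl
    rw [zero_smul] at hc
    exact hv hc
  rw [hc]
  exact (Submodule.smul_mem_iff W hc0).symm

end Pool.Agent.RigidConf
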