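import Pool.Agent.RigidConf.Count

/-!
# A theta subgraph inside a minimal dense set of points
-/

namespace Pool.Agent.RigidConf

open Classical

set_option linter.unusedSectionVars false

section cyc

variable {V : Type*} {G : SimpleGraph V} {U : Set V} {g : ℕ} {z : ℕ → V}

theorem Cyc.nb (h : Cyc G U g z) (hmin : ∀ g' z', Cyc G U g' z' → g ≤ g') (s j : ℕ)
    (hadj : G.Adj (z s) (z j)) : z j = z (s + 1) ∨ z j = z (s + (g - 1)) := by
  rcases h.chordless hmin s j hadj with e | e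
  · exact Or.inl e
  · right
    have h3 := h.g3
    have e' : z (s + (g - 1) + 1) = z (j + 1) := by
      rw [show s + (g - 1) + 1 = s + g by omega, h.per]
      exact e
    rw [h.eq_iff] at e' ⊢
    exact (Nat.ModEq.add_right_cancel' 1 e').symm

theorem Cyc.nb_ne (h : Cyc G U g z) (s : ℕ) : z (s + 1) ≠ z (s + (g - 1)) := by
  intro e
  rw [h.eq_iff] at e
  have h3 := h.g3
  have : 1 ≡ g - 1 [MOD g] := Nat.ModEq.add_left_cancel' s e
  rw [Nat.ModEq, Nat.mod_eq_of_lt (by omega), Nat.mod_eq_of_lt (by omega)] at this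
  omega

theorem Cyc.adj_prev (h : Cyc G U g z) (s : ℕ) : G.Adj (z s) (z (s + (g - 1))) := by
  have h3 := h.g3
  have := h.adj (s + (g - 1))
  rw [show s + (g - 1) + 1 = s + g by omega, h.per] at this
  exact this.symm

theorem Cubic.no_four {ty : V → Bool} (hG : Cubic G ty) {x y1 y2 y3 y4 : V} (h1 : G.Adj x y1)
    (h2 : G.Adj x y2) (h3 : G.Adj x y3) (h4 : G.Adj x y4) (h12 : y1 ≠ y2) (h13 : y1 ≠ y3)
    (h14 : y1 ≠ y4) (h23 : y2 ≠ y3) (h24 : y2 ≠ y4) (h34 : y3 ≠ y4) : False := by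
  obtain ⟨a, b, c, -, -, -, h⟩ := hG.three x
  rw [h] at h1 h2 h3 h4
  rcases h1 with rfl | rfl | rfl <;> rcases h2 with rfl | rfl | rfl <;>
    rcases h3 with rfl | rfl | rfl <;> rcases h4 with rfl | rfl | rfl <;>
    first
    | exact h12 rfl
    | exact h13 rfl
    | exact h14 rfl
    | exact h23 rfl
    | exact h24 rfl
    | exact h34 rfl

theorem Cyc.third_unique {ty : V → Bool} (hG : Cubic G ty) (h : Cyc G U g z) (i : ℕ) (t t' : V)
    (ht : G.Adj t (z i)) (ht' : G.Adj t' (z i)) (htz : ∀ j, t ≠ z j) (ht'z : ∀ j, t' ≠ z j) :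
    t = t' := by
  by_contra hne
  exact hG.no_four ht.symm ht'.symm (h.adj i) (h.adj_prev i) hne (htz _) (htz _) (ht'z _)
    (ht'z _) (h.nb_ne i)

theorem exists_min_cyc (h : ∃ g z, Cyc G U g z) :
    ∃ g z, Cyc G U g z ∧ ∀ g' z', Cyc G U g' z' → g ≤ g' := by
  obtain ⟨z, hz⟩ := Nat.find_spec h
  exact ⟨Nat.find h, z, hz, fun g' z' h' => Nat.find_min' h ⟨z', h'⟩⟩

end cyc

variable {P L : Type*} [Fintype P] [Fintype L] {I : P → L → Prop} {A : Finset P}

/-- points of `A` and lines with at least two points of `A` -/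
def uu (I : P → L → Prop) (A : Finset P) : Set (P ⊕ L) :=
  {x | match x with
    | .inl p => p ∈ A
    | .inr l => 2 ≤ mm I A l}

@[simp] theorem inl_mem_uu {p : P} : (Sum.inl p : P ⊕ L) ∈ uu I A ↔ p ∈ A := Iff.rfl
@[simp] theorem inr_mem_uu {l : L} : (Sum.inr l : P ⊕ L) ∈ uu I A ↔ 2 ≤ mm I A l := Iff.rfl

theorem cut_le (A B : Finset P) (S : Finset L)
    (h : ∀ l, ∀ p ∈ A, ∀ q ∈ B, I p l → I q l → l ∈ S) : cut I A B ≤ S.card := by
  refine Finset.card_le_card ?_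
  intro l hl
  rw [Finset.mem_filter, one_le_mm, one_le_mm] at hl
  obtain ⟨-, ⟨p, hp, hpl⟩, ⟨q, hq, hql⟩⟩ := hl
  exact h l p hp q hq hpl hql

/-- a set of points that is dense, and minimal with this property -/
structure MinSet (I : P → L → Prop) (A : Finset P) : Prop where
  four : 4 ≤ A.card
  big : 2 * A.card ≤ rr I A + 3
  min : ∀ B ⊆ A, B ≠ A → 4 ≤ B.card → rr I B + 4 ≤ 2 * B.card

theorem exists_minSet (A0 : Finset P) (h4 : 4 ≤ A0.card) (hr : 2 * A0.card ≤ rr I A0 + 3) :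
    ∃ A ⊆ A0, MinSet I A := by
  set S := A0.powerset.filter (fun A => 4 ≤ A.card ∧ 2 * A.card ≤ rr I A + 3) with hS
  have hne : S.Nonempty := ⟨A0, by
    rw [hS, Finset.mem_filter]
    exact ⟨Finset.mem_powerset_self _, h4, hr⟩⟩
  obtain ⟨A, hA, hmin⟩ := Finset.exists_min_image S Finset.card hne
  rw [hS, Finset.mem_filter, Finset.mem_powerset] at hA
  refine ⟨A, hA.1, hA.2.1, hA.2.2, ?_⟩
  intro B hB hBA hB4
  by_contra hlt
  have hBS : B ∈ S := by
    rw [hS, Finset.mem_filter, Finset.mem_powerset]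
    exact ⟨hB.trans hA.1, hB4, by omega⟩
  exact hBA (Finset.eq_of_subset_of_card_le hB (hmin B hBS))

theorem MinSet.bound (hI : Conf I) (hA : MinSet I A) (B : Finset P) (hB : B ⊆ A) (hBA : B ≠ A)
    (hne : B.Nonempty) : (B.card = 1 ∧ rr I B = 0) ∨ (2 ≤ B.card ∧ rr I B + 3 ≤ 2 * B.card ∧
      (4 ≤ B.card → rr I B + 4 ≤ 2 * B.card)) := by
  have h1 := two_rr_le hI B
  have h2 := hA.min B hB hBA
  have h3 : 0 < B.card := hne.card_pos
  by_cases c1 : B.card = 1
  · left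
    rw [c1] at h1
    exact ⟨c1, by omega⟩
  · right
    by_cases c2 : B.card = 2
    · rw [c2] at h1 ⊢
      omega
    · by_cases c3 : B.card = 3
      · rw [c3] at h1 ⊢
        omega
      · have := h2 (by omega)
        omega

theorem MinSet.cut_ge (hI : Conf I) (hA : MinSet I A) (A1 A2 : Finset P) (hd : Disjoint A1 A2)
    (hu : A1 ∪ A2 = A) (h1 : A1.Nonempty) (h2 : A2.Nonempty) :
    2 ≤ cut I A1 A2 ∧ (5 ≤ A.card → 3 ≤ cut I A1 A2) := by
  have hc : A1.card + A2.card = A.card := by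
    rw [← hu, Finset.card_union_of_disjoint hd]
  have hr : rr I A = rr I A1 + rr I A2 + cut I A1 A2 := by
    rw [← hu, rr_union A1 A2 hd]
  have p1 : 0 < A1.card := h1.card_pos
  have p2 : 0 < A2.card := h2.card_pos
  have b1 := hA.bound hI A1 (by rw [← hu]; exact Finset.subset_union_left)
    (by intro e; rw [e] at hc; omega) h1
  have b2 := hA.bound hI A2 (by rw [← hu]; exact Finset.subset_union_right)
    (by intro e; rw [e] at hc; omega) h2
  have hb := hA.big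
  have h4 := hA.four
  rcases b1 with ⟨c1, r1⟩ | ⟨c1, r1, s1⟩ <;> rcases b2 with ⟨c2, r2⟩ | ⟨c2, r2, s2⟩
  · omega
  · refine ⟨by omega, fun h5 => ?_⟩
    have := s2 (by omega)
    omega
  · refine ⟨by omega, fun h5 => ?_⟩
    have := s1 (by omega)
    omega
  · omega

theorem MinSet.cut_single (hI : Conf I) (hA : MinSet I A) {p : P} (hp : p ∈ A) :
    2 ≤ cut I {p} (A.erase p) ∧ (5 ≤ A.card → 3 ≤ cut I {p} (A.erase p)) := by
  refine hA.cut_ge hI _ _ ?_ ?_ ?_ ?_
  · rw [Finset.disjoint_singleton_left]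
    exact Finset.notMem_erase _ _
  · rw [← Finset.insert_eq, Finset.insert_erase hp]
  · exact Finset.singleton_nonempty p
  · rw [← Finset.card_pos, Finset.card_erase_of_mem hp]
    have := hA.four
    omega

theorem MinSet.two_lines (hI : Conf I) (hA : MinSet I A) {p : P} (hp : p ∈ A) :
    ∃ l m, l ≠ m ∧ I p l ∧ I p m ∧ (∃ q ∈ A, q ≠ p ∧ I q l) ∧ (∃ q ∈ A, q ≠ p ∧ I q m) := by
  have h := (hA.cut_single hI hp).1
  unfold cut at h
  obtain ⟨l, hl, m, hm, hlm⟩ := Finset.one_lt_card.mp (show 1 < _ from h)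
  rw [Finset.mem_filter, one_le_mm, one_le_mm] at hl hm
  obtain ⟨-, ⟨a, ha, hal⟩, ⟨q, hq, hql⟩⟩ := hl
  obtain ⟨-, ⟨b, hb, hbm⟩, ⟨r, hr, hrm⟩⟩ := hm
  rw [Finset.mem_singleton] at ha hb
  subst ha
  subst hb
  rw [Finset.mem_erase] at hq hr
  exact ⟨l, m, hlm, hal, hbm, ⟨q, hq.2, hq.1, hql⟩, ⟨r, hr.2, hr.1, hrm⟩⟩

theorem MinSet.all_lines (hI : Conf I) (hA : MinSet I A) (h5 : 5 ≤ A.card) {p : P} (hp : p ∈ A)
    (l : L) (hl : I p l) : 2 ≤ mm I A l := by
  by_contra hlt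
  have h := (hA.cut_single hI hp).2 h5
  obtain ⟨a, b, c, hab, hac, hbc, habc⟩ := hI.line3 p
  have key : ∀ l', ∀ p' ∈ ({p} : Finset P), ∀ q ∈ A.erase p, I p' l' → I q l' →
      l' ≠ l ∧ I p l' := by
    intro l' p' hp' q hq h1 h2
    rw [Finset.mem_singleton] at hp'
    subst hp'
    rw [Finset.mem_erase] at hq
    refine ⟨?_, h1⟩
    rintro rfl
    exact hlt ((two_le_mm A l').mpr ⟨p', hp, q, hq.2, hq.1.symm, h1, h2⟩)
  have hS : ∃ S : Finset L, S.card ≤ 2 ∧ ∀ l', l' ≠ l ∧ I p l' → l' ∈ S := by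
    rw [habc] at hl
    rcases hl with rfl | rfl | rfl
    · refine ⟨{b, c}, Finset.card_le_two, ?_⟩
      rintro l' ⟨h1, h2⟩
      rw [habc] at h2
      simp only [Finset.mem_insert, Finset.mem_singleton]
      tauto
    · refine ⟨{a, c}, Finset.card_le_two, ?_⟩
      rintro l' ⟨h1, h2⟩
      rw [habc] at h2
      simp only [Finset.mem_insert, Finset.mem_singleton]
      tauto
    · refine ⟨{a, b}, Finset.card_le_two, ?_⟩
      rintro l' ⟨h1, h2⟩
      rw [habc] at h2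
      simp only [Finset.mem_insert, Finset.mem_singleton]
      tauto
  obtain ⟨S, hS1, hS2⟩ := hS
  have := cut_le {p} (A.erase p) S (fun l' p' hp' q hq h1 h2 => hS2 _ (key l' p' hp' q hq h1 h2))
  omega

theorem MinSet.exists_cyc (hI : Conf I) (hA : MinSet I A) :
    ∃ g z, Cyc (levi I) (uu I A) g z ∧ ∀ g' z', Cyc (levi I) (uu I A) g' z' → g ≤ g' := by
  apply exists_min_cyc
  apply Pool.Agent.RigidConf.exists_cyc
  · have : A.Nonempty := by
      rw [← Finset.card_pos]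
      have := hA.four
      omega
    obtain ⟨p, hp⟩ := this
    exact ⟨.inl p, hp⟩
  · intro x hx a
    cases x with
    | inl p =>
      obtain ⟨l, m, hlm, hl, hm, ⟨q, hq, hqp, hql⟩, ⟨r, hr, hrp, hrm⟩⟩ := hA.two_lines hI hx
      have h1 : (Sum.inr l : P ⊕ L) ∈ uu I A :=
        (two_le_mm A l).mpr ⟨p, hx, q, hq, hqp.symm, hl, hql⟩
      have h2 : (Sum.inr m : P ⊕ L) ∈ uu I A :=
        (two_le_mm A m).mpr ⟨p, hx, r, hr, hrp.symm, hm, hrm⟩
      by_cases e : Sum.inr l = a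
      · refine ⟨.inr m, h2, hm, ?_⟩
        rw [← e]
        intro e'
        exact hlm (Sum.inr_injective e').symm
      · exact ⟨.inr l, h1, hl, e⟩
    | inr l =>
      obtain ⟨p, hp, q, hq, hpq, hpl, hql⟩ := (two_le_mm A l).mp hx
      by_cases e : Sum.inl p = a
      · refine ⟨.inl q, hq, hql, ?_⟩
        rw [← e]
        intro e'
        exact hpq (Sum.inl_injective e').symm
      · exact ⟨.inl p, hp, hpl, e⟩

end Pool.Agent.RigidConf
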