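import Pool.Agent.RigidConf.Comb

/-!
# The case of four points
-/

namespace Pool.Agent.RigidConf

open Classical

set_option linter.unusedSectionVars false

variable {P L : Type*} [Fintype P] [Fintype L] {I : P → L → Prop} {A : Finset P}
variable {U : Set (P ⊕ L)} {g : ℕ} {z : ℕ → P ⊕ L}

theorem adj_inl {I : P → L → Prop} {p : P} {y : P ⊕ L} (h : (levi I).Adj (.inl p) y) :
    ∃ l, y = .inr l ∧ I p l := by
  cases y with
  | inl q => exact absurd h (levi_ll _ _)
  | inr l => exact ⟨l, rfl, h⟩

theorem adj_inr {I : P → L → Prop} {l : L} {y : P ⊕ L} (h : (levi I).Adj (.inr l) y) :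
    ∃ p, y = .inl p ∧ I p l := by
  cases y with
  | inl q => exact ⟨q, rfl, h⟩
  | inr l => exact absurd h (levi_rr _ _)

theorem Cyc.exists_point (h : Cyc (levi I) U g z) : ∃ s p, z s = .inl p := by
  cases h0 : z 0 with
  | inl p => exact ⟨0, p, h0⟩
  | inr l =>
    have := h.adj 0
    rw [h0] at this
    obtain ⟨p, hp, -⟩ := adj_inr this
    exact ⟨1, p, hp⟩

theorem Cyc.next_point (h : Cyc (levi I) U g z) {s : ℕ} {p : P} (hp : z s = .inl p) :
    ∃ q, z (s + 2) = .inl q := by
  have h1 := h.adj s
  rw [hp] at h1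
  obtain ⟨l, hl, -⟩ := adj_inl h1
  have h2 := h.adj (s + 1)
  rw [hl] at h2
  obtain ⟨q, hq, -⟩ := adj_inr h2
  exact ⟨q, hq⟩

theorem Cyc.ne_add (h : Cyc (levi I) U g z) (s i j : ℕ) (hij : i ≠ j) (hi : i < g) (hj : j < g) :
    z (s + i) ≠ z (s + j) := by
  intro e
  rw [h.eq_iff] at e
  have : i ≡ j [MOD g] := Nat.ModEq.add_left_cancel' s e
  rw [Nat.ModEq, Nat.mod_eq_of_lt hi, Nat.mod_eq_of_lt hj] at this
  exact hij this

/-- some point of `A` is not on a shortest cycle -/
theorem MinSet.exists_off (hI : Conf I) (hA : MinSet I A) (h : Cyc (levi I) (uu I A) g z)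
    (hmin : ∀ g' z', Cyc (levi I) (uu I A) g' z' → g ≤ g') :
    ∃ x ∈ A, ∀ i, Sum.inl x ≠ z i := by
  have h6 := h.six_le hI.cubic
  by_contra hcon
  push Not at hcon
  -- lines
  have ha : ∀ l, 2 ≤ mm I A l → ∃ i, Sum.inr l = z i := by
    intro l hl
    by_contra hno
    push Not at hno
    obtain ⟨p, hp, q, hq, hpq, hpl, hql⟩ := (two_le_mm A l).mp hl
    obtain ⟨i, hi⟩ := hcon p hp
    obtain ⟨j, hj⟩ := hcon q hq
    have := h.out_unique hmin (by omega) (.inr l) hl hno i j (by rw [← hi]; exact hpl)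
      (by rw [← hj]; exact hql)
    rw [← hi, ← hj] at this
    exact hpq (Sum.inl_injective this)
  have hb : ∀ l, mm I A l ≤ 2 := by
    intro l
    by_contra hlt
    obtain ⟨s, hs⟩ := ha l (by omega)
    have h1 := h.adj s
    have h2 := h.adj_prev s
    rw [← hs] at h1 h2
    obtain ⟨a, ha', -⟩ := adj_inr h1
    obtain ⟨b, hb', -⟩ := adj_inr h2
    have : mm I A l ≤ ({a, b} : Finset P).card := by
      refine Finset.card_le_card ?_
      intro p hp
      rw [Finset.mem_filter] at hp
      obtain ⟨i, hi⟩ := hcon p hp.1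
      have := h.nb hmin s i (by rw [← hs, ← hi]; exact hp.2)
      rw [← hi, ha', hb'] at this
      rw [Finset.mem_insert, Finset.mem_singleton]
      rcases this with e | e
      · exact Or.inl (Sum.inl_injective e)
      · exact Or.inr (Sum.inl_injective e)
    have := this.trans Finset.card_le_two
    omega
  have hc : ∀ p ∈ A, (Finset.univ.filter (fun l : L => I p l ∧ 2 ≤ mm I A l)).card ≤ 2 := by
    intro p hp
    obtain ⟨s, hs⟩ := hcon p hp
    have h1 := h.adj s
    have h2 := h.adj_prev s
    rw [← hs] at h1 h2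
    obtain ⟨a, ha', -⟩ := adj_inl h1
    obtain ⟨b, hb', -⟩ := adj_inl h2
    refine le_trans (Finset.card_le_card (t := {a, b}) ?_) Finset.card_le_two
    intro l hl
    rw [Finset.mem_filter] at hl
    obtain ⟨i, hi⟩ := ha l hl.2.2
    have := h.nb hmin s i (by rw [← hs, ← hi]; exact hl.2.1)
    rw [← hi, ha', hb'] at this
    rw [Finset.mem_insert, Finset.mem_singleton]
    rcases this with e | e
    · exact Or.inl (Sum.inr_injective e)
    · exact Or.inr (Sum.inr_injective e)
  have key : 2 * rr I A ≤ 2 * A.card := by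
    calc 2 * rr I A = ∑ l : L, 2 * (mm I A l - 1) := by
          unfold rr
          rw [Finset.mul_sum]
      _ ≤ ∑ l : L, ∑ p ∈ A, (if I p l ∧ 2 ≤ mm I A l then 1 else 0) := by
          refine Finset.sum_le_sum ?_
          intro l _
          by_cases h2 : 2 ≤ mm I A l
          · have := hb l
            have e : ∑ p ∈ A, (if I p l ∧ 2 ≤ mm I A l then 1 else 0) = mm I A l := by
              rw [← Finset.card_filter]
              unfold mm
              congr 1
              ext p
              rw [Finset.mem_filter, Finset.mem_filter]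
              constructor
              · rintro ⟨h1, h3, -⟩
                exact ⟨h1, h3⟩
              · rintro ⟨h1, h3⟩
                exact ⟨h1, h3, h2⟩
            rw [e]
            omega
          · have : mm I A l - 1 = 0 := by omega
            rw [this]
            simp
      _ = ∑ p ∈ A, (Finset.univ.filter (fun l : L => I p l ∧ 2 ≤ mm I A l)).card := by
          rw [Finset.sum_comm]
          refine Finset.sum_congr rfl ?_
          intro p _
          rw [Finset.card_filter]
      _ ≤ ∑ p ∈ A, 2 := Finset.sum_le_sum hc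
      _ = 2 * A.card := by simp [mul_comm]
  have := hA.big
  have := hA.four
  omega

theorem MinSet.theta_four (hI : Conf I) (hA : MinSet I A) (h4 : A.card = 4) :
    ∃ θ : Theta (levi I), ∀ y ∈ θ.S, y ∈ uu I A := by
  obtain ⟨g, z, hz, hmin⟩ := hA.exists_cyc hI
  have h6 := hz.six_le hI.cubic
  obtain ⟨x, hx, hxz⟩ := hA.exists_off hI hz hmin
  -- every other point is on the cycle
  have hon : ∀ q ∈ A, q ≠ x → ∃ i, z i = .inl q := by
    obtain ⟨s, a, ha⟩ := hz.exists_point
    obtain ⟨b, hb⟩ := hz.next_point ha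
    obtain ⟨c, hc⟩ := hz.next_point hb
    rw [show s + 2 + 2 = s + 4 by omega] at hc
    have hab : a ≠ b := by
      rintro rfl
      exact hz.ne_add s 0 2 (by omega) (by omega) (by omega) (by rw [add_zero, ha, hb])
    have hac : a ≠ c := by
      rintro rfl
      exact hz.ne_add s 0 4 (by omega) (by omega) (by omega) (by rw [add_zero, ha, hc])
    have hbc : b ≠ c := by
      rintro rfl
      exact hz.ne_add s 2 4 (by omega) (by omega) (by omega) (by rw [hb, hc])
    have hsub : ({a, b, c} : Finset P) ⊆ A.erase x := by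
      intro y hy
      rw [Finset.mem_insert, Finset.mem_insert, Finset.mem_singleton] at hy
      rw [Finset.mem_erase]
      rcases hy with rfl | rfl | rfl
      · refine ⟨?_, ?_⟩
        · rintro rfl
          exact hxz _ ha.symm
        · have := hz.mem s
          rw [ha] at this
          exact this
      · refine ⟨?_, ?_⟩
        · rintro rfl
          exact hxz _ hb.symm
        · have := hz.mem (s + 2)
          rw [hb] at this
          exact this
      · refine ⟨?_, ?_⟩
        · rintro rfl
          exact hxz _ hc.symm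
        · have := hz.mem (s + 4)
          rw [hc] at this
          exact this
    have hcard : ({a, b, c} : Finset P).card = 3 :=
      Finset.card_eq_three.mpr ⟨a, b, c, hab, hac, hbc, rfl⟩
    have heq : ({a, b, c} : Finset P) = A.erase x := by
      refine Finset.eq_of_subset_of_card_le hsub ?_
      rw [Finset.card_erase_of_mem hx, h4, hcard]
    intro q hq hqx
    have : q ∈ A.erase x := Finset.mem_erase.mpr ⟨hqx, hq⟩
    rw [← heq, Finset.mem_insert, Finset.mem_insert, Finset.mem_singleton] at this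
    rcases this with rfl | rfl | rfl
    · exact ⟨s, ha⟩
    · exact ⟨_, hb⟩
    · exact ⟨_, hc⟩
  obtain ⟨l, m, hlm, hl, hm, ⟨q, hq, hqx, hql⟩, ⟨r, hr, hrx, hrm⟩⟩ := hA.two_lines hI hx
  have hlU : (Sum.inr l : P ⊕ L) ∈ uu I A :=
    (two_le_mm A l).mpr ⟨x, hx, q, hq, hqx.symm, hl, hql⟩
  have hmU : (Sum.inr m : P ⊕ L) ∈ uu I A :=
    (two_le_mm A m).mpr ⟨x, hx, r, hr, hrx.symm, hm, hrm⟩
  by_cases hcase : ∃ j, (levi I).Adj (.inl x) (z j)
  · obtain ⟨j, hj⟩ := hcase
    obtain ⟨k, hk, hxk⟩ := adj_inl hj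
    have edge : ∀ f q', I x f → I q' f → q' ∈ A → q' ≠ x → f ≠ k →
        ∃ θ : Theta (levi I), ∀ y ∈ θ.S, y ∈ uu I A := by
      intro f q' hxf hqf hq' hqx' hfk
      have hfU : (Sum.inr f : P ⊕ L) ∈ uu I A :=
        (two_le_mm A f).mpr ⟨x, hx, q', hq', hqx'.symm, hxf, hqf⟩
      have hfz : ∀ i, (Sum.inr f : P ⊕ L) ≠ z i := by
        intro i hi
        have := hz.out_unique hmin (by omega) (.inl x) hx hxz i j (by rw [← hi]; exact hxf) hj
        rw [← hi, hk] at this
        exact hfk (Sum.inr_injective this)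
      obtain ⟨i', hi'⟩ := hon q' hq' hqx'
      refine theta_of_conn hI.cubic hz hmin j i' ?_ ?_ (.inl x) (.inr f) hx hfU hxz hfz hj ?_ ?_
      · rw [hk, hi']
        intro hadj
        exact hfk (hI.lin x q' f k hqx'.symm hxf hqf hxk hadj)
      · rw [hk, hi']
        simp
      · rw [hi']
        exact hqf
      · exact ⟨1, Conn.edge (Or.inl rfl) (Or.inr (Or.inl rfl)) hxf⟩
    by_cases hlk : l = k
    · exact edge m r hm hrm hr hrx (by rintro rfl; exact hlm hlk)
    · exact edge l q hl hql hq hqx hlk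
  · push Not at hcase
    obtain ⟨i, hi⟩ := hon q hq hqx
    obtain ⟨i', hi'⟩ := hon r hr hrx
    have hqr : q ≠ r := by
      rintro rfl
      exact hlm (hI.lin x q l m hqx.symm hl hql hm hrm)
    refine theta_of_conn hI.cubic hz hmin i i' ?_ ?_ (.inr l) (.inr m) hlU hmU ?_ ?_ ?_ ?_ ?_
    · rw [hi, hi']
      simp
    · rw [hi, hi']
      intro e
      exact hqr (Sum.inl_injective e)
    · intro j hj
      exact hcase j (by rw [← hj]; exact hl)
    · intro j hj
      exact hcase j (by rw [← hj]; exact hm)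
    · rw [hi]
      exact hql
    · rw [hi']
      exact hrm
    · have e1 : (levi I).Adj (.inr l) (.inl x) := hl
      have e2 : (levi I).Adj (.inl x) (.inr m) := hm
      refine ⟨1 + 1, Conn.trans (b := .inl x) (Conn.edge (Or.inl rfl) ?_ e1)
        (Conn.edge ?_ (Or.inr (Or.inl rfl)) e2)⟩
      · exact Or.inr (Or.inr ⟨hx, fun i => ⟨hxz i, hcase i⟩⟩)
      · exact Or.inr (Or.inr ⟨hx, fun i => ⟨hxz i, hcase i⟩⟩)

end Pool.Agent.RigidConf
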