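import Pool.Agent.RigidConf.Comb4

/-!
# The case of at least five points
-/

namespace Pool.Agent.RigidConf

open Classical

set_option linter.unusedSectionVars false

variable {P L : Type*} [Fintype P] [Fintype L] {I : P → L → Prop} {A : Finset P}
variable {U : Set (P ⊕ L)} {g : ℕ} {z : ℕ → P ⊕ L}

theorem MinSet.theta_five (hI : Conf I) (hA : MinSet I A) (h5 : 5 ≤ A.card) :
    ∃ θ : Theta (levi I), ∀ y ∈ θ.S, y ∈ uu I A := by
  by_contra hno
  obtain ⟨g, z, hz, hmin⟩ := hA.exists_cyc hI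
  have h6 := hz.six_le hI.cubic
  set Fr : Set (P ⊕ L) := {y | y ∈ uu I A ∧ ∀ i, y ≠ z i ∧ ¬ (levi I).Adj y (z i)} with hFr
  have att : ∀ (t t' : P ⊕ L) (s s' : ℕ), t ∈ uu I A → t' ∈ uu I A → (∀ i, t ≠ z i) →
      (∀ i, t' ≠ z i) → (levi I).Adj t (z s) → (levi I).Adj t' (z s') →
      (∃ m, Conn (levi I) {y | y = t ∨ y = t' ∨ y ∈ Fr} t t' m) →
      z s = z s' ∨ (levi I).Adj (z s) (z s') := by
    intro t t' s s' h1 h2 h3 h4 h5 h6 h7
    by_contra hc
    push Not at hc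
    exact hno (theta_of_conn hI.cubic hz hmin s s' hc.2 hc.1 t t' h1 h2 h3 h4 h5 h6 h7)
  obtain ⟨s, p0, hp0⟩ := hz.exists_point
  have hp0A : p0 ∈ A := by
    have := hz.mem s
    rw [hp0] at this
    exact this
  -- a line through `p0` off the cycle
  obtain ⟨l0, hl0, hl0z⟩ : ∃ l0, I p0 l0 ∧ ∀ i, Sum.inr l0 ≠ z i := by
    have h1 := hz.adj s
    have h2 := hz.adj_prev s
    rw [hp0] at h1 h2
    obtain ⟨l1, hl1, -⟩ := adj_inl h1
    obtain ⟨l2, hl2, -⟩ := adj_inl h2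
    obtain ⟨l0, h3, h4, h5⟩ : ∃ l0, I p0 l0 ∧ l0 ≠ l1 ∧ l0 ≠ l2 := by
      by_contra hcon
      push Not at hcon
      obtain ⟨a, b, c, hab, hac, hbc, habc⟩ := hI.line3 p0
      have ha := hcon a ((habc a).mpr (Or.inl rfl))
      have hb := hcon b ((habc b).mpr (Or.inr (Or.inl rfl)))
      have hc := hcon c ((habc c).mpr (Or.inr (Or.inr rfl)))
      by_cases a1 : a = l1
      · by_cases b1 : b = l1
        · exact hab (a1.trans b1.symm)
        · by_cases c1 : c = l1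
          · exact hac (a1.trans c1.symm)
          · exact hbc ((hb b1).trans (hc c1).symm)
      · by_cases b1 : b = l1
        · by_cases c1 : c = l1
          · exact hbc (b1.trans c1.symm)
          · exact hac ((ha a1).trans (hc c1).symm)
        · exact hab ((ha a1).trans (hb b1).symm)
    refine ⟨l0, h3, ?_⟩
    intro i hi
    have := hz.nb hmin s i (by rw [hp0, ← hi]; exact h3)
    rw [← hi, hl1, hl2] at this
    rcases this with e | e
    · exact h4 (Sum.inr_injective e)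
    · exact h5 (Sum.inr_injective e)
  have hl0U : (Sum.inr l0 : P ⊕ L) ∈ uu I A := hA.all_lines hI h5 hp0A l0 hl0
  obtain ⟨y0, hy0A, hy0p, hy0l⟩ : ∃ y0 ∈ A, y0 ≠ p0 ∧ I y0 l0 := by
    obtain ⟨p, hp, q, hq, hpq, hpl, hql⟩ := (two_le_mm A l0).mp hl0U
    by_cases e : p = p0
    · exact ⟨q, hq, by rw [← e]; exact hpq.symm, hql⟩
    · exact ⟨p, hp, e, hpl⟩
  have hl0s : (levi I).Adj (.inr l0) (z s) := by rw [hp0]; exact hl0
  have hy0z : ∀ i, Sum.inl y0 ≠ z i := by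
    intro i hi
    have := hz.out_unique hmin (by omega) (.inr l0) hl0U hl0z i s (by rw [← hi]; exact hy0l) hl0s
    rw [← hi, hp0] at this
    exact hy0p (Sum.inl_injective this)
  have hy0Fr : (Sum.inl y0 : P ⊕ L) ∈ Fr := by
    refine ⟨hy0A, fun i => ⟨hy0z i, ?_⟩⟩
    intro hadj
    obtain ⟨k, hk, hyk⟩ := adj_inl hadj
    have e1 : (levi I).Adj (.inr l0) (.inl y0) := hy0l
    rcases att (.inr l0) (.inl y0) s i hl0U hy0A hl0z hy0z hl0s hadj
      ⟨1, Conn.edge (Or.inl rfl) (Or.inr (Or.inl rfl)) e1⟩ with e | e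
    · rw [hp0, hk] at e
      exact absurd e (by simp)
    · rw [hp0, hk] at e
      have := hI.lin p0 y0 l0 k hy0p.symm hl0 hy0l e hyk
      rw [← this] at hk
      exact hl0z i hk.symm
  -- the component
  set C : Set (P ⊕ L) := {y | ∃ m, Conn (levi I) Fr (.inl y0) y m} with hC
  have hCFr : ∀ y ∈ C, y ∈ Fr := by
    rintro y ⟨m, hm⟩
    exact hm.right_mem
  have hy0C : (Sum.inl y0 : P ⊕ L) ∈ C := ⟨0, Conn.refl hy0Fr⟩
  have hCadj : ∀ y ∈ C, ∀ y' ∈ Fr, (levi I).Adj y y' → y' ∈ C := by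
    rintro y ⟨m, hm⟩ y' hy' hadj
    exact ⟨m + 1, hm.trans (Conn.edge hm.right_mem hy' hadj)⟩
  -- attached vertices
  set T : Set (P ⊕ L) := {t | t ∈ uu I A ∧ (∀ i, t ≠ z i) ∧ (∃ i, (levi I).Adj t (z i)) ∧
    ∃ c ∈ C, (levi I).Adj t c} with hT
  have hTFr : ∀ t ∈ T, t ∉ Fr := by
    rintro t ⟨-, -, ⟨i, hi⟩, -⟩ ht
    exact (ht.2 i).2 hi
  have hTT : ∀ t ∈ T, ∀ t' ∈ T, sty t = sty t' → t = t' := by
    rintro t ⟨ht1, ht2, ⟨i, hi⟩, ⟨c, ⟨m, hc⟩, htc⟩⟩ t' ⟨ht1', ht2', ⟨i', hi'⟩, ⟨c', ⟨m', hc'⟩, htc'⟩⟩ hty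
    have hcc : Conn (levi I) Fr c c' (m + m') := hc.symm.trans hc'
    have hsub : Fr ⊆ {y | y = t ∨ y = t' ∨ y ∈ Fr} := fun y hy => Or.inr (Or.inr hy)
    have hconn : Conn (levi I) {y | y = t ∨ y = t' ∨ y ∈ Fr} t t' (1 + ((m + m') + 1)) := by
      refine Conn.trans (Conn.edge (Or.inl rfl) (hsub hcc.left_mem) htc) ?_
      exact Conn.trans (hcc.mono hsub)
        (Conn.edge (hsub hcc.right_mem) (Or.inr (Or.inl rfl)) htc'.symm)
    rcases att t t' i i' ht1 ht1' ht2 ht2' hi hi' ⟨_, hconn⟩ with e | e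
    · rw [← e] at hi'
      exact hz.third_unique hI.cubic i t t' hi hi' ht2 ht2'
    · exfalso
      have b1 := hI.cubic.bip _ _ hi
      have b2 := hI.cubic.bip _ _ hi'
      have b3 := hI.cubic.bip _ _ e
      rw [hty] at b1
      revert b1 b2 b3
      cases sty t' <;> cases sty (z i) <;> cases sty (z i') <;> simp
  have hl0T : (Sum.inr l0 : P ⊕ L) ∈ T := ⟨hl0U, hl0z, ⟨s, hl0s⟩, ⟨_, hy0C, hy0l⟩⟩
  -- a vertex of `U` next to the component
  have hnext : ∀ c ∈ C, ∀ y ∈ uu I A, (levi I).Adj c y → y ∈ C ∨ y ∈ T := by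
    intro c hc y hy hcy
    by_cases hyF : y ∈ Fr
    · exact Or.inl (hCadj c hc y hyF hcy)
    · right
      have hyz : ∀ i, y ≠ z i := by
        intro i hi
        exact ((hCFr c hc).2 i).2 (by rw [← hi]; exact hcy)
      refine ⟨hy, hyz, ?_, ⟨c, hc, hcy.symm⟩⟩
      by_contra hcon
      push Not at hcon
      exact hyF ⟨hy, fun i => ⟨hyz i, hcon i⟩⟩
  set A1 : Finset P := A.filter (fun p => (Sum.inl p : P ⊕ L) ∈ C) with hA1
  have hkey : ∀ l, ∀ p ∈ A1, ∀ q ∈ A, (Sum.inl q : P ⊕ L) ∉ C → I p l → I q l →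
      l = l0 ∨ ((Sum.inr l : P ⊕ L) ∈ C ∧ (Sum.inl q : P ⊕ L) ∈ T) := by
    intro l p hp q hq hqC hpl hql
    rw [hA1, Finset.mem_filter] at hp
    have hpq : p ≠ q := by
      rintro rfl
      exact hqC hp.2
    have hlU : (Sum.inr l : P ⊕ L) ∈ uu I A := (two_le_mm A l).mpr ⟨p, hp.1, q, hq, hpq, hpl, hql⟩
    rcases hnext (.inl p) hp.2 (.inr l) hlU hpl with h | h
    · right
      refine ⟨h, ?_⟩
      rcases hnext (.inr l) h (.inl q) hq hql with h' | h'
      · exact absurd h' hqC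
      · exact h'
    · left
      exact Sum.inr_injective (hTT _ h _ hl0T rfl)
  have hA1A : A1 ⊆ A := Finset.filter_subset _ _
  have hA1ne : A1.Nonempty := ⟨y0, Finset.mem_filter.mpr ⟨hy0A, hy0C⟩⟩
  have hp0C : (Sum.inl p0 : P ⊕ L) ∉ C := fun h => ((hCFr _ h).2 s).1 hp0.symm
  have hcut : ∀ B : Finset P, B ⊆ A → B.Nonempty → p0 ∉ B → 3 ≤ cut I B (A \ B) := by
    intro B hB hBne hpB
    refine (hA.cut_ge hI B (A \ B) Finset.disjoint_sdiff ?_ hBne ?_).2 h5
    · exact Finset.union_sdiff_of_subset hB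
    · exact ⟨p0, Finset.mem_sdiff.mpr ⟨hp0A, hpB⟩⟩
  have hp0A1 : p0 ∉ A1 := fun h => hp0C (Finset.mem_filter.mp h).2
  have hc1 := hcut A1 hA1A hA1ne hp0A1
  have hqnot : ∀ q, q ∈ A \ A1 → q ∈ A ∧ (Sum.inl q : P ⊕ L) ∉ C := by
    intro q hq
    rw [Finset.mem_sdiff] at hq
    exact ⟨hq.1, fun h => hq.2 (Finset.mem_filter.mpr ⟨hq.1, h⟩)⟩
  by_cases hb : ∃ b, (Sum.inl b : P ⊕ L) ∈ T
  · obtain ⟨b, hbT⟩ := hb
    have hbT' := hbT
    obtain ⟨hbA, hbz, ⟨sb, hsb⟩, -⟩ := hbT'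
    have hbA : b ∈ A := hbA
    obtain ⟨m, hm, hbm⟩ := adj_inl hsb
    have hbC : (Sum.inl b : P ⊕ L) ∉ C := fun h => hTFr _ hbT (hCFr _ h)
    have hmC : (Sum.inr m : P ⊕ L) ∉ C := fun h => ((hCFr _ h).2 sb).1 hm.symm
    obtain ⟨f1, f2, hf⟩ : ∃ f1 f2, ∀ l, I b l → l = m ∨ l = f1 ∨ l = f2 := by
      obtain ⟨a, b', c, -, -, -, habc⟩ := hI.line3 b
      rw [habc] at hbm
      rcases hbm with rfl | rfl | rfl
      · exact ⟨b', c, fun l hl => by rw [habc] at hl; tauto⟩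
      · exact ⟨a, c, fun l hl => by rw [habc] at hl; tauto⟩
      · exact ⟨a, b', fun l hl => by rw [habc] at hl; tauto⟩
    have hff : ∀ f f', (∀ l, I b l → l = m ∨ l = f ∨ l = f') → (Sum.inr f : P ⊕ L) ∈ C := by
      intro f f' hf
      by_contra hfC
      have : cut I A1 (A \ A1) ≤ ({l0, f'} : Finset L).card := by
        refine cut_le _ _ _ ?_
        intro l p hp q hq hpl hql
        obtain ⟨hqA, hqC⟩ := hqnot q hq
        rw [Finset.mem_insert, Finset.mem_singleton]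
        rcases hkey l p hp q hqA hqC hpl hql with h | ⟨h1, h2⟩
        · exact Or.inl h
        · right
          have hqb : q = b := Sum.inl_injective (hTT _ h2 _ hbT rfl)
          subst hqb
          rcases hf l hql with e | e | e
          · rw [e] at h1; exact absurd h1 hmC
          · rw [e] at h1; exact absurd h1 hfC
          · exact e
      have := this.trans Finset.card_le_two
      omega
    have hf1 : (Sum.inr f1 : P ⊕ L) ∈ C := hff f1 f2 hf
    have hf2 : (Sum.inr f2 : P ⊕ L) ∈ C := hff f2 f1 (fun l hl => by have := hf l hl; tauto)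
    have hc2 := hcut (insert b A1) (Finset.insert_subset hbA hA1A) (Finset.insert_nonempty _ _)
      (by
        rw [Finset.mem_insert, not_or]
        refine ⟨?_, hp0A1⟩
        rintro rfl
        exact hbz s hp0.symm)
    have : cut I (insert b A1) (A \ insert b A1) ≤ ({l0, m} : Finset L).card := by
      refine cut_le _ _ _ ?_
      intro l p hp q hq hpl hql
      rw [Finset.mem_sdiff, Finset.mem_insert, not_or] at hq
      obtain ⟨hqA, hqb, hqA1⟩ := hq
      have hqC : (Sum.inl q : P ⊕ L) ∉ C := fun h => hqA1 (Finset.mem_filter.mpr ⟨hqA, h⟩)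
      rw [Finset.mem_insert, Finset.mem_singleton]
      rw [Finset.mem_insert] at hp
      rcases hp with rfl | hp
      · have hnot : (Sum.inr l : P ⊕ L) ∉ C := by
          intro hlC
          rcases hnext (.inr l) hlC (.inl q) hqA hql with h' | h'
          · exact hqC h'
          · exact hqb (Sum.inl_injective (hTT _ h' _ hbT rfl))
        rcases hf l hpl with e | e | e
        · exact Or.inr e
        · rw [e] at hnot; exact absurd hf1 hnot
        · rw [e] at hnot; exact absurd hf2 hnot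
      · rcases hkey l p hp q hqA hqC hpl hql with h | ⟨h1, h2⟩
        · exact Or.inl h
        · exact absurd (Sum.inl_injective (hTT _ h2 _ hbT rfl)) hqb
    have := this.trans Finset.card_le_two
    omega
  · have : cut I A1 (A \ A1) ≤ ({l0} : Finset L).card := by
      refine cut_le _ _ _ ?_
      intro l p hp q hq hpl hql
      obtain ⟨hqA, hqC⟩ := hqnot q hq
      rw [Finset.mem_singleton]
      rcases hkey l p hp q hqA hqC hpl hql with h | ⟨h1, h2⟩
      · exact h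
      · exact absurd ⟨q, h2⟩ hb
    rw [Finset.card_singleton] at this
    omega

/-- **Existence of thetas.** -/
theorem exists_theta (hI : Conf I) (A0 : Finset P) (h4 : 4 ≤ A0.card)
    (hr : 2 * A0.card ≤ rr I A0 + 3) :
    ∃ θ : Theta (levi I), ∀ p, (Sum.inl p : P ⊕ L) ∈ θ.S → p ∈ A0 := by
  obtain ⟨A, hAA, hA⟩ := exists_minSet A0 h4 hr
  have : ∃ θ : Theta (levi I), ∀ y ∈ θ.S, y ∈ uu I A := by
    by_cases h5 : 5 ≤ A.card
    · exact hA.theta_five hI h5
    · have := hA.four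
      exact hA.theta_four hI (by omega)
  obtain ⟨θ, hθ⟩ := this
  exact ⟨θ, fun p hp => hAA (hθ _ hp)⟩

end Pool.Agent.RigidConf
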