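import Pool.Agent.RigidConf.Ear

/-!
# Walks between attached vertices give an induced theta
-/

namespace Pool.Agent.RigidConf

variable {V : Type*} {G : SimpleGraph V} {U W W' : Set V}

theorem Conn.refl {a : V} (h : a ∈ W) : Conn G W a a 0 :=
  ⟨fun _ => a, rfl, rfl, fun _ _ => h, fun j hj => absurd hj (Nat.not_lt_zero j)⟩

theorem Conn.edge {a b : V} (ha : a ∈ W) (hb : b ∈ W) (h : G.Adj a b) : Conn G W a b 1 := by
  refine ⟨fun j => if j = 0 then a else b, by simp, by simp, ?_, ?_⟩
  · intro j _
    simp only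
    split_ifs
    · exact ha
    · exact hb
  · intro j hj
    have : j = 0 := by omega
    subst this
    simpa using h

theorem Conn.symm {a b : V} {m : ℕ} (h : Conn G W a b m) : Conn G W b a m := by
  obtain ⟨R, h0, hm, hW, hadj⟩ := h
  refine ⟨fun j => R (m - j), by simpa using hm, by simpa using h0, ?_, ?_⟩
  · intro j _
    exact hW _ (by omega)
  · intro j hj
    have := hadj (m - (j + 1)) (by omega)
    rw [show m - (j + 1) + 1 = m - j by omega] at this
    exact this.symm

theorem Conn.trans {a b c : V} {m n : ℕ} (h : Conn G W a b m) (h' : Conn G W b c n) :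
    Conn G W a c (m + n) := by
  obtain ⟨R, h0, hm, hW, hadj⟩ := h
  obtain ⟨R', h0', hm', hW', hadj'⟩ := h'
  refine ⟨fun j => if j ≤ m then R j else R' (j - m), by simp [h0], ?_, ?_, ?_⟩
  · simp only
    split_ifs with h1
    · have : n = 0 := by omega
      subst this
      rw [show m + 0 = m by omega, hm, ← h0', hm']
    · rw [show m + n - m = n by omega, hm']
  · intro j hj
    simp only
    split_ifs with h1
    · exact hW _ h1
    · exact hW' _ (by omega)
  · intro j hj
    simp only
    split_ifs with h1 h2 h2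
    · exact hadj j (by omega)
    · have h3 : j = m := by omega
      rw [h3, hm, ← h0']
      have := hadj' 0 (by omega)
      rwa [show m + 1 - m = 0 + 1 by omega]
    · omega
    · have := hadj' (j - m) (by omega)
      rwa [show j + 1 - m = j - m + 1 by omega]

theorem Conn.mono {a b : V} {m : ℕ} (h : Conn G W a b m) (hWW : W ⊆ W') : Conn G W' a b m := by
  obtain ⟨R, h0, hm, hW, hadj⟩ := h
  exact ⟨R, h0, hm, fun j hj => hWW (hW j hj), hadj⟩

theorem Conn.left_mem {a b : V} {m : ℕ} (h : Conn G W a b m) : a ∈ W := by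
  obtain ⟨R, h0, hm, hW, hadj⟩ := h
  rw [← h0]; exact hW 0 (Nat.zero_le _)

theorem Conn.right_mem {a b : V} {m : ℕ} (h : Conn G W a b m) : b ∈ W := h.symm.left_mem

/-- Two vertices attached to a shortest cycle at distinct non-adjacent places and joined by a walk
avoiding the cycle and its neighbourhood: there is an induced theta. -/
theorem theta_of_conn {ty : V → Bool} (hG : Cubic G ty) {g : ℕ} {z : ℕ → V} (h : Cyc G U g z)
    (hmin : ∀ g' z', Cyc G U g' z' → g ≤ g') (s s' : ℕ) (hns : ¬ G.Adj (z s) (z s'))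
    (hne : z s ≠ z s') (t t' : V) (ht : t ∈ U) (ht' : t' ∈ U) (htz : ∀ i, t ≠ z i)
    (ht'z : ∀ i, t' ≠ z i) (hts : G.Adj t (z s)) (hts' : G.Adj t' (z s'))
    (hconn : ∃ m, Conn G {y | y = t ∨ y = t' ∨ (y ∈ U ∧ ∀ i, y ≠ z i ∧ ¬ G.Adj y (z i))} t t' m) :
    ∃ θ : Theta G, ∀ y ∈ θ.S, y ∈ U := by
  have h6 := h.six_le hG
  obtain ⟨m, R, hR0, hRm, hRW, hRadj, hRinj, hRind⟩ := exists_induced hconn
  obtain ⟨p, hpg, hp⟩ := h.shift s s'
  have hr := h.rot s
  have hp0 : p ≠ 0 := by
    rintro rfl
    exact hne hp.symm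
  have hp1 : p ≠ 1 := by
    rintro rfl
    rw [hp] at hns
    exact hns (h.adj s)
  have hp2 : p + 1 ≠ g := by
    intro e
    apply hns
    rw [hp]
    have := h.adj (s + p)
    rw [show s + p + 1 = s + g by omega, h.per] at this
    exact this.symm
  have hz0 : z (0 + s) = z s := by rw [Nat.zero_add]
  have hzp : z (p + s) = z s' := by
    rw [hp, Nat.add_comm]
  obtain ⟨θ, hθ⟩ := theta_of_ear hr hmin p (by omega) (by omega) m R
    (by rw [hz0, hR0]; exact hts.symm) (by rw [hzp, hRm]; exact hts') hRadj hRinj hRind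
    (by
      intro j hj i
      rcases hRW j hj with e | e | ⟨-, e⟩
      · rw [e]; exact htz _
      · rw [e]; exact ht'z _
      · exact (e _).1)
    (by
      intro j hj i hadj
      change G.Adj (R j) (z (i + s)) at hadj
      change (j = 0 ∧ z (i + s) = z (0 + s)) ∨ (j = m ∧ z (i + s) = z (p + s))
      rcases hRW j hj with e | e | ⟨-, e⟩
      · left
        refine ⟨hRinj j 0 hj (Nat.zero_le _) (by rw [e, hR0]), ?_⟩
        rw [hz0]
        rw [e] at hadj
        exact h.out_unique hmin (by omega) t ht htz _ _ hadj hts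
      · right
        refine ⟨hRinj j m hj (le_refl _) (by rw [e, hRm]), ?_⟩
        rw [hzp]
        rw [e] at hadj
        exact h.out_unique hmin (by omega) t' ht' ht'z _ _ hadj hts'
      · exact absurd hadj (e _).2)
  refine ⟨θ, ?_⟩
  intro y hy
  rcases hθ y hy with ⟨i, rfl⟩ | ⟨j, hj, rfl⟩
  · exact h.mem _
  · rcases hRW j hj with e | e | ⟨e, -⟩
    · rw [e]; exact ht
    · rw [e]; exact ht'
    · exact e

end Pool.Agent.RigidConf
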