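import Pool.Agent.RigidConf.Alg

/-!
# The core lemma: a determinantal real cubic has another nondegenerate real point
-/

namespace Pool.Agent.RigidConf

theorem exists_basis (w : V3) (hw : w ≠ 0) : ∃ e1 e2 : V3, tri w e1 e2 ≠ 0 := by
  by_cases h0 : w 0 = 0
  · by_cases h1 : w 1 = 0
    · have h2 : w 2 ≠ 0 := by
        intro h2
        apply hw
        apply v3_ext <;> simp [h0, h1, h2]
      exact ⟨![1, 0, 0], ![0, 1, 0], by simpa [tri, dt] using h2⟩
    · exact ⟨![0, 0, 1], ![1, 0, 0], by simpa [tri, dt] using h1⟩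
  · exact ⟨![0, 1, 0], ![0, 0, 1], by simpa [tri, dt] using h0⟩

theorem exists_coord (w e1 e2 : V3) (h : tri w e1 e2 ≠ 0) (c : V3) :
    ∃ s x y : ℝ, c = s • w + x • e1 + y • e2 := by
  refine ⟨tri c e1 e2 / tri w e1 e2, tri w c e2 / tri w e1 e2, tri w e1 c / tri w e1 e2, ?_⟩
  have key : ∀ i : Fin 3, c i * tri w e1 e2 =
      tri c e1 e2 * w i + tri w c e2 * e1 i + tri w e1 c * e2 i := by
    intro i
    fin_cases i
    · simp only [tri, dt, cr_zero, cr_one, cr_two, Fin.zero_eta, Fin.mk_one, Fin.reduceFinMk]; ring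
    · simp only [tri, dt, cr_zero, cr_one, cr_two, Fin.zero_eta, Fin.mk_one, Fin.reduceFinMk]; ring
    · simp only [tri, dt, cr_zero, cr_one, cr_two, Fin.zero_eta, Fin.mk_one, Fin.reduceFinMk]; ring
  funext i
  simp only [Pi.add_apply, Pi.smul_apply, smul_eq_mul]
  have hk := key i
  generalize tri w e1 e2 = D at *
  field_simp
  linarith

/-- A linear map killing `x • e1 + y • e2` on the plane spanned by `e1, e2`. -/
theorem exists_U (b c : V3) (x y : ℝ) (hxy : x ≠ 0 ∨ y ≠ 0) (h : x • b + y • c = 0) :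
    ∃ U : V3, ∀ x' y' : ℝ, x' • b + y' • c = (x' * y - y' * x) • U := by
  have hN : x ^ 2 + y ^ 2 ≠ 0 := by
    intro h0
    rcases hxy with hx | hy
    · apply hx; nlinarith [sq_nonneg x, sq_nonneg y]
    · apply hy; nlinarith [sq_nonneg x, sq_nonneg y]
  refine ⟨(x ^ 2 + y ^ 2)⁻¹ • (y • b - x • c), ?_⟩
  intro x' y'
  funext i
  have hi : x * b i + y * c i = 0 := by
    have := congrFun h i
    simpa using this
  simp only [Pi.add_apply, Pi.smul_apply, smul_eq_mul, Pi.sub_apply]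
  rw [← mul_assoc, ← div_eq_mul_inv, div_mul_eq_mul_div, eq_div_iff hN]
  linear_combination (x' * x + y' * y) * hi

theorem core (M1 M2 M3 : V3 →ₗ[ℝ] V3) (A1 A2 A3 w0 : V3) (hA1 : M1 A1 = 0) (hA2 : M2 A2 = 0)
    (hA3 : M3 A3 = 0) (hA12 : cr A1 A2 ≠ 0) (hA13 : cr A1 A3 ≠ 0) (hA23 : cr A2 A3 ≠ 0)
    (hV12 : cr (M1 w0) (M2 w0) ≠ 0) (hV13 : cr (M1 w0) (M3 w0) ≠ 0)
    (hV23 : cr (M2 w0) (M3 w0) ≠ 0) (hdet : tri (M1 w0) (M2 w0) (M3 w0) = 0)
    (g : MvPolynomial (Fin 3) ℝ) (N : ℕ) (hg : g.IsHomogeneous N)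
    (hg0 : MvPolynomial.eval w0 g ≠ 0) :
    ∃ w : V3, cr w0 w ≠ 0 ∧ tri (M1 w) (M2 w) (M3 w) = 0 ∧ MvPolynomial.eval w g ≠ 0 := by
  have hV1 : M1 w0 ≠ 0 := ne_zero_of_cr_left hV12
  have hV2 : M2 w0 ≠ 0 := ne_zero_of_cr_right hV12
  have hV3 : M3 w0 ≠ 0 := ne_zero_of_cr_right hV13
  have hw0 : w0 ≠ 0 := by
    rintro rfl
    exact hV1 (map_zero M1)
  obtain ⟨e1, e2, he⟩ := exists_basis w0 hw0
  -- coefficients of the cubic form
  set V1 := M1 w0 with hV1d
  set V2 := M2 w0 with hV2d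
  set V3' := M3 w0 with hV3d
  set B1 := M1 e1 with hB1
  set B2 := M2 e1 with hB2
  set B3 := M3 e1 with hB3
  set C1 := M1 e2 with hC1
  set C2 := M2 e2 with hC2
  set C3 := M3 e2 with hC3
  set a := tri B1 V2 V3' + tri V1 B2 V3' + tri V1 V2 B3 with ha
  set b := tri C1 V2 V3' + tri V1 C2 V3' + tri V1 V2 C3 with hb
  set q0 := tri V1 B2 B3 + tri B1 V2 B3 + tri B1 B2 V3' with hq0
  set q1 := tri V1 B2 C3 + tri V1 C2 B3 + tri B1 V2 C3 + tri C1 V2 B3 + tri B1 C2 V3' +
    tri C1 B2 V3' with hq1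
  set q2 := tri V1 C2 C3 + tri C1 V2 C3 + tri C1 C2 V3' with hq2
  set k0 := tri B1 B2 B3 with hk0
  set k1 := tri B1 B2 C3 + tri B1 C2 B3 + tri C1 B2 B3 with hk1
  set k2 := tri B1 C2 C3 + tri C1 B2 C3 + tri C1 C2 B3 with hk2
  set k3 := tri C1 C2 C3 with hk3
  have hF0 : ∀ s x y : ℝ, tri (s • V1 + x • B1 + y • C1) (s • V2 + x • B2 + y • C2)
      (s • V3' + x • B3 + y • C3) = cubF a b q0 q1 q2 k0 k1 k2 k3 s x y := by
    intro s x y
    have : tri (s • V1 + x • B1 + y • C1) (s • V2 + x • B2 + y • C2)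
      (s • V3' + x • B3 + y • C3) = cubF a b q0 q1 q2 k0 k1 k2 k3 s x y +
        s ^ 3 * tri V1 V2 V3' := by
      rw [ha, hb, hq0, hq1, hq2, hk0, hk1, hk2, hk3]
      simp only [cubF, tri, dt, cr_zero, cr_one, cr_two, Pi.add_apply, Pi.smul_apply,
        smul_eq_mul]
      ring
    rw [this, hdet]; ring
  have hF : ∀ s x y : ℝ, tri (M1 (s • w0 + x • e1 + y • e2)) (M2 (s • w0 + x • e1 + y • e2))
      (M3 (s • w0 + x • e1 + y • e2)) = cubF a b q0 q1 q2 k0 k1 k2 k3 s x y := by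
    intro s x y
    rw [← hF0]
    simp only [map_add, map_smul, ← hV1d, ← hV2d, ← hV3d, ← hB1, ← hB2, ← hB3, ← hC1, ← hC2,
      ← hC3]
  -- the polynomial in the new coordinates
  set g' : MvPolynomial (Fin 3) ℝ := MvPolynomial.aeval (fun i : Fin 3 =>
    (MvPolynomial.C (w0 i) * MvPolynomial.X 0 + MvPolynomial.C (e1 i) * MvPolynomial.X 1 +
      MvPolynomial.C (e2 i) * MvPolynomial.X 2 : MvPolynomial (Fin 3) ℝ)) g with hg'
  have hg'h : g'.IsHomogeneous (1 * N) := by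
    refine hg.aeval _ ?_
    intro i
    refine (MvPolynomial.IsHomogeneous.add ?_ ?_).add ?_
    · exact (MvPolynomial.isHomogeneous_X _ _).C_mul _
    · exact (MvPolynomial.isHomogeneous_X _ _).C_mul _
    · exact (MvPolynomial.isHomogeneous_X _ _).C_mul _
  have hg'e : ∀ s x y : ℝ, MvPolynomial.eval ![s, x, y] g' =
      MvPolynomial.eval (s • w0 + x • e1 + y • e2) g := by
    intro s x y
    rw [hg', ← MvPolynomial.aeval_eq_eval, ← MvPolynomial.aeval_eq_eval]
    rw [MvPolynomial.comp_aeval_apply]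
    congr 1
    congr 1
    funext i
    simp only [map_add, map_mul, MvPolynomial.aeval_C, MvPolynomial.aeval_X, Pi.add_apply,
      Pi.smul_apply, smul_eq_mul, Matrix.cons_val_zero, Matrix.cons_val_one, Matrix.cons_val,
      Algebra.algebraMap_self, RingHom.id_apply]
    ring
  have hg'0 : MvPolynomial.eval ![1, 0, 0] g' ≠ 0 := by
    rw [hg'e]
    simpa using hg0
  rcases cubic_dichotomy a b q0 q1 q2 k0 k1 k2 k3 g' (1 * N) hg'h hg'0 with
    ⟨s, x, y, hxy, hz, hgz⟩ | ⟨ha0, hb0, hq, α, β, E0, E1, E2, E3⟩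
  · refine ⟨s • w0 + x • e1 + y • e2, ?_, ?_, ?_⟩
    · intro h
      have c1 : x * tri w0 e1 e2 = 0 := by
        have : dt (cr w0 (s • w0 + x • e1 + y • e2)) e2 = x * tri w0 e1 e2 := by
          simp only [tri, dt, cr_zero, cr_one, cr_two, Pi.add_apply, Pi.smul_apply, smul_eq_mul]
          ring
        rw [← this, h]
        simp [dt]
      have c2 : y * tri w0 e1 e2 = 0 := by
        have : dt (cr w0 (s • w0 + x • e1 + y • e2)) e1 = -(y * tri w0 e1 e2) := by
          simp only [tri, dt, cr_zero, cr_one, cr_two, Pi.add_apply, Pi.smul_apply, smul_eq_mul]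
          ring
        have h' : dt (cr w0 (s • w0 + x • e1 + y • e2)) e1 = 0 := by
          rw [h]
          simp [dt]
        linarith
      rcases hxy with hx | hy
      · exact (mul_ne_zero hx he) c1
      · exact (mul_ne_zero hy he) c2
    · rw [hF, hz]
    · rw [← hg'e]; exact hgz
  · exfalso
    -- new basis
    set f1 := e1 - α • w0 with hf1
    set f2 := e2 - β • w0 with hf2
    have hf : tri w0 f1 f2 ≠ 0 := by
      have : tri w0 f1 f2 = tri w0 e1 e2 := by
        rw [hf1, hf2]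
        simp only [tri, dt, cr_zero, cr_one, cr_two, Pi.sub_apply, Pi.smul_apply, smul_eq_mul]
        ring
      rw [this]; exact he
    have hG : ∀ s x y : ℝ, tri (M1 (s • w0 + x • f1 + y • f2)) (M2 (s • w0 + x • f1 + y • f2))
      (M3 (s • w0 + x • f1 + y • f2)) = s * (q0 * x ^ 2 + q1 * x * y + q2 * y ^ 2) := by
      intro s x y
      have e : s • w0 + x • f1 + y • f2 = (s - α * x - β * y) • w0 + x • e1 + y • e2 := by
        rw [hf1, hf2]
        funext i
        simp only [Pi.add_apply, Pi.sub_apply, Pi.smul_apply, smul_eq_mul]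
        ring
      rw [e, hF, ha0, hb0, E0, E1, E2, E3]
      unfold cubF
      ring
    -- the kernels lie in the plane of `f1, f2`
    have hker : ∀ (M : V3 →ₗ[ℝ] V3) (A : V3), M A = 0 → M w0 ≠ 0 → A ≠ 0 →
        tri (M1 A) (M2 A) (M3 A) = 0 →
        ∃ x y : ℝ, (x ≠ 0 ∨ y ≠ 0) ∧ A = x • f1 + y • f2 ∧
          ∃ U : V3, ∀ x' y' : ℝ, M (x' • f1 + y' • f2) = (x' * y - y' * x) • U := by
      intro M A hMA hMw hA0 hdetA
      obtain ⟨s, x, y, hA⟩ := exists_coord w0 f1 f2 hf A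
      have hxy : x ≠ 0 ∨ y ≠ 0 := by
        by_contra h
        push Not at h
        rw [h.1, h.2, zero_smul, zero_smul, add_zero, add_zero] at hA
        rw [hA, map_smul] at hMA
        rcases smul_eq_zero.mp hMA with h' | h'
        · apply hA0; rw [hA, h', zero_smul]
        · exact hMw h'
      have hs : s = 0 := by
        rw [hA, hG] at hdetA
        rcases mul_eq_zero.mp hdetA with h | h
        · exact h
        · exact absurd h (hq x y hxy)
      rw [hs, zero_smul, zero_add] at hA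
      refine ⟨x, y, hxy, hA, ?_⟩
      obtain ⟨U, hU⟩ := exists_U (M f1) (M f2) x y hxy (by
        rw [← map_smul, ← map_smul, ← map_add, ← hA, hMA])
      refine ⟨U, fun x' y' => ?_⟩
      rw [map_add, map_smul, map_smul, hU]
    have hA10 : A1 ≠ 0 := ne_zero_of_cr_left hA12
    have hA20 : A2 ≠ 0 := ne_zero_of_cr_right hA12
    have hA30 : A3 ≠ 0 := ne_zero_of_cr_right hA13
    obtain ⟨x1, y1, -, hA1', U1, hU1⟩ := hker M1 A1 hA1 hV1 hA10 (by
      rw [hA1]; simp [tri, dt])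
    obtain ⟨x2, y2, -, hA2', U2, hU2⟩ := hker M2 A2 hA2 hV2 hA20 (by
      rw [hA2]; simp [tri, dt])
    obtain ⟨x3, y3, -, hA3', U3, hU3⟩ := hker M3 A3 hA3 hV3 hA30 (by
      rw [hA3]; simp [tri, dt])
    have hne : ∀ x y x' y' : ℝ, cr (x • f1 + y • f2) (x' • f1 + y' • f2) ≠ 0 →
        x * y' - x' * y ≠ 0 := by
      intro x y x' y' h h'
      apply h
      have : cr (x • f1 + y • f2) (x' • f1 + y' • f2) = (x * y' - x' * y) • cr f1 f2 := by
        apply v3_ext <;>
        · simp only [cr_zero, cr_one, cr_two, Pi.add_apply, Pi.smul_apply, smul_eq_mul]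
          ring
      rw [this, h', zero_smul]
    rw [hA1', hA2'] at hA12
    rw [hA1', hA3'] at hA13
    rw [hA2', hA3'] at hA23
    refine alg_contra U1 U2 U3 V1 V2 V3' x1 y1 x2 y2 x3 y3 q0 q1 q2 (hne _ _ _ _ hA12)
      (hne _ _ _ _ hA13) (hne _ _ _ _ hA23) hV12 hV13 hV23 hq ?_
    intro s x y
    rw [← hG s x y]
    have key : ∀ (M : V3 →ₗ[ℝ] V3), M (s • w0 + x • f1 + y • f2) =
        M (x • f1 + y • f2) + s • M w0 := by
      intro M
      rw [add_assoc, map_add, map_smul]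
      exact add_comm _ _
    rw [key M1, key M2, key M3, hU1, hU2, hU3]

end Pool.Agent.RigidConf
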