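import Pool.Agent.RigidConf.Conn

/-!
# Counting in configurations
-/

namespace Pool.Agent.RigidConf

open Classical

set_option linter.unusedSectionVars false

variable {P L : Type*}

/-- a combinatorial configuration: every point on exactly three lines, every line through exactly
three points, two points on at most one line -/
structure Conf (I : P → L → Prop) : Prop where
  line3 : ∀ p, ∃ a b c, a ≠ b ∧ a ≠ c ∧ b ≠ c ∧ ∀ l, I p l ↔ (l = a ∨ l = b ∨ l = c)
  point3 : ∀ l, ∃ a b c, a ≠ b ∧ a ≠ c ∧ b ≠ c ∧ ∀ p, I p l ↔ (p = a ∨ p = b ∨ p = c)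
  lin : ∀ p q l m, p ≠ q → I p l → I q l → I p m → I q m → l = m

/-- the incidence graph -/
def levi (I : P → L → Prop) : SimpleGraph (P ⊕ L) where
  Adj x y := match x, y with
    | .inl p, .inr l => I p l
    | .inr l, .inl p => I p l
    | _, _ => False
  symm := by
    constructor
    intro x y h
    cases x <;> cases y <;> exact h
  loopless := by
    constructor
    intro x h
    cases x <;> exact h

variable {I : P → L → Prop}

@[simp] theorem levi_lr (p : P) (l : L) : (levi I).Adj (.inl p) (.inr l) ↔ I p l := Iff.rfl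
@[simp] theorem levi_rl (p : P) (l : L) : (levi I).Adj (.inr l) (.inl p) ↔ I p l := Iff.rfl
@[simp] theorem levi_ll (p q : P) : ¬ (levi I).Adj (.inl p) (.inl q) := fun h => h
@[simp] theorem levi_rr (l m : L) : ¬ (levi I).Adj (.inr l) (.inr m) := fun h => h

/-- the type of a vertex: point or line -/
def sty : P ⊕ L → Bool := Sum.isLeft

theorem Conf.cubic (hI : Conf I) : Cubic (levi I) (sty : P ⊕ L → Bool) where
  bip := by
    intro x y h
    cases x <;> cases y <;> simp [sty] at h ⊢
  three := by
    intro x
    cases x with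
    | inl p =>
      obtain ⟨a, b, c, hab, hac, hbc, h⟩ := hI.line3 p
      refine ⟨.inr a, .inr b, .inr c, by simpa using hab, by simpa using hac,
        by simpa using hbc, ?_⟩
      intro y
      cases y with
      | inl q => simp
      | inr l => simp [h]
    | inr l =>
      obtain ⟨a, b, c, hab, hac, hbc, h⟩ := hI.point3 l
      refine ⟨.inl a, .inl b, .inl c, by simpa using hab, by simpa using hac,
        by simpa using hbc, ?_⟩
      intro y
      cases y with
      | inl q => simp [h]
      | inr l => simp
  noC4 := by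
    intro x y a b hxa hya hxb hyb hxy
    cases x with
    | inl p =>
      cases a with
      | inl _ => exact absurd hxa (levi_ll _ _)
      | inr l =>
        cases b with
        | inl _ => exact absurd hxb (levi_ll _ _)
        | inr m =>
          cases y with
          | inr _ => exact absurd hya (levi_rr _ _)
          | inl q =>
            rw [hI.lin p q l m (fun h => hxy (by rw [h])) hxa hya hxb hyb]
    | inr l =>
      cases a with
      | inr _ => exact absurd hxa (levi_rr _ _)
      | inl p =>
        cases b with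
        | inr _ => exact absurd hxb (levi_rr _ _)
        | inl q =>
          cases y with
          | inl _ => exact absurd hya (levi_ll _ _)
          | inr m =>
            by_contra hpq
            exact hxy (by rw [hI.lin p q l m (fun h => hpq (by rw [h])) hxa hxb hya hyb])

variable [Fintype P] [Fintype L]

/-- number of points of `A` on the line `l` -/
noncomputable def mm (I : P → L → Prop) (A : Finset P) (l : L) : ℕ :=
  (A.filter (fun p => I p l)).card

/-- `∑ (|l ∩ A| - 1)` over the lines meeting `A` -/
noncomputable def rr (I : P → L → Prop) (A : Finset P) : ℕ := ∑ l : L, (mm I A l - 1)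

/-- number of lines meeting both sets -/
noncomputable def cut (I : P → L → Prop) (A B : Finset P) : ℕ :=
  (Finset.univ.filter (fun l : L => 1 ≤ mm I A l ∧ 1 ≤ mm I B l)).card

theorem one_le_mm (A : Finset P) (l : L) : 1 ≤ mm I A l ↔ ∃ p ∈ A, I p l := by
  unfold mm
  rw [Nat.one_le_iff_ne_zero, Finset.card_ne_zero]
  constructor
  · rintro ⟨p, hp⟩
    rw [Finset.mem_filter] at hp
    exact ⟨p, hp⟩
  · rintro ⟨p, hp⟩
    exact ⟨p, Finset.mem_filter.mpr hp⟩

theorem two_le_mm (A : Finset P) (l : L) :
    2 ≤ mm I A l ↔ ∃ p ∈ A, ∃ q ∈ A, p ≠ q ∧ I p l ∧ I q l := by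
  unfold mm
  change 1 < _ ↔ _
  rw [Finset.one_lt_card]
  constructor
  · rintro ⟨p, hp, q, hq, hpq⟩
    rw [Finset.mem_filter] at hp hq
    exact ⟨p, hp.1, q, hq.1, hpq, hp.2, hq.2⟩
  · rintro ⟨p, hp, q, hq, hpq, h1, h2⟩
    exact ⟨p, Finset.mem_filter.mpr ⟨hp, h1⟩, q, Finset.mem_filter.mpr ⟨hq, h2⟩, hpq⟩

theorem sum_mm (hI : Conf I) (A : Finset P) : ∑ l : L, mm I A l = 3 * A.card := by
  have h : ∀ p, (Finset.univ.filter (fun l : L => I p l)).card = 3 := by
    intro p
    obtain ⟨a, b, c, hab, hac, hbc, h⟩ := hI.line3 p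
    have : Finset.univ.filter (fun l : L => I p l) = {a, b, c} := by
      ext l
      simp [h]
    rw [this, Finset.card_eq_three]
    exact ⟨a, b, c, hab, hac, hbc, rfl⟩
  unfold mm
  simp only [Finset.card_filter]
  rw [Finset.sum_comm]
  have : ∀ p ∈ A, ∑ l : L, (if I p l then 1 else 0) = 3 := by
    intro p _
    rw [← Finset.card_filter]
    exact h p
  rw [Finset.sum_congr rfl this]
  simp [mul_comm]

theorem mm_union (A B : Finset P) (h : Disjoint A B) (l : L) :
    mm I (A ∪ B) l = mm I A l + mm I B l := by
  unfold mm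
  rw [Finset.filter_union, Finset.card_union_of_disjoint]
  exact Finset.disjoint_filter_filter h

theorem rr_union (A B : Finset P) (h : Disjoint A B) :
    rr I (A ∪ B) = rr I A + rr I B + cut I A B := by
  unfold rr cut
  rw [Finset.card_filter, ← Finset.sum_add_distrib, ← Finset.sum_add_distrib]
  refine Finset.sum_congr rfl ?_
  intro l _
  rw [mm_union A B h]
  split_ifs with h1
  · omega
  · omega

theorem two_rr_le (hI : Conf I) (A : Finset P) : 2 * rr I A ≤ A.card * A.card - A.card := by
  have h1 : ∑ l : L, (A.filter (fun p => I p l)).offDiag.card ≤ A.offDiag.card := by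
    rw [← Finset.card_biUnion]
    · refine Finset.card_le_card ?_
      intro x hx
      rw [Finset.mem_biUnion] at hx
      obtain ⟨l, -, hl⟩ := hx
      rw [Finset.mem_offDiag] at hl ⊢
      rw [Finset.mem_filter, Finset.mem_filter] at hl
      exact ⟨hl.1.1, hl.2.1.1, hl.2.2⟩
    · intro l _ m _ hlm
      change Disjoint _ _
      rw [Finset.disjoint_left]
      intro x hx hx'
      rw [Finset.mem_offDiag, Finset.mem_filter, Finset.mem_filter] at hx hx'
      exact hlm (hI.lin x.1 x.2 l m hx.2.2 hx.1.2 hx.2.1.2 hx'.1.2 hx'.2.1.2)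
  rw [Finset.offDiag_card] at h1
  refine le_trans ?_ h1
  unfold rr
  rw [Finset.mul_sum]
  refine Finset.sum_le_sum ?_
  intro l _
  rw [Finset.offDiag_card]
  change 2 * (mm I A l - 1) ≤ mm I A l * mm I A l - mm I A l
  rcases Nat.eq_zero_or_pos (mm I A l) with h0 | h0
  · simp [h0]
  · obtain ⟨k, hk⟩ : ∃ k, mm I A l = k + 1 := ⟨mm I A l - 1, by omega⟩
    rw [hk]
    have e : (k + 1) * (k + 1) - (k + 1) = (k + 1) * k := by
      rw [Nat.mul_succ, Nat.add_sub_cancel]
    rw [e, Nat.add_sub_cancel]
    rcases Nat.eq_zero_or_pos k with h2 | h2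
    · simp [h2]
    · nlinarith

theorem rr_lower (hI : Conf I) (A : Finset P) (l1 l2 : L) (h12 : l1 ≠ l2)
    (h1 : mm I A l1 = 0) (h2 : mm I A l2 = 0) : 3 * A.card + 2 ≤ rr I A + Fintype.card L := by
  have hs := sum_mm hI A
  have key : ∑ l : L, mm I A l + 2 ≤ ∑ l : L, (mm I A l - 1 + 1) := by
    have e1 : ∑ l : L, (mm I A l + (if l = l1 then 1 else 0) + (if l = l2 then 1 else 0)) =
        ∑ l : L, mm I A l + 2 := by
      rw [Finset.sum_add_distrib, Finset.sum_add_distrib]
      simp [add_assoc]
    rw [← e1]
    refine Finset.sum_le_sum ?_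
    intro l _
    by_cases e : l = l1
    · subst e
      rw [h1]
      simp [h12]
    · by_cases e' : l = l2
      · subst e'
        rw [h2]
        simp [e]
      · simp only [e, e', if_false]
        omega
  rw [Finset.sum_add_distrib] at key
  unfold rr
  simp only [Finset.sum_const, Finset.card_univ, smul_eq_mul, mul_one] at key
  omega

end Pool.Agent.RigidConf
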