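import Mathlib

/-!
# A real cubic through a point

`F (s, x, y) = s² (a x + b y) + s q(x, y) + k(x, y)` is a real ternary cubic form vanishing at
`(1, 0, 0)`.  For every homogeneous `g` with `g (1, 0, 0) ≠ 0` there is another real zero of `F`
at which `g` does not vanish, unless `F` is the product of a linear form and of a definite binary
quadratic form.
-/

namespace Pool.Agent.RigidConf

open MvPolynomial

/-- the cubic form -/
def cubF (a b q0 q1 q2 k0 k1 k2 k3 s x y : ℝ) : ℝ :=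
  s ^ 2 * (a * x + b * y) + s * (q0 * x ^ 2 + q1 * x * y + q2 * y ^ 2) +
    (k0 * x ^ 3 + k1 * x ^ 2 * y + k2 * x * y ^ 2 + k3 * y ^ 3)

/-- A continuous function without zeros on a convex set has constant sign. -/
theorem sign_of_convex {S : Set (ℝ × ℝ)} (hS : Convex ℝ S) {h : ℝ × ℝ → ℝ} (hc : Continuous h)
    (h0 : ∀ p ∈ S, h p ≠ 0) {p q : ℝ × ℝ} (hp : p ∈ S) (hq : q ∈ S) (hpos : 0 < h p) :
    0 < h q := by
  by_contra hneg
  have hq0 : h q < 0 := lt_of_le_of_ne (not_lt.mp hneg) (h0 q hq)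
  have := hS.isPreconnected.intermediate_value hq hp hc.continuousOn
  obtain ⟨r, hr, hr0⟩ := this ⟨hq0.le, hpos.le⟩
  exact h0 r hr hr0

theorem one_var (A B C δ : ℝ) (hδ : 0 < δ)
    (h : ∀ t : ℝ, t ≠ 0 → |t| < δ → 0 < t * A + t ^ 2 * B + t ^ 3 * C) : A = 0 ∧ 0 < B := by
  have key : ∀ A' B' C' : ℝ, (∀ t : ℝ, t ≠ 0 → |t| < δ → 0 < t * A' + t ^ 2 * B' + t ^ 3 * C') →
      ¬ 0 < A' := by
    intro A' B' C' h' hA
    set M := |B'| + |C'| + 1 with hM
    have hM1 : 1 ≤ M := by have := abs_nonneg B'; have := abs_nonneg C'; linarith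
    set r := min (δ / 2) (min 1 (A' / (2 * M))) with hr
    have hr0 : 0 < r := by
      refine lt_min (by linarith) (lt_min one_pos (by positivity))
    have hr1 : r ≤ δ / 2 := min_le_left _ _
    have hr2 : r ≤ 1 := (min_le_right _ _).trans (min_le_left _ _)
    have hr3 : r ≤ A' / (2 * M) := (min_le_right _ _).trans (min_le_right _ _)
    have h1 := h' (-r) (by linarith) (by rw [abs_neg, abs_of_pos hr0]; linarith)
    have h2 : 0 < A' - r * B' + r ^ 2 * C' := by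
      have hb : r * B' ≤ r * |B'| := mul_le_mul_of_nonneg_left (le_abs_self _) hr0.le
      have hc : -(r * |C'|) ≤ r ^ 2 * C' := by
        have h3 : -(r ^ 2 * |C'|) ≤ r ^ 2 * C' := by
          have := neg_abs_le C'
          nlinarith [sq_nonneg r]
        have h4 : r ^ 2 * |C'| ≤ r * |C'| := by
          have := abs_nonneg C'
          have : r ^ 2 ≤ r := by nlinarith
          nlinarith
        linarith
      have hrM : r * M ≤ A' / 2 := by
        have h5 : r * (2 * M) ≤ A' := by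
          rwa [le_div_iff₀ (by positivity)] at hr3
        linarith
      have : r * M = r * |B'| + r * |C'| + r := by rw [hM]; ring
      linarith
    have h6 : (-r) * A' + (-r) ^ 2 * B' + (-r) ^ 3 * C' = -(r * (A' - r * B' + r ^ 2 * C')) := by
      ring
    rw [h6] at h1
    have : 0 < r * (A' - r * B' + r ^ 2 * C') := mul_pos hr0 h2
    linarith
  have hA1 : ¬ 0 < A := key A B C h
  have hA2 : ¬ 0 < -A := by
    refine key (-A) B (-C) ?_
    intro t ht htδ
    have := h (-t) (neg_ne_zero.mpr ht) (by rwa [abs_neg])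
    have e : t * -A + t ^ 2 * B + t ^ 3 * -C = -t * A + (-t) ^ 2 * B + (-t) ^ 3 * C := by ring
    rwa [e]
  have hA : A = 0 := by
    apply le_antisymm (not_lt.mp hA1)
    have := not_lt.mp hA2
    linarith
  refine ⟨hA, ?_⟩
  have h1 := h (δ / 2) (by positivity) (by rw [abs_of_pos (by positivity)]; linarith)
  have h2 := h (-(δ / 2)) (by
    have : 0 < δ / 2 := by positivity
    linarith) (by rw [abs_neg, abs_of_pos (by positivity)]; linarith)
  rw [hA] at h1 h2
  have h3 : 0 < (δ / 2) ^ 2 := by positivity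
  have h4 : 0 < (δ / 2) ^ 2 * B := by nlinarith
  exact (pos_iff_pos_of_mul_pos h4).mp h3

/-- evaluation of a homogeneous polynomial at a multiple of the first coordinate vector -/
theorem eval_line (g : MvPolynomial (Fin 3) ℝ) (N : ℕ) (hg : g.IsHomogeneous N) (c : ℂ) :
    MvPolynomial.aeval (![c, 0, 0] : Fin 3 → ℂ) g =
      c ^ N * ((MvPolynomial.eval ![1, 0, 0] g : ℝ) : ℂ) := by
  rw [MvPolynomial.aeval_def, MvPolynomial.eval₂_eq', MvPolynomial.eval_eq']
  push_cast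
  rw [Finset.mul_sum]
  refine Finset.sum_congr rfl ?_
  intro d hd
  have hdeg : d.degree = N := by
    by_contra hne
    exact (MvPolynomial.mem_support_iff.mp hd) (hg.coeff_eq_zero hne)
  rw [Finsupp.degree_eq_sum, Fin.sum_univ_three] at hdeg
  simp only [Fin.prod_univ_three, Matrix.cons_val_zero, Matrix.cons_val_one, Matrix.cons_val,
    Complex.coe_algebraMap]
  by_cases h1 : d 1 = 0
  · by_cases h2 : d 2 = 0
    · have h0 : d 0 = N := by omega
      rw [h1, h2, h0]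
      simp
      ring
    · simp [h2]
  · simp [h1]

/-- The positive case of the dichotomy. -/
theorem cubic_pos (a b q0 q1 q2 k0 k1 k2 k3 : ℝ) (g : MvPolynomial (Fin 3) ℝ) (N : ℕ)
    (hg : g.IsHomogeneous N) (h1 : MvPolynomial.eval ![1, 0, 0] g ≠ 0) (ε : ℝ) (hε : 0 < ε)
    (hpos : ∀ x y : ℝ, (x ≠ 0 ∨ y ≠ 0) → |x| < ε → |y| < ε →
      0 < cubF a b q0 q1 q2 k0 k1 k2 k3 1 x y) :
    (∃ s x y : ℝ, (x ≠ 0 ∨ y ≠ 0) ∧ cubF a b q0 q1 q2 k0 k1 k2 k3 s x y = 0 ∧
        MvPolynomial.eval ![s, x, y] g ≠ 0) ∨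
      (a = 0 ∧ b = 0 ∧
        (∀ x y : ℝ, (x ≠ 0 ∨ y ≠ 0) → 0 < q0 * x ^ 2 + q1 * x * y + q2 * y ^ 2) ∧
        ∃ α β : ℝ, k0 = q0 * α ∧ k1 = q1 * α + q0 * β ∧ k2 = q2 * α + q1 * β ∧ k3 = q2 * β) := by
  have hdir : ∀ x y : ℝ, (x ≠ 0 ∨ y ≠ 0) →
      a * x + b * y = 0 ∧ 0 < q0 * x ^ 2 + q1 * x * y + q2 * y ^ 2 := by
    intro x y hxy
    have hM : 0 < |x| + |y| + 1 := by have := abs_nonneg x; have := abs_nonneg y; linarith
    refine one_var _ _ (k0 * x ^ 3 + k1 * x ^ 2 * y + k2 * x * y ^ 2 + k3 * y ^ 3)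
      (ε / (|x| + |y| + 1)) (by positivity) ?_
    intro t ht htδ
    have htM : |t| * (|x| + |y| + 1) < ε := by rwa [lt_div_iff₀ hM] at htδ
    have h2 := hpos (t * x) (t * y) ?_ ?_ ?_
    · have e : cubF a b q0 q1 q2 k0 k1 k2 k3 1 (t * x) (t * y) = t * (a * x + b * y) +
          t ^ 2 * (q0 * x ^ 2 + q1 * x * y + q2 * y ^ 2) +
          t ^ 3 * (k0 * x ^ 3 + k1 * x ^ 2 * y + k2 * x * y ^ 2 + k3 * y ^ 3) := by
        unfold cubF; ring
      rwa [e] at h2
    · rcases hxy with hx | hy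
      · exact Or.inl (mul_ne_zero ht hx)
      · exact Or.inr (mul_ne_zero ht hy)
    · rw [abs_mul]
      have := abs_nonneg t; have := abs_nonneg y; have := abs_nonneg x
      nlinarith
    · rw [abs_mul]
      have := abs_nonneg t; have := abs_nonneg y; have := abs_nonneg x
      nlinarith
  have ha : a = 0 := by simpa using (hdir 1 0 (Or.inl one_ne_zero)).1
  have hb : b = 0 := by simpa using (hdir 0 1 (Or.inr one_ne_zero)).1
  have hq : ∀ x y : ℝ, (x ≠ 0 ∨ y ≠ 0) → 0 < q0 * x ^ 2 + q1 * x * y + q2 * y ^ 2 :=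
    fun x y h => (hdir x y h).2
  have hq2 : 0 < q2 := by simpa using hq 0 1 (Or.inr one_ne_zero)
  have hD : 0 < 4 * q0 * q2 - q1 ^ 2 := by
    have h := hq (2 * q2) (-q1) (Or.inl (by positivity))
    have e : q0 * (2 * q2) ^ 2 + q1 * (2 * q2) * -q1 + q2 * (-q1) ^ 2 =
      q2 * (4 * q0 * q2 - q1 ^ 2) := by ring
    rw [e] at h
    exact (pos_iff_pos_of_mul_pos h).mp hq2
  by_cases hex : ∃ τ : ℝ, MvPolynomial.eval ![k0 + k1 * τ + k2 * τ ^ 2 + k3 * τ ^ 3,
      -(q0 + q1 * τ + q2 * τ ^ 2), -(τ * (q0 + q1 * τ + q2 * τ ^ 2))] g ≠ 0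
  · obtain ⟨τ, hτ⟩ := hex
    left
    have hqτ : 0 < q0 + q1 * τ + q2 * τ ^ 2 := by
      have := hq 1 τ (Or.inl one_ne_zero)
      simpa using this
    refine ⟨_, _, _, Or.inl (neg_ne_zero.mpr hqτ.ne'), ?_, hτ⟩
    rw [ha, hb]
    unfold cubF
    ring
  · right
    push Not at hex
    refine ⟨ha, hb, hq, ?_⟩
    -- the polynomial in `τ`
    set KP : Polynomial ℝ := Polynomial.C k0 + Polynomial.C k1 * Polynomial.X +
      Polynomial.C k2 * Polynomial.X ^ 2 + Polynomial.C k3 * Polynomial.X ^ 3 with hKP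
    set QP : Polynomial ℝ := Polynomial.C q0 + Polynomial.C q1 * Polynomial.X +
      Polynomial.C q2 * Polynomial.X ^ 2 with hQP
    set W : Fin 3 → Polynomial ℝ := ![KP, -QP, -(Polynomial.X * QP)] with hW
    have hP : MvPolynomial.aeval W g = 0 := by
      apply Polynomial.funext
      intro τ
      have h2 := hex τ
      rw [Polynomial.eval_zero]
      have h3 : Polynomial.eval τ (MvPolynomial.aeval W g) =
          MvPolynomial.eval (fun i => Polynomial.eval τ (W i)) g := by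
        rw [← Polynomial.coe_evalRingHom, MvPolynomial.aeval_def, MvPolynomial.hom_eval₂,
          ← MvPolynomial.eval₂_id]
        congr 1
        ext r
        simp
      rw [h3, ← h2]
      congr 2
      funext i
      fin_cases i <;> simp [hW, hKP, hQP]
    -- the complex root of the quadratic
    set D := 4 * q0 * q2 - q1 ^ 2 with hDdef
    set im : ℝ := Real.sqrt D / (2 * q2) with him
    set re : ℝ := -q1 / (2 * q2) with hre
    have him0 : im ≠ 0 := by
      rw [him]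
      have : 0 < Real.sqrt D := Real.sqrt_pos.mpr hD
      positivity
    set z : ℂ := ⟨re, im⟩ with hz
    have him2 : im ^ 2 = D / (4 * q2 ^ 2) := by
      rw [him, div_pow, Real.sq_sqrt hD.le]
      ring
    have hzq : (q0 : ℂ) + q1 * z + q2 * z ^ 2 = 0 := by
      apply Complex.ext
      · simp only [hz, Complex.add_re, Complex.mul_re, Complex.ofReal_re, Complex.ofReal_im,
          pow_two, Complex.mul_im, Complex.zero_re]
        have : im * im = D / (4 * q2 ^ 2) := by rw [← him2]; ring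
        rw [this, hre, hDdef]
        field_simp
        ring
      · simp only [hz, Complex.add_im, Complex.mul_im, Complex.ofReal_re, Complex.ofReal_im,
          pow_two, Complex.mul_re, Complex.zero_im]
        rw [hre]
        field_simp
        ring
    have hkz : (k0 : ℂ) + k1 * z + k2 * z ^ 2 + k3 * z ^ 3 = 0 := by
      have h3 : Polynomial.aeval z (MvPolynomial.aeval W g) =
          MvPolynomial.aeval (fun i => Polynomial.aeval z (W i)) g := by
        exact MvPolynomial.comp_aeval_apply W (Polynomial.aeval z) g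
      rw [hP, map_zero] at h3
      have h4 : (fun i => Polynomial.aeval z (W i)) =
          (![(k0 : ℂ) + k1 * z + k2 * z ^ 2 + k3 * z ^ 3, 0, 0] : Fin 3 → ℂ) := by
        funext i
        fin_cases i
        · simp [hW, hKP]
        · simp [hW, hQP]
          linear_combination -hzq
        · simp [hW, hQP]
          right
          linear_combination hzq
      rw [h4, eval_line g N hg] at h3
      have h5 := h3.symm
      rcases mul_eq_zero.mp h5 with h6 | h6
      · exact pow_eq_zero_iff (n := N) (by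
          rintro rfl
          simp at h6) |>.mp h6
      · exact absurd (by exact_mod_cast h6) h1
    -- division with remainder
    set β := k3 / q2 with hβ
    set α := (k2 - q1 * β) / q2 with hα
    have e3 : k3 = q2 * β := by rw [hβ]; field_simp
    have e2 : k2 = q2 * α + q1 * β := by rw [hα]; field_simp; ring
    have hrem : ((k0 - q0 * α : ℝ) : ℂ) + ((k1 - q1 * α - q0 * β : ℝ) : ℂ) * z = 0 := by
      have e3' : (k3 : ℂ) = q2 * β := by exact_mod_cast e3
      have e2' : (k2 : ℂ) = q2 * α + q1 * β := by exact_mod_cast e2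
      push_cast
      linear_combination hkz - (α + β * z) * hzq - z ^ 3 * e3' - z ^ 2 * e2'
    have hi := congrArg Complex.im hrem
    have hr := congrArg Complex.re hrem
    simp only [hz, Complex.add_im, Complex.mul_im, Complex.ofReal_re, Complex.ofReal_im,
      Complex.zero_im, zero_mul, add_zero, zero_add] at hi
    simp only [hz, Complex.add_re, Complex.mul_re, Complex.ofReal_re, Complex.ofReal_im,
      Complex.zero_re, zero_mul, sub_zero] at hr
    have h6 : k1 - q1 * α - q0 * β = 0 := by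
      rcases mul_eq_zero.mp hi with h | h
      · exact h
      · exact absurd h him0
    rw [h6] at hr
    refine ⟨α, β, by linarith, by linarith, e2, e3⟩

/-- all points of a punctured square have the same sign -/
theorem sign_box {h : ℝ × ℝ → ℝ} (hc : Continuous h) {ε : ℝ} (hε : 0 < ε)
    (h0 : ∀ x y : ℝ, (x ≠ 0 ∨ y ≠ 0) → |x| < ε → |y| < ε → h (x, y) ≠ 0)
    (hpos : 0 < h (ε / 2, ε / 2)) (x y : ℝ) (hxy : x ≠ 0 ∨ y ≠ 0) (hx : |x| < ε)
    (hy : |y| < ε) : 0 < h (x, y) := by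
  have hbox : Convex ℝ {p : ℝ × ℝ | |p.1| < ε ∧ |p.2| < ε} := by
    have : {p : ℝ × ℝ | |p.1| < ε ∧ |p.2| < ε} = (Set.Ioo (-ε) ε) ×ˢ (Set.Ioo (-ε) ε) := by
      ext p
      simp [abs_lt]
    rw [this]
    exact (convex_Ioo _ _).prod (convex_Ioo _ _)
  have c1 : Convex ℝ {p : ℝ × ℝ | (|p.1| < ε ∧ |p.2| < ε) ∧ 0 < p.1} := by
    have h2 : Convex ℝ {p : ℝ × ℝ | 0 < p.1} := by
      have : {p : ℝ × ℝ | 0 < p.1} = (Set.Ioi 0) ×ˢ Set.univ := by ext p; simp
      rw [this]; exact (convex_Ioi _).prod convex_univ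
    exact hbox.inter h2
  have c2 : Convex ℝ {p : ℝ × ℝ | (|p.1| < ε ∧ |p.2| < ε) ∧ p.1 < 0} := by
    have h2 : Convex ℝ {p : ℝ × ℝ | p.1 < 0} := by
      have : {p : ℝ × ℝ | p.1 < 0} = (Set.Iio 0) ×ˢ Set.univ := by ext p; simp
      rw [this]; exact (convex_Iio _).prod convex_univ
    exact hbox.inter h2
  have c3 : Convex ℝ {p : ℝ × ℝ | (|p.1| < ε ∧ |p.2| < ε) ∧ 0 < p.2} := by
    have h2 : Convex ℝ {p : ℝ × ℝ | 0 < p.2} := by
      have : {p : ℝ × ℝ | 0 < p.2} = Set.univ ×ˢ (Set.Ioi 0) := by ext p; simp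
      rw [this]; exact convex_univ.prod (convex_Ioi _)
    exact hbox.inter h2
  have c4 : Convex ℝ {p : ℝ × ℝ | (|p.1| < ε ∧ |p.2| < ε) ∧ p.2 < 0} := by
    have h2 : Convex ℝ {p : ℝ × ℝ | p.2 < 0} := by
      have : {p : ℝ × ℝ | p.2 < 0} = Set.univ ×ˢ (Set.Iio 0) := by ext p; simp
      rw [this]; exact convex_univ.prod (convex_Iio _)
    exact hbox.inter h2
  have n1 : ∀ p ∈ {p : ℝ × ℝ | (|p.1| < ε ∧ |p.2| < ε) ∧ 0 < p.1}, h p ≠ 0 :=
    fun p hp => h0 p.1 p.2 (Or.inl hp.2.ne') hp.1.1 hp.1.2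
  have n2 : ∀ p ∈ {p : ℝ × ℝ | (|p.1| < ε ∧ |p.2| < ε) ∧ p.1 < 0}, h p ≠ 0 :=
    fun p hp => h0 p.1 p.2 (Or.inl hp.2.ne) hp.1.1 hp.1.2
  have n3 : ∀ p ∈ {p : ℝ × ℝ | (|p.1| < ε ∧ |p.2| < ε) ∧ 0 < p.2}, h p ≠ 0 :=
    fun p hp => h0 p.1 p.2 (Or.inr hp.2.ne') hp.1.1 hp.1.2
  have n4 : ∀ p ∈ {p : ℝ × ℝ | (|p.1| < ε ∧ |p.2| < ε) ∧ p.2 < 0}, h p ≠ 0 :=
    fun p hp => h0 p.1 p.2 (Or.inr hp.2.ne) hp.1.1 hp.1.2
  have e1 : |ε / 2| < ε := by rw [abs_of_pos (by linarith)]; linarith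
  have e2 : |-(ε / 2)| < ε := by rw [abs_neg]; exact e1
  have e3 : 0 < ε / 2 := by linarith
  have e4 : -(ε / 2) < 0 := by linarith
  -- the four corners
  have p2 : 0 < h (-(ε / 2), ε / 2) :=
    sign_of_convex c3 hc n3 (p := (ε / 2, ε / 2)) ⟨⟨e1, e1⟩, e3⟩ ⟨⟨e2, e1⟩, e3⟩ hpos
  have p4 : 0 < h (ε / 2, -(ε / 2)) :=
    sign_of_convex c1 hc n1 (p := (ε / 2, ε / 2)) ⟨⟨e1, e1⟩, e3⟩ ⟨⟨e1, e2⟩, e3⟩ hpos
  rcases hxy with hx0 | hy0
  · rcases lt_or_gt_of_ne hx0 with hx1 | hx1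
    · exact sign_of_convex c2 hc n2 (p := (-(ε / 2), ε / 2)) ⟨⟨e2, e1⟩, e4⟩ ⟨⟨hx, hy⟩, hx1⟩ p2
    · exact sign_of_convex c1 hc n1 (p := (ε / 2, ε / 2)) ⟨⟨e1, e1⟩, e3⟩ ⟨⟨hx, hy⟩, hx1⟩ hpos
  · rcases lt_or_gt_of_ne hy0 with hy1 | hy1
    · exact sign_of_convex c4 hc n4 (p := (ε / 2, -(ε / 2))) ⟨⟨e1, e2⟩, e4⟩ ⟨⟨hx, hy⟩, hy1⟩ p4
    · exact sign_of_convex c3 hc n3 (p := (ε / 2, ε / 2)) ⟨⟨e1, e1⟩, e3⟩ ⟨⟨hx, hy⟩, hy1⟩ hpos

/-- **Dichotomy.**  A real ternary cubic form `F` with `F (1, 0, 0) = 0` has another real zero at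
which the given homogeneous polynomial `g` (nonzero at `(1, 0, 0)`) does not vanish, unless `F` is
the product of a linear form and a definite binary quadratic form. -/
theorem cubic_dichotomy (a b q0 q1 q2 k0 k1 k2 k3 : ℝ) (g : MvPolynomial (Fin 3) ℝ) (N : ℕ)
    (hg : g.IsHomogeneous N) (h1 : MvPolynomial.eval ![1, 0, 0] g ≠ 0) :
    (∃ s x y : ℝ, (x ≠ 0 ∨ y ≠ 0) ∧ cubF a b q0 q1 q2 k0 k1 k2 k3 s x y = 0 ∧
        MvPolynomial.eval ![s, x, y] g ≠ 0) ∨
      (a = 0 ∧ b = 0 ∧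
        (∀ x y : ℝ, (x ≠ 0 ∨ y ≠ 0) → q0 * x ^ 2 + q1 * x * y + q2 * y ^ 2 ≠ 0) ∧
        ∃ α β : ℝ, k0 = q0 * α ∧ k1 = q1 * α + q0 * β ∧ k2 = q2 * α + q1 * β ∧ k3 = q2 * β) := by
  -- a box on which `g` does not vanish
  have hgc : Continuous fun p : ℝ × ℝ => MvPolynomial.eval ![1, p.1, p.2] g := by
    refine (MvPolynomial.continuous_eval g).comp ?_
    refine continuous_pi ?_
    intro i
    fin_cases i
    · exact continuous_const
    · exact continuous_fst
    · exact continuous_snd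
  obtain ⟨ε, hε, hball⟩ := Metric.isOpen_iff.mp (isOpen_ne_fun hgc continuous_const)
    ((0, 0) : ℝ × ℝ) (by simpa using h1)
  have hgbox : ∀ x y : ℝ, |x| < ε → |y| < ε → MvPolynomial.eval ![1, x, y] g ≠ 0 := by
    intro x y hx hy
    have : (x, y) ∈ Metric.ball ((0, 0) : ℝ × ℝ) ε := by
      rw [Metric.mem_ball, Prod.dist_eq]
      simp [hx, hy]
    have h := hball this
    rw [Set.mem_ofPred_eq] at h
    exact h
  by_cases hz : ∃ x y : ℝ, (x ≠ 0 ∨ y ≠ 0) ∧ |x| < ε ∧ |y| < ε ∧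
      cubF a b q0 q1 q2 k0 k1 k2 k3 1 x y = 0
  · obtain ⟨x, y, hxy, hx, hy, h⟩ := hz
    exact Or.inl ⟨1, x, y, hxy, h, hgbox x y hx hy⟩
  push Not at hz
  have hc : Continuous fun p : ℝ × ℝ => cubF a b q0 q1 q2 k0 k1 k2 k3 1 p.1 p.2 := by
    unfold cubF
    fun_prop
  have hne := hz (ε / 2) (ε / 2) (Or.inl (by positivity))
    (by rw [abs_of_pos (by linarith)]; linarith) (by rw [abs_of_pos (by linarith)]; linarith)
  rcases lt_or_gt_of_ne hne with hneg | hpos
  · -- apply the positive case to `-F`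
    have hF : ∀ s x y, cubF (-a) (-b) (-q0) (-q1) (-q2) (-k0) (-k1) (-k2) (-k3) s x y =
        -cubF a b q0 q1 q2 k0 k1 k2 k3 s x y := by
      intro s x y; unfold cubF; ring
    have := cubic_pos (-a) (-b) (-q0) (-q1) (-q2) (-k0) (-k1) (-k2) (-k3) g N hg h1 ε hε ?_
    · rcases this with ⟨s, x, y, hxy, h, h'⟩ | ⟨ha, hb, hq, α, β, e0, e1, e2, e3⟩
      · refine Or.inl ⟨s, x, y, hxy, ?_, h'⟩
        rw [hF] at h
        linarith
      · refine Or.inr ⟨by linarith, by linarith, ?_, α, β, by linarith, by linarith, by linarith,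
          by linarith⟩
        intro x y hxy h
        have := hq x y hxy
        linarith
    · intro x y hxy hx hy
      rw [hF]
      refine sign_box (h := fun p => -cubF a b q0 q1 q2 k0 k1 k2 k3 1 p.1 p.2) hc.neg hε ?_ ?_
        x y hxy hx hy
      · intro x y hxy hx hy
        exact neg_ne_zero.mpr (hz x y hxy hx hy)
      · exact neg_pos.mpr hneg
  · have := cubic_pos a b q0 q1 q2 k0 k1 k2 k3 g N hg h1 ε hε ?_
    · rcases this with h | ⟨ha, hb, hq, α, β, e⟩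
      · exact Or.inl h
      · exact Or.inr ⟨ha, hb, fun x y hxy => (hq x y hxy).ne', α, β, e⟩
    · intro x y hxy hx hy
      have hz' : ∀ x y : ℝ, (x ≠ 0 ∨ y ≠ 0) → |x| < ε → |y| < ε →
          (fun p : ℝ × ℝ => cubF a b q0 q1 q2 k0 k1 k2 k3 1 p.1 p.2) (x, y) ≠ 0 := by
        intro x y hxy hx hy
        exact hz x y hxy hx hy
      have hp' : 0 < (fun p : ℝ × ℝ => cubF a b q0 q1 q2 k0 k1 k2 k3 1 p.1 p.2)
          (ε / 2, ε / 2) := hpos
      exact sign_box (h := fun p => cubF a b q0 q1 q2 k0 k1 k2 k3 1 p.1 p.2) hc hε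
        hz' hp' x y hxy hx hy

end Pool.Agent.RigidConf
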