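import Pool.Agent.RigidConf.Move

/-!
# Shortest cycles and ears
-/

namespace Pool.Agent.RigidConf

variable {V : Type*}

/-- a cycle of length `g` inside `U`, given as a periodic function -/
structure Cyc (G : SimpleGraph V) (U : Set V) (g : ℕ) (z : ℕ → V) : Prop where
  g3 : 3 ≤ g
  mem : ∀ i, z i ∈ U
  per : ∀ i, z (i + g) = z i
  inj : ∀ i j, i < g → j < g → z i = z j → i = j
  adj : ∀ i, G.Adj (z i) (z (i + 1))

variable {G : SimpleGraph V} {U : Set V}

theorem succ_mod_cases (i g : ℕ) (hg : 0 < g) :
    (i % g + 1 < g ∧ (i + 1) % g = i % g + 1) ∨ (i % g + 1 = g ∧ (i + 1) % g = 0) := by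
  have h1 : i % g < g := Nat.mod_lt _ hg
  rcases Nat.lt_or_ge (i % g + 1) g with h | h
  · left
    refine ⟨h, ?_⟩
    rw [Nat.add_mod, Nat.mod_eq_of_lt (show 1 < g by omega), Nat.mod_eq_of_lt h]
  · right
    have h2 : i % g + 1 = g := by omega
    refine ⟨h2, ?_⟩
    rw [← Nat.mod_add_mod, h2, Nat.mod_self]

theorem mk_cyc (g : ℕ) (x : ℕ → V) (g3 : 3 ≤ g) (hmem : ∀ i < g, x i ∈ U)
    (hinj : ∀ i j, i < g → j < g → x i = x j → i = j)
    (hadj : ∀ i, i + 1 < g → G.Adj (x i) (x (i + 1))) (hcl : G.Adj (x (g - 1)) (x 0)) :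
    Cyc G U g (fun i => x (i % g)) where
  g3 := g3
  mem i := hmem _ (Nat.mod_lt _ (by omega))
  per i := by simp
  inj i j hi hj h := by
    simp only [Nat.mod_eq_of_lt hi, Nat.mod_eq_of_lt hj] at h
    exact hinj i j hi hj h
  adj i := by
    rcases succ_mod_cases i g (by omega) with ⟨h1, h2⟩ | ⟨h1, h2⟩
    · simp only [h2]
      exact hadj _ h1
    · simp only [h2]
      have : i % g = g - 1 := by omega
      rw [this]
      exact hcl

theorem exists_cyc [Finite V] (hne : U.Nonempty)
    (hdeg : ∀ x ∈ U, ∀ a, ∃ b ∈ U, G.Adj x b ∧ b ≠ a) : ∃ g z, Cyc G U g z := by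
  classical
  obtain ⟨x0, hx0⟩ := hne
  choose! nx hnx1 hnx2 hnx3 using hdeg
  -- the non-backtracking walk
  set s : ℕ → V × V := fun n => Nat.rec (x0, x0) (fun _ p => (p.2, nx p.2 p.1)) n with hs
  have hs1 : ∀ n, (s (n + 1)).1 = (s n).2 := fun n => rfl
  have hs2 : ∀ n, (s (n + 1)).2 = nx (s n).2 (s n).1 := fun n => rfl
  have hU : ∀ n, (s n).2 ∈ U := by
    intro n
    induction n with
    | zero => exact hx0
    | succ n ih => rw [hs2]; exact hnx1 _ ih _
  set x : ℕ → V := fun n => (s n).2 with hx
  have hxU : ∀ n, x n ∈ U := hU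
  have hxadj : ∀ n, G.Adj (x n) (x (n + 1)) := by
    intro n
    change G.Adj (s n).2 (s (n + 1)).2
    rw [hs2]
    exact hnx2 _ (hU n) _
  have hxnb : ∀ n, x (n + 2) ≠ x n := by
    intro n
    have e : x (n + 2) = nx (x (n + 1)) (x n) := rfl
    rw [e]
    exact hnx3 _ (hxU (n + 1)) _
  have hex : ∃ d, 0 < d ∧ ∃ i, x i = x (i + d) := by
    obtain ⟨i, j, hij, h⟩ := Finite.exists_ne_map_eq_of_infinite x
    rcases lt_or_gt_of_ne hij with h' | h'
    · exact ⟨j - i, by omega, i, by rw [h]; congr 1; omega⟩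
    · exact ⟨i - j, by omega, j, by rw [← h]; congr 1; omega⟩
  obtain ⟨hd0, i, hi⟩ := Nat.find_spec hex
  set d := Nat.find hex with hd
  have hmin : ∀ d' < d, ¬ (0 < d' ∧ ∃ i, x i = x (i + d')) := fun d' h => Nat.find_min hex h
  have hd3 : 3 ≤ d := by
    by_contra hlt
    have : d = 1 ∨ d = 2 := by omega
    rcases this with h | h
    · rw [h] at hi
      have := hxadj i
      rw [← hi] at this
      exact G.irrefl this
    · rw [h] at hi
      exact hxnb i hi.symm
  refine ⟨d, _, mk_cyc (G := G) (U := U) d (fun k => x (i + k)) hd3 (fun k _ => hxU _) ?_ ?_ ?_⟩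
  · intro a b ha hb hab
    try simp only at hab
    by_contra hne
    rcases lt_or_gt_of_ne hne with h | h
    · exact hmin (b - a) (by omega) ⟨by omega, i + a, by rw [hab]; congr 1; omega⟩
    · exact hmin (a - b) (by omega) ⟨by omega, i + b, by rw [← hab]; congr 1; omega⟩
  · intro k _
    try simp only
    have := hxadj (i + k)
    rwa [add_assoc] at this
  · simp only [add_zero]
    have := hxadj (i + (d - 1))
    rw [show i + (d - 1) + 1 = i + d by omega, ← hi] at this
    exact this

namespace Cyc

variable {g : ℕ} {z : ℕ → V}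

theorem per_mul (h : Cyc G U g z) (i k : ℕ) : z (i + k * g) = z i := by
  induction k with
  | zero => simp
  | succ k ih => rw [Nat.succ_mul, ← add_assoc, h.per, ih]

theorem mod (h : Cyc G U g z) (i : ℕ) : z (i % g) = z i := by
  conv_rhs => rw [← Nat.mod_add_div i g, mul_comm, h.per_mul]

theorem eq_iff (h : Cyc G U g z) (i j : ℕ) : z i = z j ↔ i % g = j % g := by
  have hg : 0 < g := by have := h.g3; omega
  constructor
  · intro hij
    rw [← h.mod i, ← h.mod j] at hij
    exact h.inj _ _ (Nat.mod_lt _ hg) (Nat.mod_lt _ hg) hij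
  · intro hij
    rw [← h.mod i, ← h.mod j, hij]

theorem shift (h : Cyc G U g z) (i j : ℕ) : ∃ m < g, z j = z (i + m) := by
  have hg : 0 < g := by have := h.g3; omega
  refine ⟨(j % g + (g - i % g)) % g, Nat.mod_lt _ hg, ?_⟩
  have hi := Nat.mod_lt i hg
  rw [h.eq_iff]
  rw [Nat.add_mod_mod, ← Nat.mod_add_mod]
  have : i % g + (j % g + (g - i % g)) = j % g + g := by omega
  rw [this, Nat.add_mod_right, Nat.mod_mod]

theorem rot (h : Cyc G U g z) (s : ℕ) : Cyc G U g (fun i => z (i + s)) where
  g3 := h.g3
  mem i := h.mem _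
  per i := by
    try simp only
    rw [show i + g + s = i + s + g by omega, h.per]
  inj i j hi hj hij := by
    try simp only at hij
    rw [h.eq_iff] at hij
    have : i ≡ j [MOD g] := Nat.ModEq.add_right_cancel' s hij
    rwa [Nat.ModEq, Nat.mod_eq_of_lt hi, Nat.mod_eq_of_lt hj] at this
  adj i := by
    try simp only
    have := h.adj (i + s)
    rwa [show i + s + 1 = i + 1 + s by omega] at this

/-- a shortest cycle has no chord -/
theorem chordless (h : Cyc G U g z) (hmin : ∀ g' z', Cyc G U g' z' → g ≤ g') (i j : ℕ)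
    (hadj : G.Adj (z i) (z j)) : z j = z (i + 1) ∨ z i = z (j + 1) := by
  obtain ⟨m, hm, hj⟩ := h.shift i j
  rw [hj] at hadj ⊢
  by_cases h0 : m = 0
  · exfalso; rw [h0] at hadj; exact G.irrefl hadj
  by_cases h1 : m = 1
  · left; rw [h1]
  by_cases h2 : m + 1 = g
  · right
    have : z (j + 1) = z (i + m + 1) := by
      rw [h.eq_iff]
      rw [h.eq_iff] at hj
      exact Nat.ModEq.add_right 1 hj
    rw [this, add_assoc, h2, h.per]
  · exfalso
    have hc : Cyc G U (m + 1) (fun k => z (i + k % (m + 1))) := by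
      refine mk_cyc (G := G) (U := U) (m + 1) (fun k => z (i + k)) (by omega)
        (fun k _ => h.mem _) ?_ ?_ ?_
      · intro a b ha hb hab
        try simp only at hab
        rw [h.eq_iff] at hab
        have : a ≡ b [MOD g] := Nat.ModEq.add_left_cancel' i hab
        rwa [Nat.ModEq, Nat.mod_eq_of_lt (by omega), Nat.mod_eq_of_lt (by omega)] at this
      · intro k _
        try simp only
        have := h.adj (i + k)
        rwa [add_assoc] at this
      · simpa using hadj.symm
    have := hmin _ _ hc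
    omega

/-- a vertex of `U` outside a shortest cycle has at most one neighbour on it -/
theorem out_unique (h : Cyc G U g z) (hmin : ∀ g' z', Cyc G U g' z' → g ≤ g') (hg : 5 ≤ g)
    (t : V) (ht : t ∈ U) (htz : ∀ i, t ≠ z i) (i j : ℕ) (hi : G.Adj t (z i))
    (hj : G.Adj t (z j)) : z i = z j := by
  by_contra hne
  have key : ∀ i m, 0 < m → m < g → G.Adj t (z i) → G.Adj t (z (i + m)) → g ≤ m + 2 := by
    intro i m hm0 hm hi hj
    have hc : Cyc G U (m + 2) (fun k => (fun k => if k ≤ m then z (i + k) else t)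
        (k % (m + 2))) := by
      refine mk_cyc (G := G) (U := U) (m + 2) (fun k => if k ≤ m then z (i + k) else t)
        (by omega) ?_ ?_ ?_ ?_
      · intro k _
        try simp only
        split_ifs
        · exact h.mem _
        · exact ht
      · intro a b ha hb hab
        try simp only at hab
        split_ifs at hab with h1 h2 h2
        · rw [h.eq_iff] at hab
          have : a ≡ b [MOD g] := Nat.ModEq.add_left_cancel' i hab
          rwa [Nat.ModEq, Nat.mod_eq_of_lt (by omega), Nat.mod_eq_of_lt (by omega)] at this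
        · exact absurd hab.symm (htz _)
        · exact absurd hab (htz _)
        · omega
      · intro k hk
        try simp only
        rw [if_pos (by omega)]
        split_ifs with h1
        · have := h.adj (i + k)
          rwa [add_assoc] at this
        · have : k = m := by omega
          rw [this]
          exact hj.symm
      · try simp only
        rw [if_neg (by omega), if_pos (by omega), add_zero]
        exact hi
    exact hmin _ _ hc
  obtain ⟨m, hm, hjm⟩ := h.shift i j
  have hm0 : 0 < m := by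
    rcases Nat.eq_zero_or_pos m with h0 | h0
    · exfalso; rw [h0, add_zero] at hjm; exact hne hjm.symm
    · exact h0
  rw [hjm] at hj
  have k1 := key i m hm0 hm hi hj
  have k2 := key (i + m) (g - m) (by omega) (by omega) hj (by
    rw [show i + m + (g - m) = i + g by omega, h.per]
    exact hi)
  omega

/-- in a bipartite graph without four-cycles every cycle has length at least six -/
theorem six_le {ty : V → Bool} (h : Cyc G U g z) (hG : Cubic G ty) : 6 ≤ g := by
  have h3 := h.g3
  have a0 := hG.bip _ _ (h.adj 0)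
  have a1 := hG.bip _ _ (h.adj 1)
  have a2 := hG.bip _ _ (h.adj 2)
  have a3 := hG.bip _ _ (h.adj 3)
  have a4 := hG.bip _ _ (h.adj 4)
  simp only [zero_add, Nat.reduceAdd] at a0 a1 a2 a3 a4
  by_contra hlt
  have : g = 3 ∨ g = 4 ∨ g = 5 := by omega
  rcases this with hg | hg | hg
  · have hp := h.per 0
    rw [zero_add, hg] at hp
    rw [hp] at a2
    cases h0 : ty (z 0) <;> cases h1 : ty (z 1) <;> cases h2 : ty (z 2) <;> simp_all
  · have hp := h.per 0
    rw [zero_add, hg] at hp
    have b3 := h.adj 3
    rw [show 3 + 1 = 4 from rfl, hp] at b3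
    have hne : z 0 ≠ z 2 := fun e => by
      have := h.inj 0 2 (by omega) (by omega) e
      omega
    have := hG.noC4 (z 0) (z 2) (z 1) (z 3) (h.adj 0) (h.adj 1).symm b3.symm (h.adj 2) hne
    have := h.inj 1 3 (by omega) (by omega) this
    omega
  · have hp := h.per 0
    rw [zero_add, hg] at hp
    rw [hp] at a4
    cases h0 : ty (z 0) <;> cases h1 : ty (z 1) <;> cases h2 : ty (z 2) <;>
      cases h3 : ty (z 3) <;> cases h4 : ty (z 4) <;> simp_all

end Cyc

end Pool.Agent.RigidConf
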