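import Pool.Agent.RigidConf.Cycle

/-!
# An ear of a shortest cycle gives an induced theta
-/

namespace Pool.Agent.RigidConf

variable {V : Type*} {G : SimpleGraph V} {U : Set V}

/-- Theta from a cycle and an induced ear joining `z 0` and `z p`. -/
theorem theta_of_ear {g : ℕ} {z : ℕ → V} (h : Cyc G U g z)
    (hmin : ∀ g' z', Cyc G U g' z' → g ≤ g') (p : ℕ) (hp : 2 ≤ p) (hpg : p + 2 ≤ g) (m : ℕ)
    (R : ℕ → V) (hR0 : G.Adj (z 0) (R 0)) (hRm : G.Adj (R m) (z p))
    (hRadj : ∀ j < m, G.Adj (R j) (R (j + 1)))
    (hRinj : ∀ a b, a ≤ m → b ≤ m → R a = R b → a = b)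
    (hRind : ∀ a b, a ≤ m → b ≤ m → G.Adj (R a) (R b) → b = a + 1 ∨ a = b + 1)
    (hRZ : ∀ j ≤ m, ∀ i, R j ≠ z i)
    (hRZadj : ∀ j ≤ m, ∀ i, G.Adj (R j) (z i) → (j = 0 ∧ z i = z 0) ∨ (j = m ∧ z i = z p)) :
    ∃ θ : Theta G, ∀ y ∈ θ.S, (∃ i, y = z i) ∨ (∃ j ≤ m, y = R j) := by
  classical
  -- the third path
  set E : ℕ → V := fun j => if j = 0 then z 0 else if j ≤ m + 1 then R (j - 1) else z p with hE
  have E0 : E 0 = z 0 := by rw [hE]; simp
  have E1 : ∀ j, 1 ≤ j → j ≤ m + 1 → E j = R (j - 1) := by
    intro j h1 h2
    rw [hE]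
    simp only
    rw [if_neg (by omega), if_pos h2]
  have E2 : E (m + 2) = z p := by
    rw [hE]
    simp only
    rw [if_neg (by omega), if_neg (by omega)]
  have hzinj : ∀ i j, i < g → j < g → z i = z j → i = j := h.inj
  have zg : z g = z 0 := by have := h.per 0; rwa [zero_add] at this
  -- chords
  have hch : ∀ i j, 1 ≤ i → G.Adj (z i) (z j) → z j = z (i - 1) ∨ z j = z (i + 1) := by
    intro i j hi hadj
    rcases h.chordless hmin i j hadj with h' | h'
    · exact Or.inr h'
    · left
      rw [h.eq_iff] at h' ⊢
      have : (i - 1) + 1 ≡ j + 1 [MOD g] := by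
        rw [Nat.sub_add_cancel hi]; exact h'
      exact (Nat.ModEq.add_right_cancel' 1 this).symm
  set x : Fin 3 → ℕ → V := ![z, fun j => z (g - j), E] with hx
  set k : Fin 3 → ℕ := ![p - 1, g - p - 1, m + 1] with hk
  have x_0 : x 0 = z := rfl
  have x_1 : ∀ j, x 1 j = z (g - j) := fun j => rfl
  have x_2 : x 2 = E := rfl
  have k_0 : k 0 = p - 1 := rfl
  have k_1 : k 1 = g - p - 1 := rfl
  have k_2 : k 2 = m + 1 := rfl
  refine ⟨⟨k, ?_, x, z 0, z p, ?_, ?_, ?_, ?_, ?_, ?_, ?_, ?_⟩, ?_⟩
  · -- kpos
    intro i
    fin_cases i
    · change 1 ≤ p - 1; omega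
    · change 1 ≤ g - p - 1; omega
    · change 1 ≤ m + 1; omega
  · -- x0
    intro i
    fin_cases i
    · rfl
    · change z (g - 0) = z 0
      rw [Nat.sub_zero, zg]
    · exact E0
  · -- xl
    intro i
    fin_cases i
    · change z (p - 1 + 1) = z p
      rw [Nat.sub_add_cancel (by omega)]
    · change z (g - (g - p - 1 + 1)) = z p
      congr 1
      omega
    · exact E2
  · -- wv
    intro h0
    have := hzinj 0 p (by omega) (by omega) h0
    omega
  · -- inj
    intro i j i' j' h1 h2 h1' h2' hxx
    fin_cases i <;> fin_cases i'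
    · refine ⟨rfl, ?_⟩
      change j ≤ p - 1 at h2
      change j' ≤ p - 1 at h2'
      exact hzinj j j' (by omega) (by omega) hxx
    · exfalso
      change j ≤ p - 1 at h2
      change j' ≤ g - p - 1 at h2'
      have := hzinj j (g - j') (by omega) (by omega) hxx
      omega
    · exfalso
      change j' ≤ m + 1 at h2'
      change z j = E j' at hxx
      rw [E1 j' h1' h2'] at hxx
      exact hRZ _ (by omega) _ hxx.symm
    · exfalso
      change j ≤ g - p - 1 at h2
      change j' ≤ p - 1 at h2'
      have := hzinj (g - j) j' (by omega) (by omega) hxx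
      omega
    · refine ⟨rfl, ?_⟩
      change j ≤ g - p - 1 at h2
      change j' ≤ g - p - 1 at h2'
      have := hzinj (g - j) (g - j') (by omega) (by omega) hxx
      omega
    · exfalso
      change j' ≤ m + 1 at h2'
      change z (g - j) = E j' at hxx
      rw [E1 j' h1' h2'] at hxx
      exact hRZ _ (by omega) _ hxx.symm
    · exfalso
      change j ≤ m + 1 at h2
      change E j = z j' at hxx
      rw [E1 j h1 h2] at hxx
      exact hRZ _ (by omega) _ hxx
    · exfalso
      change j ≤ m + 1 at h2
      change E j = z (g - j') at hxx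
      rw [E1 j h1 h2] at hxx
      exact hRZ _ (by omega) _ hxx
    · refine ⟨rfl, ?_⟩
      change j ≤ m + 1 at h2
      change j' ≤ m + 1 at h2'
      change E j = E j' at hxx
      rw [E1 j h1 h2, E1 j' h1' h2'] at hxx
      have := hRinj _ _ (by omega) (by omega) hxx
      omega
  · -- xw
    intro i j h1 h2 hxx
    fin_cases i
    · change j ≤ p - 1 at h2
      have := hzinj j 0 (by omega) (by omega) hxx
      omega
    · change j ≤ g - p - 1 at h2
      have := hzinj (g - j) 0 (by omega) (by omega) hxx
      omega
    · change j ≤ m + 1 at h2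
      change E j = z 0 at hxx
      rw [E1 j h1 h2] at hxx
      exact hRZ _ (by omega) _ hxx
  · -- xv
    intro i j h1 h2 hxx
    fin_cases i
    · change j ≤ p - 1 at h2
      have := hzinj j p (by omega) (by omega) hxx
      omega
    · change j ≤ g - p - 1 at h2
      have := hzinj (g - j) p (by omega) (by omega) hxx
      omega
    · change j ≤ m + 1 at h2
      change E j = z p at hxx
      rw [E1 j h1 h2] at hxx
      exact hRZ _ (by omega) _ hxx
  · -- adj
    intro i j h2
    fin_cases i
    · exact h.adj j
    · change j ≤ g - p - 1 at h2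
      change G.Adj (z (g - j)) (z (g - (j + 1)))
      have := h.adj (g - (j + 1))
      rw [show g - (j + 1) + 1 = g - j by omega] at this
      exact this.symm
    · change j ≤ m + 1 at h2
      change G.Adj (E j) (E (j + 1))
      rcases Nat.eq_zero_or_pos j with h0 | h0
      · rw [h0, E0, E1 (0 + 1) (by omega) (by omega)]
        exact hR0
      · rcases Nat.eq_or_lt_of_le h2 with h3 | h3
        · rw [h3, show m + 1 + 1 = m + 2 from rfl, E2, E1 (m + 1) (by omega) (by omega)]
          exact hRm
        · rw [E1 j h0 (by omega), E1 (j + 1) (by omega) (by omega)]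
          have := hRadj (j - 1) (by omega)
          rwa [show j - 1 + 1 = j + 1 - 1 by omega] at this
  · -- ind
    intro i j i' j' h1 h2 h2' hadj
    -- positions on the cycle
    have hpos : ∀ (i : Fin 3) (j : ℕ), i ≠ 2 → ∃ q, x i j = z q := by
      intro i j hi
      fin_cases i
      · exact ⟨j, rfl⟩
      · exact ⟨g - j, rfl⟩
      · exact absurd rfl hi
    fin_cases i
    · -- first path
      change j ≤ p - 1 at h2
      change G.Adj (z j) (x i' j') at hadj
      change x i' j' = z (j - 1) ∨ x i' j' = z (j + 1)
      have hz : ∀ q, x i' j' = z q → x i' j' = z (j - 1) ∨ x i' j' = z (j + 1) := by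
        intro q hq
        rw [hq] at hadj ⊢
        exact hch j q h1 hadj
      by_cases hi' : i' = 2
      · subst hi'
        change j' ≤ m + 1 + 1 at h2'
        rcases Nat.eq_zero_or_pos j' with h0 | h0
        · exact hz 0 (by rw [h0]; exact E0)
        · rcases Nat.eq_or_lt_of_le h2' with h3 | h3
          · exact hz p (by rw [h3]; exact E2)
          · exfalso
            change G.Adj (z j) (E j') at hadj
            rw [E1 j' h0 (by omega)] at hadj
            rcases hRZadj _ (by omega) _ hadj.symm with ⟨-, e⟩ | ⟨-, e⟩
            · have := hzinj j 0 (by omega) (by omega) e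
              omega
            · have := hzinj j p (by omega) (by omega) e
              omega
      · obtain ⟨q, hq⟩ := hpos i' j' hi'
        exact hz q hq
    · -- second path
      change j ≤ g - p - 1 at h2
      change G.Adj (z (g - j)) (x i' j') at hadj
      change x i' j' = z (g - (j - 1)) ∨ x i' j' = z (g - (j + 1))
      have hz : ∀ q, x i' j' = z q → x i' j' = z (g - (j - 1)) ∨ x i' j' = z (g - (j + 1)) := by
        intro q hq
        rw [hq] at hadj ⊢
        have := hch (g - j) q (by omega) hadj
        rw [show g - (j - 1) = g - j + 1 by omega, show g - (j + 1) = g - j - 1 by omega]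
        exact this.symm
      by_cases hi' : i' = 2
      · subst hi'
        change j' ≤ m + 1 + 1 at h2'
        rcases Nat.eq_zero_or_pos j' with h0 | h0
        · exact hz 0 (by rw [h0]; exact E0)
        · rcases Nat.eq_or_lt_of_le h2' with h3 | h3
          · exact hz p (by rw [h3]; exact E2)
          · exfalso
            change G.Adj (z (g - j)) (E j') at hadj
            rw [E1 j' h0 (by omega)] at hadj
            rcases hRZadj _ (by omega) _ hadj.symm with ⟨-, e⟩ | ⟨-, e⟩
            · have := hzinj (g - j) 0 (by omega) (by omega) e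
              omega
            · have := hzinj (g - j) p (by omega) (by omega) e
              omega
      · obtain ⟨q, hq⟩ := hpos i' j' hi'
        exact hz q hq
    · -- third path
      change j ≤ m + 1 at h2
      change G.Adj (E j) (x i' j') at hadj
      change x i' j' = E (j - 1) ∨ x i' j' = E (j + 1)
      rw [E1 j h1 h2] at hadj
      have hz : ∀ q, x i' j' = z q → x i' j' = E (j - 1) ∨ x i' j' = E (j + 1) := by
        intro q hq
        rw [hq] at hadj ⊢
        rcases hRZadj _ (by omega) _ hadj with ⟨e1, e2⟩ | ⟨e1, e2⟩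
        · left
          rw [e1, E0, e2]
        · right
          rw [show j + 1 = m + 2 by omega, E2, e2]
      by_cases hi' : i' = 2
      · subst hi'
        change j' ≤ m + 1 + 1 at h2'
        rcases Nat.eq_zero_or_pos j' with h0 | h0
        · exact hz 0 (by rw [h0]; exact E0)
        · rcases Nat.eq_or_lt_of_le h2' with h3 | h3
          · exact hz p (by rw [h3]; exact E2)
          · change G.Adj (R (j - 1)) (E j') at hadj
            rw [E1 j' h0 (by omega)] at hadj
            rcases hRind _ _ (by omega) (by omega) hadj with e | e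
            · right
              change E j' = E (j + 1)
              congr 1
              omega
            · left
              change E j' = E (j - 1)
              congr 1
              omega
      · obtain ⟨q, hq⟩ := hpos i' j' hi'
        exact hz q hq
  · -- the vertices
    rintro y ⟨i, j, hj, rfl⟩
    fin_cases i
    · exact Or.inl ⟨j, rfl⟩
    · exact Or.inl ⟨g - j, rfl⟩
    · change j ≤ m + 1 + 1 at hj
      change (∃ i, E j = z i) ∨ (∃ j' ≤ m, E j = R j')
      rcases Nat.eq_zero_or_pos j with h0 | h0
      · exact Or.inl ⟨0, by rw [h0]; exact E0⟩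
      · rcases Nat.eq_or_lt_of_le hj with h3 | h3
        · exact Or.inl ⟨p, by rw [h3]; exact E2⟩
        · exact Or.inr ⟨j - 1, by omega, E1 j h0 (by omega)⟩

/-- there is a walk of length `m` from `a` to `b` inside `W` -/
def Conn (G : SimpleGraph V) (W : Set V) (a b : V) (m : ℕ) : Prop :=
  ∃ R : ℕ → V, R 0 = a ∧ R m = b ∧ (∀ j ≤ m, R j ∈ W) ∧ ∀ j < m, G.Adj (R j) (R (j + 1))

/-- a shortest walk is an induced path -/
theorem exists_induced {W : Set V} {a b : V} (h : ∃ m, Conn G W a b m) :
    ∃ (m : ℕ) (R : ℕ → V), R 0 = a ∧ R m = b ∧ (∀ j ≤ m, R j ∈ W) ∧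
      (∀ j < m, G.Adj (R j) (R (j + 1))) ∧ (∀ i j, i ≤ m → j ≤ m → R i = R j → i = j) ∧
      (∀ i j, i ≤ m → j ≤ m → G.Adj (R i) (R j) → j = i + 1 ∨ i = j + 1) := by
  classical
  obtain ⟨R, hR0, hRm, hRW, hRadj⟩ := Nat.find_spec h
  have hmin : ∀ m', Conn G W a b m' → Nat.find h ≤ m' := fun m' hm' => Nat.find_min' h hm'
  set m := Nat.find h with hm
  have hinj : ∀ i j, i < j → j ≤ m → R i ≠ R j := by
    intro i j hij hj hR
    have hc : Conn G W a b (m - (j - i)) := by
      refine ⟨fun t => if t ≤ i then R t else R (t + (j - i)), ?_, ?_, ?_, ?_⟩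
      · simp [hR0]
      · simp only
        split_ifs with h1
        · have h2 : m = j := by omega
          rw [show m - (j - i) = i by omega, hR, ← h2]
          exact hRm
        · rw [show m - (j - i) + (j - i) = m by omega]
          exact hRm
      · intro t ht
        simp only
        split_ifs
        · exact hRW _ (by omega)
        · exact hRW _ (by omega)
      · intro t ht
        simp only
        split_ifs with h1 h2 h2
        · exact hRadj t (by omega)
        · have h3 : t = i := by omega
          rw [h3, hR, show i + 1 + (j - i) = j + 1 by omega]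
          exact hRadj j (by omega)
        · omega
        · rw [show t + 1 + (j - i) = t + (j - i) + 1 by omega]
          exact hRadj _ (by omega)
    have := hmin _ hc
    omega
  have hind : ∀ i j, i < j → j ≤ m → G.Adj (R i) (R j) → j = i + 1 := by
    intro i j hij hj hR
    by_contra hne
    have hc : Conn G W a b (m - (j - i - 1)) := by
      refine ⟨fun t => if t ≤ i then R t else R (t + (j - i - 1)), ?_, ?_, ?_, ?_⟩
      · simp [hR0]
      · simp only
        rw [if_neg (by omega), show m - (j - i - 1) + (j - i - 1) = m by omega]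
        exact hRm
      · intro t ht
        simp only
        split_ifs
        · exact hRW _ (by omega)
        · exact hRW _ (by omega)
      · intro t ht
        simp only
        split_ifs with h1 h2 h2
        · exact hRadj t (by omega)
        · have h3 : t = i := by omega
          rw [h3, show i + 1 + (j - i - 1) = j by omega]
          exact hR
        · omega
        · rw [show t + 1 + (j - i - 1) = t + (j - i - 1) + 1 by omega]
          exact hRadj _ (by omega)
    have := hmin _ hc
    omega
  refine ⟨m, R, hR0, hRm, hRW, hRadj, ?_, ?_⟩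
  · intro i j hi hj hR
    by_contra hne
    rcases lt_or_gt_of_ne hne with h' | h'
    · exact hinj i j h' hj hR
    · exact hinj j i h' hi hR.symm
  · intro i j hi hj hR
    rcases lt_trichotomy i j with h' | h' | h'
    · exact Or.inl (hind i j h' hj hR)
    · exfalso
      rw [h'] at hR
      exact G.irrefl hR
    · exact Or.inr (hind j i h' hi hR.symm)

end Pool.Agent.RigidConf
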