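import Pool.Agent.RigidConf.Core

/-!
# Functions on three-space given by homogeneous polynomials
-/

namespace Pool.Agent.RigidConf

/-- `φ` is given by a homogeneous polynomial of degree `d` -/
def HS (φ : V3 → ℝ) (d : ℕ) : Prop :=
  ∃ P : MvPolynomial (Fin 3) ℝ, P.IsHomogeneous d ∧ ∀ w, MvPolynomial.eval w P = φ w

/-- all coordinates of `Φ` are given by homogeneous polynomials of degree `d` -/
def HV (Φ : V3 → V3) (d : ℕ) : Prop := ∀ i, HS (fun w => Φ w i) d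

theorem HS.const (c : ℝ) : HS (fun _ => c) 0 :=
  ⟨MvPolynomial.C c, MvPolynomial.isHomogeneous_C _ _, fun w => by simp⟩

theorem HS.add {φ ψ : V3 → ℝ} {d : ℕ} (h1 : HS φ d) (h2 : HS ψ d) :
    HS (fun w => φ w + ψ w) d := by
  obtain ⟨P, hP, hP'⟩ := h1
  obtain ⟨Q, hQ, hQ'⟩ := h2
  exact ⟨P + Q, hP.add hQ, fun w => by rw [map_add, hP', hQ']⟩

theorem HS.sub {φ ψ : V3 → ℝ} {d : ℕ} (h1 : HS φ d) (h2 : HS ψ d) :
    HS (fun w => φ w - ψ w) d := by
  obtain ⟨P, hP, hP'⟩ := h1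
  obtain ⟨Q, hQ, hQ'⟩ := h2
  exact ⟨P - Q, hP.sub hQ, fun w => by rw [map_sub, hP', hQ']⟩

theorem HS.mul {φ ψ : V3 → ℝ} {d e : ℕ} (h1 : HS φ d) (h2 : HS ψ e) :
    HS (fun w => φ w * ψ w) (d + e) := by
  obtain ⟨P, hP, hP'⟩ := h1
  obtain ⟨Q, hQ, hQ'⟩ := h2
  exact ⟨P * Q, hP.mul hQ, fun w => by rw [map_mul, hP', hQ']⟩

theorem HV.const (c : V3) : HV (fun _ => c) 0 := fun i => HS.const (c i)

theorem HV.lin (M : V3 →ₗ[ℝ] V3) : HV (fun w => M w) 1 := by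
  intro i
  refine ⟨∑ j : Fin 3, MvPolynomial.C (M (Pi.single j 1) i) * MvPolynomial.X j, ?_, ?_⟩
  · refine MvPolynomial.IsHomogeneous.sum _ _ _ ?_
    intro j _
    exact (MvPolynomial.isHomogeneous_X _ _).C_mul _
  · intro w
    have hw : w = ∑ j : Fin 3, w j • (Pi.single j (1 : ℝ) : V3) := by
      rw [Fin.sum_univ_three]
      apply v3_ext <;> simp
    change _ = M w i
    conv_rhs => rw [hw, map_sum]
    simp only [map_sum, map_mul, MvPolynomial.eval_C, MvPolynomial.eval_X, map_smul,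
      Finset.sum_apply, Pi.smul_apply, smul_eq_mul]
    refine Finset.sum_congr rfl ?_
    intro j _
    ring

theorem HV.cr {Φ Ψ : V3 → V3} {d e : ℕ} (h1 : HV Φ d) (h2 : HV Ψ e) :
    HV (fun w => cr (Φ w) (Ψ w)) (d + e) := by
  intro i
  fin_cases i
  · exact ((h1 1).mul (h2 2)).sub ((h1 2).mul (h2 1))
  · exact ((h1 2).mul (h2 0)).sub ((h1 0).mul (h2 2))
  · exact ((h1 0).mul (h2 1)).sub ((h1 1).mul (h2 0))

theorem HV.dt {Φ Ψ : V3 → V3} {d e : ℕ} (h1 : HV Φ d) (h2 : HV Ψ e) :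
    HS (fun w => dt (Φ w) (Ψ w)) (d + e) :=
  (((h1 0).mul (h2 0)).add ((h1 1).mul (h2 1))).add ((h1 2).mul (h2 2))

/-- finitely many generic conditions can be imposed by one homogeneous polynomial -/
theorem generic_finite {ι : Type*} (s : Finset ι) (C : ι → V3 → Prop) (w0 : V3)
    (h : ∀ i ∈ s, ∃ (φ : V3 → ℝ) (d : ℕ), HS φ d ∧ φ w0 ≠ 0 ∧ ∀ w, φ w ≠ 0 → C i w) :
    ∃ (g : MvPolynomial (Fin 3) ℝ) (N : ℕ), g.IsHomogeneous N ∧ MvPolynomial.eval w0 g ≠ 0 ∧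
      ∀ w, MvPolynomial.eval w g ≠ 0 → ∀ i ∈ s, C i w := by
  classical
  induction s using Finset.induction_on with
  | empty =>
    exact ⟨1, 0, MvPolynomial.isHomogeneous_one _ _, by simp, by simp⟩
  | insert a s ha ih =>
    obtain ⟨g, N, hg, hg0, hgC⟩ := ih (fun i hi => h i (Finset.mem_insert_of_mem hi))
    obtain ⟨φ, d, ⟨P, hP, hPe⟩, hφ0, hφC⟩ := h a (Finset.mem_insert_self _ _)
    refine ⟨P * g, d + N, hP.mul hg, ?_, ?_⟩
    · rw [map_mul, hPe]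
      exact mul_ne_zero hφ0 hg0
    · intro w hw i hi
      rw [map_mul, hPe] at hw
      rcases Finset.mem_insert.mp hi with rfl | hi
      · exact hφC w (left_ne_zero_of_mul hw)
      · exact hgC w (right_ne_zero_of_mul hw) i hi

end Pool.Agent.RigidConf
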