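import Pool.Agent.RigidConf.Comb5

/-!
# Every realization of a configuration with at least nine points can be moved
-/

namespace Pool.Agent.RigidConf

open Classical

set_option linter.unusedSectionVars false

theorem tri_rot (a b c : V3) : tri a b c = tri b c a := by
  unfold tri dt; simp; ring

theorem tri_swap (a b c : V3) : tri a b c = -tri b a c := by
  unfold tri dt; simp; ring

theorem tri_eq_dt_cr (a b c : V3) : tri a b c = dt (cr a b) c := by
  unfold tri dt; simp; ring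

theorem cramer (e1 e2 e3 v : V3) :
    tri e1 e2 e3 • v = tri v e2 e3 • e1 + tri e1 v e3 • e2 + tri e1 e2 v • e3 := by
  apply v3_ext <;> simp [tri, dt] <;> ring

/-- a linear map fixing four points in general position of the plane is a scalar -/
theorem frame_scalar {e1 e2 e3 e4 : V3} (h123 : tri e1 e2 e3 ≠ 0) (h423 : tri e4 e2 e3 ≠ 0)
    (h143 : tri e1 e4 e3 ≠ 0) (h124 : tri e1 e2 e4 ≠ 0) (g : V3 →ₗ[ℝ] V3) {c1 c2 c3 c4 : ℝ}
    (g1 : g e1 = c1 • e1) (g2 : g e2 = c2 • e2) (g3 : g e3 = c3 • e3) (g4 : g e4 = c4 • e4)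
    (v : V3) : g v = c1 • v := by
  have key : ∀ v, tri e1 e2 e3 • g v =
      tri v e2 e3 • c1 • e1 + tri e1 v e3 • c2 • e2 + tri e1 e2 v • c3 • e3 := by
    intro v
    have := congrArg g (cramer e1 e2 e3 v)
    rw [map_add, map_add, map_smul, map_smul, map_smul, map_smul, g1, g2, g3] at this
    exact this
  have k4 := key e4
  rw [g4] at k4
  have k0 := congrFun k4 0
  have k1 := congrFun k4 1
  have k2 := congrFun k4 2
  simp only [Pi.smul_apply, Pi.add_apply, smul_eq_mul] at k0 k1 k2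
  have hc1 : c4 = c1 := by
    have : (c4 - c1) * (tri e1 e2 e3 * tri e4 e2 e3) = 0 := by
      have e : (c4 - c1) * (tri e1 e2 e3 * tri e4 e2 e3) =
          (tri e1 e2 e3 * (c4 * e4 0) - (tri e4 e2 e3 * (c1 * e1 0) + tri e1 e4 e3 * (c2 * e2 0) +
            tri e1 e2 e4 * (c3 * e3 0))) * (cr e2 e3 0) +
          (tri e1 e2 e3 * (c4 * e4 1) - (tri e4 e2 e3 * (c1 * e1 1) + tri e1 e4 e3 * (c2 * e2 1) +
            tri e1 e2 e4 * (c3 * e3 1))) * (cr e2 e3 1) +
          (tri e1 e2 e3 * (c4 * e4 2) - (tri e4 e2 e3 * (c1 * e1 2) + tri e1 e4 e3 * (c2 * e2 2) +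
            tri e1 e2 e4 * (c3 * e3 2))) * (cr e2 e3 2) := by
        simp [tri, dt]; ring
      rw [e, k0, k1, k2]; ring
    rcases mul_eq_zero.mp this with h | h
    · linarith
    · exact absurd h (mul_ne_zero h123 h423)
  have hc2 : c4 = c2 := by
    have : (c4 - c2) * (tri e1 e2 e3 * tri e1 e4 e3) = 0 := by
      have e : (c4 - c2) * (tri e1 e2 e3 * tri e1 e4 e3) =
          (tri e1 e2 e3 * (c4 * e4 0) - (tri e4 e2 e3 * (c1 * e1 0) + tri e1 e4 e3 * (c2 * e2 0) +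
            tri e1 e2 e4 * (c3 * e3 0))) * (cr e3 e1 0) +
          (tri e1 e2 e3 * (c4 * e4 1) - (tri e4 e2 e3 * (c1 * e1 1) + tri e1 e4 e3 * (c2 * e2 1) +
            tri e1 e2 e4 * (c3 * e3 1))) * (cr e3 e1 1) +
          (tri e1 e2 e3 * (c4 * e4 2) - (tri e4 e2 e3 * (c1 * e1 2) + tri e1 e4 e3 * (c2 * e2 2) +
            tri e1 e2 e4 * (c3 * e3 2))) * (cr e3 e1 2) := by
        simp [tri, dt]; ring
      rw [e, k0, k1, k2]; ring
    rcases mul_eq_zero.mp this with h | h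
    · linarith
    · exact absurd h (mul_ne_zero h123 h143)
  have hc3 : c4 = c3 := by
    have : (c4 - c3) * (tri e1 e2 e3 * tri e1 e2 e4) = 0 := by
      have e : (c4 - c3) * (tri e1 e2 e3 * tri e1 e2 e4) =
          (tri e1 e2 e3 * (c4 * e4 0) - (tri e4 e2 e3 * (c1 * e1 0) + tri e1 e4 e3 * (c2 * e2 0) +
            tri e1 e2 e4 * (c3 * e3 0))) * (cr e1 e2 0) +
          (tri e1 e2 e3 * (c4 * e4 1) - (tri e4 e2 e3 * (c1 * e1 1) + tri e1 e4 e3 * (c2 * e2 1) +
            tri e1 e2 e4 * (c3 * e3 1))) * (cr e1 e2 1) +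
          (tri e1 e2 e3 * (c4 * e4 2) - (tri e4 e2 e3 * (c1 * e1 2) + tri e1 e4 e3 * (c2 * e2 2) +
            tri e1 e2 e4 * (c3 * e3 2))) * (cr e1 e2 2) := by
        simp [tri, dt]; ring
      rw [e, k0, k1, k2]; ring
    rcases mul_eq_zero.mp this with h | h
    · linarith
    · exact absurd h (mul_ne_zero h123 h124)
  have kv := key v
  rw [← hc2, ← hc3, hc1] at kv
  have kc : tri e1 e2 e3 • g v = tri e1 e2 e3 • (c1 • v) := by
    rw [kv, smul_comm (tri e1 e2 e3) c1 v, cramer e1 e2 e3 v, smul_add, smul_add,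
      smul_comm c1 (tri v e2 e3), smul_comm c1 (tri e1 v e3), smul_comm c1 (tri e1 e2 v)]
  have := congrArg (fun w : V3 => (tri e1 e2 e3)⁻¹ • w) kc
  simpa [smul_smul, inv_mul_cancel₀ h123, inv_mul_cancel_left₀ h123, ← mul_assoc] using this

theorem exists_smul_of_cr_zero {a b : V3} (ha : a ≠ 0) (h : cr a b = 0) :
    ∃ c : ℝ, b = c • a := by
  have h0 := congrFun h 0
  have h1 := congrFun h 1
  have h2 := congrFun h 2
  simp only [cr_zero, cr_one, cr_two, Pi.zero_apply] at h0 h1 h2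
  have hN := v3_ne_zero ha
  refine ⟨dt a b / (a 0 ^ 2 + a 1 ^ 2 + a 2 ^ 2), ?_⟩
  apply v3_ext
  · refine div_form' hN ?_
    unfold dt
    linear_combination (-a 1) * h2 + a 2 * h1
  · refine div_form' hN ?_
    unfold dt
    linear_combination a 0 * h2 - a 2 * h0
  · refine div_form' hN ?_
    unfold dt
    linear_combination (-a 0) * h1 + a 1 * h0

variable {P L : Type*} [Fintype P] [Fintype L] {I : P → L → Prop}

theorem Conf.others (hI : Conf I) {X : P} {a : L} (h : I X a) :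
    ∃ P1 P2, X ≠ P1 ∧ X ≠ P2 ∧ P1 ≠ P2 ∧ ∀ p, I p a ↔ (p = X ∨ p = P1 ∨ p = P2) := by
  obtain ⟨x, y, z, hxy, hxz, hyz, hh⟩ := hI.point3 a
  rw [hh] at h
  rcases h with rfl | rfl | rfl
  · exact ⟨y, z, hxy, hxz, hyz, hh⟩
  · exact ⟨x, z, hxy.symm, hyz, hxz, fun p => by rw [hh]; tauto⟩
  · exact ⟨x, y, hxz.symm, hyz.symm, hxy, fun p => by rw [hh]; tauto⟩

theorem VReal.tri_ne {ρ : P ⊕ L → V3} (hρ : VReal (levi I) sty ρ) {p q r : P} {l : L}
    (hp : I p l) (hq : I q l) (hpq : p ≠ q) (hr : ¬ I r l) :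
    tri (ρ (.inl p)) (ρ (.inl q)) (ρ (.inl r)) ≠ 0 := by
  intro h
  have hcr := hρ.dist (.inl p) (.inl q) rfl (fun e => hpq (Sum.inl_injective e))
  obtain ⟨α, β, hab⟩ := exists_lin h hcr
  have h1 : dt (ρ (.inl p)) (ρ (.inr l)) = 0 := (hρ.inc _ _ (by simp [sty])).mpr hp
  have h2 : dt (ρ (.inl q)) (ρ (.inr l)) = 0 := (hρ.inc _ _ (by simp [sty])).mpr hq
  have h3 : dt (ρ (.inl r)) (ρ (.inr l)) ≠ 0 := fun e => hr ((hρ.inc _ _ (by simp [sty])).mp e)
  apply h3
  rw [hab]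
  have : dt (α • ρ (.inl p) + β • ρ (.inl q)) (ρ (.inr l)) =
      α * dt (ρ (.inl p)) (ρ (.inr l)) + β * dt (ρ (.inl q)) (ρ (.inr l)) := by
    simp [dt]; ring
  rw [this, h1, h2]
  ring

/-- four points in general position fixed, some point moved -/
theorem move_nine (hI : Conf I) (hc : Fintype.card L = Fintype.card P) (h9 : 9 ≤ Fintype.card P)
    {ρ : P ⊕ L → V3} (hρ : VReal (levi I) sty ρ) :
    ∃ ρ' : P ⊕ L → V3, VReal (levi I) sty ρ' ∧
      (∃ a b c d : P, tri (ρ (.inl a)) (ρ (.inl b)) (ρ (.inl c)) ≠ 0 ∧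
        tri (ρ (.inl d)) (ρ (.inl b)) (ρ (.inl c)) ≠ 0 ∧
        tri (ρ (.inl a)) (ρ (.inl d)) (ρ (.inl c)) ≠ 0 ∧
        tri (ρ (.inl a)) (ρ (.inl b)) (ρ (.inl d)) ≠ 0 ∧
        ρ' (.inl a) = ρ (.inl a) ∧ ρ' (.inl b) = ρ (.inl b) ∧ ρ' (.inl c) = ρ (.inl c) ∧
        ρ' (.inl d) = ρ (.inl d)) ∧
      ∃ p : P, cr (ρ (.inl p)) (ρ' (.inl p)) ≠ 0 := by
  have hne : Nonempty P := Fintype.card_pos_iff.mp (by omega)
  obtain ⟨X⟩ := hne
  obtain ⟨a, b, c, hab, -, -, habc⟩ := hI.line3 X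
  have hXa : I X a := (habc a).mpr (Or.inl rfl)
  have hXb : I X b := (habc b).mpr (Or.inr (Or.inl rfl))
  obtain ⟨P1, P2, hXP1, hXP2, hP12, ha⟩ := hI.others hXa
  obtain ⟨Q1, Q2, hXQ1, hXQ2, hQ12, hb⟩ := hI.others hXb
  have onlyX : ∀ p, I p a → I p b → p = X := by
    intro p h1 h2
    by_contra h
    exact hab (hI.lin X p a b (fun e => h e.symm) hXa h1 hXb h2)
  have hP1a : I P1 a := (ha P1).mpr (Or.inr (Or.inl rfl))
  have hP2a : I P2 a := (ha P2).mpr (Or.inr (Or.inr rfl))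
  have hQ1b : I Q1 b := (hb Q1).mpr (Or.inr (Or.inl rfl))
  have hQ2b : I Q2 b := (hb Q2).mpr (Or.inr (Or.inr rfl))
  have hP1b : ¬ I P1 b := fun h => hXP1 (onlyX P1 hP1a h).symm
  have hP2b : ¬ I P2 b := fun h => hXP2 (onlyX P2 hP2a h).symm
  have hQ1a : ¬ I Q1 a := fun h => hXQ1 (onlyX Q1 h hQ1b).symm
  have hQ2a : ¬ I Q2 a := fun h => hXQ2 (onlyX Q2 h hQ2b).symm
  set F : Finset P := {X, P1, P2, Q1, Q2} with hF
  have hFcard : F.card ≤ 5 := Finset.card_le_five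
  set A0 : Finset P := Finset.univ \ F with hA0
  have hA0card : A0.card + F.card = Fintype.card P := by
    have := Finset.card_sdiff_add_card_eq_card (Finset.subset_univ F)
    rw [Finset.card_univ] at this
    exact this
  have hnotF : ∀ p ∈ A0, p ∉ F := fun p hp => (Finset.mem_sdiff.mp hp).2
  have hma : mm I A0 a = 0 := by
    by_contra h
    obtain ⟨p, hp, hpa⟩ := (one_le_mm (I := I) A0 a).mp (by omega)
    refine hnotF p hp ?_
    rw [hF]
    simp only [Finset.mem_insert, Finset.mem_singleton]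
    have := (ha p).mp hpa
    tauto
  have hmb : mm I A0 b = 0 := by
    by_contra h
    obtain ⟨p, hp, hpa⟩ := (one_le_mm (I := I) A0 b).mp (by omega)
    refine hnotF p hp ?_
    rw [hF]
    simp only [Finset.mem_insert, Finset.mem_singleton]
    have := (hb p).mp hpa
    tauto
  have hlow := rr_lower hI A0 a b hab hma hmb
  obtain ⟨θ, hθ⟩ := exists_theta hI A0 (by omega) (by omega)
  obtain ⟨ρ', hρ', hfix, hmove⟩ := theta_move hI.cubic hρ θ
  have hfix' : ∀ p ∈ F, ρ' (.inl p) = ρ (.inl p) := by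
    intro p hp
    apply hfix
    intro h
    exact hnotF p (hθ p h) hp
  refine ⟨ρ', hρ', ⟨P1, P2, Q1, Q2, ?_, ?_, ?_, ?_, ?_, ?_, ?_, ?_⟩, ?_⟩
  · exact hρ.tri_ne hP1a hP2a hP12 hQ1a
  · have := hρ.tri_ne hQ1b hQ2b hQ12 hP2b
    rw [tri_rot, tri_rot]
    exact this
  · have := hρ.tri_ne hQ1b hQ2b hQ12 hP1b
    rw [tri_rot, tri_swap]
    exact neg_ne_zero.mpr this
  · exact hρ.tri_ne hP1a hP2a hP12 hQ2a
  · exact hfix' P1 (by rw [hF]; simp)
  · exact hfix' P2 (by rw [hF]; simp)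
  · exact hfix' Q1 (by rw [hF]; simp)
  · exact hfix' Q2 (by rw [hF]; simp)
  · by_contra hcon
    push Not at hcon
    cases hw : θ.w with
    | inl p =>
      rw [hw] at hmove
      exact hmove (hcon p)
    | inr l =>
      rw [hw] at hmove
      apply hmove
      obtain ⟨p, q, r, hpq, -, -, hpqr⟩ := hI.point3 l
      have hp : I p l := (hpqr p).mpr (Or.inl rfl)
      have hq : I q l := (hpqr q).mpr (Or.inr (Or.inl rfl))
      have hcr := hρ.dist (.inl p) (.inl q) rfl (fun e => hpq (Sum.inl_injective e))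
      have orth : ∀ r, I r l → dt (ρ' (.inr l)) (ρ (.inl r)) = 0 := by
        intro r hr
        obtain ⟨c, hc⟩ := exists_smul_of_cr_zero (hρ.ne _) (hcon r)
        have hc0 : c ≠ 0 := by
          rintro rfl
          rw [zero_smul] at hc
          exact hρ'.ne _ hc
        have h1 : dt (ρ' (.inr l)) (ρ' (.inl r)) = 0 := (hρ'.inc _ _ (by simp [sty])).mpr hr
        rw [hc] at h1
        have : dt (ρ' (.inr l)) (c • ρ (.inl r)) = c * dt (ρ' (.inr l)) (ρ (.inl r)) := by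
          simp [dt]; ring
        rw [this] at h1
        rcases mul_eq_zero.mp h1 with h | h
        · exact absurd h hc0
        · exact h
      obtain ⟨μ, hμ⟩ := exists_smul_of_orth hcr (orth p hp) (orth q hq)
      obtain ⟨ν, hν⟩ := exists_smul_of_orth hcr
        ((hρ.inc (.inr l) (.inl p) (by simp [sty])).mpr hp)
        ((hρ.inc (.inr l) (.inl q) (by simp [sty])).mpr hq)
      rw [hμ, hν, cr_smul_smul, cr_self, smul_zero]

end Pool.Agent.RigidConf
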