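import Pool.Agent.RigidConf.Theta

/-!
# Moving the theta: another realization with everything outside the theta fixed
-/

namespace Pool.Agent.RigidConf

open Classical

variable {V : Type*} {G : SimpleGraph V} {ty : V → Bool}

theorem Cubic.same_ty (hG : Cubic G ty) {x a b : V} (ha : G.Adj x a) (hb : G.Adj x b) :
    ty a = ty b := by
  have h1 := hG.bip _ _ ha
  have h2 := hG.bip _ _ hb
  cases hx : ty x <;> cases h3 : ty a <;> cases h4 : ty b <;> simp_all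

theorem VReal.orth {ρ : V → V3} (hρ : VReal G ty ρ) (hG : Cubic G ty) {x y : V}
    (h : G.Adj x y) : dt (ρ x) (ρ y) = 0 := (hρ.inc x y (hG.bip _ _ h)).mpr h

theorem cr_smul_smul (a b : ℝ) (u v : V3) : cr (a • u) (b • v) = (a * b) • cr u v := by
  apply v3_ext <;> simp <;> ring

theorem dt_smul_smul (a b : ℝ) (u v : V3) : dt (a • u) (b • v) = (a * b) * dt u v := by
  simp [dt]; ring

/-- the cross product of two neighbours of `x` is a nonzero multiple of `x` -/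
theorem VReal.cr_par {ρ : V → V3} (hρ : VReal G ty ρ) (hG : Cubic G ty) {x a b : V}
    (ha : G.Adj x a) (hb : G.Adj x b) (hab : a ≠ b) :
    ∃ μ : ℝ, μ ≠ 0 ∧ cr (ρ a) (ρ b) = μ • ρ x := by
  have hcr := hρ.dist a b (hG.same_ty ha hb) hab
  obtain ⟨ν, hν⟩ := exists_smul_of_orth hcr (hρ.orth hG ha) (hρ.orth hG hb)
  have hν0 : ν ≠ 0 := by
    rintro rfl
    rw [zero_smul] at hν
    exact hρ.ne x hν
  exact ⟨ν⁻¹, inv_ne_zero hν0, by rw [hν, smul_smul, inv_mul_cancel₀ hν0, one_smul]⟩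

namespace Theta

variable (θ : Theta G)

/-- the outside neighbour of `x i j` -/
noncomputable def out (hG : Cubic G ty) (i : Fin 3) (j : ℕ) : V :=
  if h : 1 ≤ j ∧ j ≤ θ.k i then (θ.exists_out hG i j h.1 h.2).choose else θ.w

theorem out_spec (hG : Cubic G ty) (i : Fin 3) (j : ℕ) (h1 : 1 ≤ j) (h2 : j ≤ θ.k i) :
    θ.out hG i j ∉ θ.S ∧ ∀ y, G.Adj (θ.x i j) y ↔
      (y = θ.x i (j - 1) ∨ y = θ.x i (j + 1) ∨ y = θ.out hG i j) := by
  unfold out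
  rw [dif_pos ⟨h1, h2⟩]
  exact (θ.exists_out hG i j h1 h2).choose_spec

/-- the transfer maps along the paths -/
noncomputable def EM (hG : Cubic G ty) (ρ : V → V3) (i : Fin 3) : ℕ → V3 →ₗ[ℝ] V3
  | 0 => LinearMap.id
  | j + 1 => (crL (ρ (θ.out hG i (j + 1)))).comp (EM hG ρ i j)

/-- the moved realization -/
noncomputable def Psi (hG : Cubic G ty) (ρ : V → V3) (u : V3) (y : V) : V3 :=
  if h : ∃ p : Fin 3 × ℕ, p.2 ≤ θ.k p.1 ∧ y = θ.x p.1 p.2 then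
    θ.EM hG ρ h.choose.1 h.choose.2 u
  else if y = θ.v then cr (θ.EM hG ρ 0 (θ.k 0) u) (θ.EM hG ρ 1 (θ.k 1) u)
  else ρ y

theorem x_ne_v (i : Fin 3) (j : ℕ) (h : j ≤ θ.k i) : θ.x i j ≠ θ.v := by
  rcases Nat.eq_zero_or_pos j with h0 | h0
  · rw [h0, θ.x0]; exact θ.wv
  · exact θ.xv i j h0 h

theorem Psi_x (hG : Cubic G ty) (ρ : V → V3) (u : V3) (i : Fin 3) (j : ℕ) (h : j ≤ θ.k i) :
    θ.Psi hG ρ u (θ.x i j) = θ.EM hG ρ i j u := by
  have hex : ∃ p : Fin 3 × ℕ, p.2 ≤ θ.k p.1 ∧ θ.x i j = θ.x p.1 p.2 := ⟨(i, j), h, rfl⟩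
  unfold Psi
  rw [dif_pos hex]
  obtain ⟨h1, h2⟩ := hex.choose_spec
  generalize hex.choose = p at h1 h2
  obtain ⟨i', j'⟩ := p
  simp only at h1 h2 ⊢
  rcases Nat.eq_zero_or_pos j with h0 | h0
  · rcases Nat.eq_zero_or_pos j' with h0' | h0'
    · rw [h0, h0']; rfl
    · exfalso
      rw [h0, θ.x0] at h2
      exact θ.xw i' j' h0' h1 h2.symm
  · rcases Nat.eq_zero_or_pos j' with h0' | h0'
    · exfalso
      rw [h0', θ.x0] at h2
      exact θ.xw i j h0 h h2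
    · obtain ⟨rfl, rfl⟩ := θ.inj i j i' j' h0 h h0' h1 h2
      rfl

theorem Psi_w (hG : Cubic G ty) (ρ : V → V3) (u : V3) : θ.Psi hG ρ u θ.w = u := by
  rw [← θ.x0 0, Psi_x _ _ _ _ _ _ (Nat.zero_le _)]
  rfl

theorem Psi_v (hG : Cubic G ty) (ρ : V → V3) (u : V3) :
    θ.Psi hG ρ u θ.v = cr (θ.EM hG ρ 0 (θ.k 0) u) (θ.EM hG ρ 1 (θ.k 1) u) := by
  unfold Psi
  rw [dif_neg, if_pos rfl]
  rintro ⟨p, hp1, hp2⟩
  exact θ.x_ne_v _ _ hp1 hp2.symm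

theorem Psi_out (hG : Cubic G ty) (ρ : V → V3) (u : V3) {y : V} (hy : y ∉ θ.S) :
    θ.Psi hG ρ u y = ρ y := by
  unfold Psi
  rw [dif_neg, if_neg]
  · rintro rfl
    exact hy θ.v_mem
  · rintro ⟨p, hp1, hp2⟩
    exact hy ⟨p.1, p.2, by omega, hp2⟩

/-- every vertex is of one of three kinds -/
theorem trichotomy (y : V) :
    (∃ i j, j ≤ θ.k i ∧ y = θ.x i j) ∨ y = θ.v ∨ y ∉ θ.S := by
  by_cases hy : y ∈ θ.S
  · obtain ⟨i, j, hj, rfl⟩ := hy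
    rcases Nat.eq_or_lt_of_le hj with h | h
    · right; left; rw [h, θ.xl]
    · left; exact ⟨i, j, by omega, rfl⟩
  · exact Or.inr (Or.inr hy)

theorem EM_par (hG : Cubic G ty) {ρ : V → V3} (hρ : VReal G ty ρ) (i : Fin 3) (j : ℕ)
    (h : j ≤ θ.k i) : ∃ μ : ℝ, μ ≠ 0 ∧ θ.EM hG ρ i j (ρ θ.w) = μ • ρ (θ.x i j) := by
  induction j with
  | zero => exact ⟨1, one_ne_zero, by rw [θ.x0, one_smul]; rfl⟩
  | succ j ih =>
    obtain ⟨μ, hμ, hE⟩ := ih (by omega)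
    obtain ⟨ho, hN⟩ := θ.out_spec hG i (j + 1) (by omega) h
    have ha : G.Adj (θ.x i (j + 1)) (θ.x i j) := by
      rw [hN]; left; simp
    have hb : G.Adj (θ.x i (j + 1)) (θ.out hG i (j + 1)) := by
      rw [hN]; right; right; rfl
    have hne : θ.x i j ≠ θ.out hG i (j + 1) := by
      intro h'
      apply ho
      rw [← h']
      exact ⟨i, j, by omega, rfl⟩
    obtain ⟨ν, hν, hc⟩ := hρ.cr_par hG ha hb hne
    refine ⟨μ * ν, mul_ne_zero hμ hν, ?_⟩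
    change cr (θ.EM hG ρ i j (ρ θ.w)) (ρ (θ.out hG i (j + 1))) = _
    rw [hE]
    have := cr_smul_smul μ 1 (ρ (θ.x i j)) (ρ (θ.out hG i (j + 1)))
    rw [one_smul, mul_one, hc, smul_smul] at this
    exact this

theorem Psi_par (hG : Cubic G ty) {ρ : V → V3} (hρ : VReal G ty ρ) (y : V) :
    ∃ μ : ℝ, μ ≠ 0 ∧ θ.Psi hG ρ (ρ θ.w) y = μ • ρ y := by
  rcases θ.trichotomy y with ⟨i, j, hj, rfl⟩ | rfl | hy
  · rw [Psi_x _ _ _ _ _ _ hj]
    exact θ.EM_par hG hρ i j hj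
  · rw [Psi_v]
    obtain ⟨μ, hμ, h0⟩ := θ.EM_par hG hρ 0 (θ.k 0) (le_refl _)
    obtain ⟨ν, hν, h1⟩ := θ.EM_par hG hρ 1 (θ.k 1) (le_refl _)
    have ha : G.Adj θ.v (θ.x 0 (θ.k 0)) := (θ.adj_v hG _).mpr ⟨0, rfl⟩
    have hb : G.Adj θ.v (θ.x 1 (θ.k 1)) := (θ.adj_v hG _).mpr ⟨1, rfl⟩
    have hne : θ.x 0 (θ.k 0) ≠ θ.x 1 (θ.k 1) := by
      intro h
      have := (θ.inj 0 _ 1 _ (θ.kpos 0) (le_refl _) (θ.kpos 1) (le_refl _) h).1
      simp at this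
    obtain ⟨κ, hκ, hc⟩ := hρ.cr_par hG ha hb hne
    refine ⟨μ * ν * κ, mul_ne_zero (mul_ne_zero hμ hν) hκ, ?_⟩
    rw [h0, h1, cr_smul_smul, hc, smul_smul]
  · rw [Psi_out _ _ _ _ hy]
    exact ⟨1, one_ne_zero, (one_smul _ _).symm⟩

theorem EM_kills (hG : Cubic G ty) (ρ : V → V3) (i : Fin 3) (j : ℕ) :
    θ.EM hG ρ i (j + 1) (ρ (θ.out hG i 1)) = 0 := by
  induction j with
  | zero => exact cr_self _
  | succ j ih =>
    change cr (θ.EM hG ρ i (j + 1) (ρ (θ.out hG i 1))) _ = 0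
    rw [ih]
    apply v3_ext <;> simp

theorem Psi_HV (hG : Cubic G ty) (ρ : V → V3) (y : V) :
    ∃ d, HV (fun u => θ.Psi hG ρ u y) d := by
  rcases θ.trichotomy y with ⟨i, j, hj, rfl⟩ | rfl | hy
  · refine ⟨1, ?_⟩
    simp only [Psi_x _ _ _ _ _ _ hj]
    exact HV.lin _
  · refine ⟨1 + 1, ?_⟩
    simp only [Psi_v]
    exact (HV.lin _).cr (HV.lin _)
  · refine ⟨0, ?_⟩
    simp only [Psi_out _ _ _ _ hy]
    exact HV.const _

end Theta

theorem exists_coord_ne {a : V3} (h : a ≠ 0) : ∃ i, a i ≠ 0 := by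
  by_contra h'
  push Not at h'
  exact h (funext h')

/-- **Moving a theta.** -/
theorem theta_move [Fintype V] (hG : Cubic G ty) {ρ : V → V3} (hρ : VReal G ty ρ)
    (θ : Theta G) :
    ∃ ρ' : V → V3, VReal G ty ρ' ∧ (∀ y, y ∉ θ.S → ρ' y = ρ y) ∧
      cr (ρ θ.w) (ρ' θ.w) ≠ 0 := by
  set w0 := ρ θ.w with hw0
  -- the generic conditions
  have hgen : ∀ p ∈ (Finset.univ : Finset (V × V)), ∃ (φ : V3 → ℝ) (d : ℕ), HS φ d ∧ φ w0 ≠ 0 ∧
      ∀ u, φ u ≠ 0 → ((ty p.1 ≠ ty p.2 → ¬ G.Adj p.1 p.2 →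
        dt (θ.Psi hG ρ u p.1) (θ.Psi hG ρ u p.2) ≠ 0) ∧ (ty p.1 = ty p.2 → p.1 ≠ p.2 →
        cr (θ.Psi hG ρ u p.1) (θ.Psi hG ρ u p.2) ≠ 0) ∧
        (p.1 = p.2 → θ.Psi hG ρ u p.1 ≠ 0)) := by
    rintro ⟨y, z⟩ -
    simp only
    obtain ⟨d, hd⟩ := θ.Psi_HV hG ρ y
    obtain ⟨e, he⟩ := θ.Psi_HV hG ρ z
    obtain ⟨μ, hμ, hy⟩ := θ.Psi_par hG hρ y
    obtain ⟨ν, hν, hz⟩ := θ.Psi_par hG hρ z
    by_cases ht : ty y = ty z
    · by_cases hyz : y = z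
      · obtain ⟨i, hi⟩ := exists_coord_ne (hρ.ne y)
        refine ⟨fun u => θ.Psi hG ρ u y i, d, hd i, ?_, ?_⟩
        · simp only
          rw [hy]
          exact mul_ne_zero hμ hi
        · intro u hu
          refine ⟨fun h => absurd ht h, fun _ h => absurd hyz h, fun _ h => hu ?_⟩
          simp only
          rw [h]; rfl
      · obtain ⟨i, hi⟩ := exists_coord_ne (hρ.dist y z ht hyz)
        refine ⟨fun u => cr (θ.Psi hG ρ u y) (θ.Psi hG ρ u z) i, d + e, (hd.cr he) i, ?_, ?_⟩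
        · simp only
          rw [hy, hz, cr_smul_smul]
          exact mul_ne_zero (mul_ne_zero hμ hν) hi
        · intro u hu
          refine ⟨fun h => absurd ht h, fun _ _ h => hu ?_, fun h => absurd h hyz⟩
          simp only
          rw [h]; rfl
    · by_cases hadj : G.Adj y z
      · refine ⟨fun _ => 1, 0, HS.const 1, one_ne_zero, fun u _ => ?_⟩
        exact ⟨fun _ h => absurd hadj h, fun h => absurd h ht,
          fun h => absurd (congrArg ty h) ht⟩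
      · refine ⟨fun u => dt (θ.Psi hG ρ u y) (θ.Psi hG ρ u z), d + e, hd.dt he, ?_, ?_⟩
        · simp only
          rw [hy, hz, dt_smul_smul]
          refine mul_ne_zero (mul_ne_zero hμ hν) ?_
          intro h
          exact hadj ((hρ.inc y z ht).mp h)
        · intro u hu
          exact ⟨fun _ _ => hu, fun h => absurd h ht, fun h => absurd (congrArg ty h) ht⟩
  obtain ⟨g, N, hg, hg0, hgC⟩ := generic_finite _ _ w0 hgen
  -- the hypotheses of the core lemma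
  have hVne : ∀ i i', i ≠ i' → cr (θ.EM hG ρ i (θ.k i) w0) (θ.EM hG ρ i' (θ.k i') w0) ≠ 0 := by
    intro i i' hii
    obtain ⟨μ, hμ, h0⟩ := θ.EM_par hG hρ i (θ.k i) (le_refl _)
    obtain ⟨ν, hν, h1⟩ := θ.EM_par hG hρ i' (θ.k i') (le_refl _)
    rw [h0, h1, cr_smul_smul]
    refine smul_ne_zero (mul_ne_zero hμ hν) ?_
    refine hρ.dist _ _ (hG.same_ty (x := θ.v) ((θ.adj_v hG _).mpr ⟨i, rfl⟩)
      ((θ.adj_v hG _).mpr ⟨i', rfl⟩)) ?_
    intro h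
    exact hii (θ.inj i _ i' _ (θ.kpos i) (le_refl _) (θ.kpos i') (le_refl _) h).1
  have hAne : ∀ i i', i ≠ i' → cr (ρ (θ.out hG i 1)) (ρ (θ.out hG i' 1)) ≠ 0 := by
    intro i i' hii
    obtain ⟨ho, hN⟩ := θ.out_spec hG i 1 (le_refl _) (θ.kpos i)
    obtain ⟨ho', hN'⟩ := θ.out_spec hG i' 1 (le_refl _) (θ.kpos i')
    have a1 : G.Adj (θ.x i 1) (θ.out hG i 1) := (hN _).mpr (Or.inr (Or.inr rfl))
    have a2 : G.Adj (θ.x i' 1) (θ.out hG i' 1) := (hN' _).mpr (Or.inr (Or.inr rfl))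
    have b1 : G.Adj (θ.x i 1) θ.w := ((θ.adj_w hG _).mpr ⟨i, rfl⟩).symm
    have b2 : G.Adj (θ.x i' 1) θ.w := ((θ.adj_w hG _).mpr ⟨i', rfl⟩).symm
    refine hρ.dist _ _ ?_ ?_
    · rw [hG.same_ty a1 b1, hG.same_ty a2 b2]
    · intro h
      rw [← h] at a2
      have hne : θ.x i 1 ≠ θ.x i' 1 := fun h' =>
        hii (θ.inj i _ i' _ (le_refl _) (θ.kpos i) (le_refl _) (θ.kpos i') h').1
      have := hG.noC4 _ _ _ _ a1 a2 b1 b2 hne
      exact ho (this ▸ θ.w_mem)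
  have hdet : tri (θ.EM hG ρ 0 (θ.k 0) w0) (θ.EM hG ρ 1 (θ.k 1) w0)
      (θ.EM hG ρ 2 (θ.k 2) w0) = 0 := by
    obtain ⟨μ0, -, h0⟩ := θ.EM_par hG hρ 0 (θ.k 0) (le_refl _)
    obtain ⟨μ1, -, h1⟩ := θ.EM_par hG hρ 1 (θ.k 1) (le_refl _)
    obtain ⟨μ2, -, h2⟩ := θ.EM_par hG hρ 2 (θ.k 2) (le_refl _)
    have o0 := hρ.orth hG ((θ.adj_v hG _).mpr ⟨0, rfl⟩)
    have o1 := hρ.orth hG ((θ.adj_v hG _).mpr ⟨1, rfl⟩)
    have o2 := hρ.orth hG ((θ.adj_v hG _).mpr ⟨2, rfl⟩)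
    have hcr := hρ.dist (θ.x 0 (θ.k 0)) (θ.x 1 (θ.k 1))
      (hG.same_ty (x := θ.v) ((θ.adj_v hG _).mpr ⟨0, rfl⟩) ((θ.adj_v hG _).mpr ⟨1, rfl⟩)) (by
        intro h
        have := (θ.inj 0 _ 1 _ (θ.kpos 0) (le_refl _) (θ.kpos 1) (le_refl _) h).1
        simp at this)
    obtain ⟨ν, hν⟩ := exists_smul_of_orth hcr o0 o1
    have hν0 : ν ≠ 0 := by
      rintro rfl
      rw [zero_smul] at hν
      exact hρ.ne _ hν
    rw [h0, h1, h2]
    have e : tri (μ0 • ρ (θ.x 0 (θ.k 0))) (μ1 • ρ (θ.x 1 (θ.k 1))) (μ2 • ρ (θ.x 2 (θ.k 2))) =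
        μ0 * μ1 * μ2 * dt (cr (ρ (θ.x 0 (θ.k 0))) (ρ (θ.x 1 (θ.k 1)))) (ρ (θ.x 2 (θ.k 2))) := by
      simp only [tri, dt, cr_zero, cr_one, cr_two, Pi.smul_apply, smul_eq_mul]
      ring
    rw [e]
    have e2 : dt (ρ θ.v) (ρ (θ.x 2 (θ.k 2))) =
        ν * dt (cr (ρ (θ.x 0 (θ.k 0))) (ρ (θ.x 1 (θ.k 1)))) (ρ (θ.x 2 (θ.k 2))) := by
      rw [hν]
      simp only [dt, Pi.smul_apply, smul_eq_mul]
      ring
    rw [o2] at e2
    rcases mul_eq_zero.mp e2.symm with h | h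
    · exact absurd h hν0
    · rw [h, mul_zero]
  have hkill : ∀ i, θ.EM hG ρ i (θ.k i) (ρ (θ.out hG i 1)) = 0 := by
    intro i
    have := θ.EM_kills hG ρ i (θ.k i - 1)
    rwa [Nat.sub_add_cancel (θ.kpos i)] at this
  obtain ⟨u, hu1, hu2, hu3⟩ := core (θ.EM hG ρ 0 (θ.k 0)) (θ.EM hG ρ 1 (θ.k 1))
    (θ.EM hG ρ 2 (θ.k 2)) (ρ (θ.out hG 0 1)) (ρ (θ.out hG 1 1)) (ρ (θ.out hG 2 1)) w0
    (hkill 0) (hkill 1) (hkill 2) (hAne 0 1 (by decide)) (hAne 0 2 (by decide))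
    (hAne 1 2 (by decide)) (hVne 0 1 (by decide)) (hVne 0 2 (by decide))
    (hVne 1 2 (by decide)) hdet g N hg hg0
  have hC := hgC u hu3
  refine ⟨fun y => θ.Psi hG ρ u y, ⟨?_, ?_, ?_⟩, ?_, ?_⟩
  · -- incidences
    intro y z hyz
    constructor
    · intro h
      by_contra hadj
      exact (hC (y, z) (Finset.mem_univ _)).1 hyz hadj h
    · -- edges stay orthogonal
      have hpath : ∀ i j, 1 ≤ j → j ≤ θ.k i →
          dt (θ.Psi hG ρ u (θ.x i j)) (θ.Psi hG ρ u (θ.x i (j - 1))) = 0 := by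
        intro i j h1 h2
        rw [θ.Psi_x hG ρ u i j h2, θ.Psi_x hG ρ u i (j - 1) (by omega)]
        obtain ⟨j', rfl⟩ : ∃ j', j = j' + 1 := ⟨j - 1, by omega⟩
        exact cr_dt_left _ _
      have hlast : ∀ i, dt (θ.Psi hG ρ u θ.v) (θ.Psi hG ρ u (θ.x i (θ.k i))) = 0 := by
        intro i
        rw [θ.Psi_v, θ.Psi_x hG ρ u i _ (le_refl _)]
        fin_cases i
        · exact cr_dt_left _ _
        · exact cr_dt_right _ _
        · have : dt (cr (θ.EM hG ρ 0 (θ.k 0) u) (θ.EM hG ρ 1 (θ.k 1) u))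
              (θ.EM hG ρ 2 (θ.k 2) u) = tri (θ.EM hG ρ 0 (θ.k 0) u) (θ.EM hG ρ 1 (θ.k 1) u)
              (θ.EM hG ρ 2 (θ.k 2) u) := by
            simp only [tri, dt, cr_zero, cr_one, cr_two]; ring
          exact this.trans hu2
      have hint : ∀ i j, 1 ≤ j → j ≤ θ.k i → ∀ z, G.Adj (θ.x i j) z →
          dt (θ.Psi hG ρ u (θ.x i j)) (θ.Psi hG ρ u z) = 0 := by
        intro i j h1 h2 z hz
        obtain ⟨ho, hN⟩ := θ.out_spec hG i j h1 h2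
        rcases (hN z).mp hz with rfl | rfl | rfl
        · exact hpath i j h1 h2
        · rcases Nat.eq_or_lt_of_le h2 with h3 | h3
          · rw [dt_comm, h3, θ.xl]
            exact hlast i
          · rw [dt_comm]
            have := hpath i (j + 1) (by omega) (by omega)
            simpa using this
        · rw [θ.Psi_out hG ρ u ho, θ.Psi_x hG ρ u i j h2]
          obtain ⟨j', rfl⟩ : ∃ j', j = j' + 1 := ⟨j - 1, by omega⟩
          exact cr_dt_right _ _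
      have hS : ∀ y z, y ∈ θ.S → G.Adj y z →
          dt (θ.Psi hG ρ u y) (θ.Psi hG ρ u z) = 0 := by
        rintro y z ⟨i, j, hj, rfl⟩ hadj
        rcases Nat.eq_zero_or_pos j with h0 | h0
        · rw [h0, θ.x0] at hadj ⊢
          obtain ⟨i', rfl⟩ := (θ.adj_w hG z).mp hadj
          rw [dt_comm]
          exact hint i' 1 (le_refl _) (θ.kpos i') _ hadj.symm
        · rcases Nat.eq_or_lt_of_le hj with h3 | h3
          · rw [h3, θ.xl] at hadj ⊢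
            obtain ⟨i', rfl⟩ := (θ.adj_v hG z).mp hadj
            exact hlast i'
          · exact hint i j h0 (by omega) z hadj
      intro hadj
      by_cases hy : y ∈ θ.S
      · exact hS y z hy hadj
      · by_cases hz : z ∈ θ.S
        · rw [dt_comm]
          exact hS z y hz hadj.symm
        · rw [θ.Psi_out hG ρ u hy, θ.Psi_out hG ρ u hz]
          exact hρ.orth hG hadj
  · intro y z ht hyz
    exact (hC (y, z) (Finset.mem_univ _)).2.1 ht hyz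
  · intro y
    exact (hC (y, y) (Finset.mem_univ _)).2.2 rfl
  · intro y hy
    exact θ.Psi_out hG ρ u hy
  · simp only
    rw [θ.Psi_w]
    exact hu1

end Pool.Agent.RigidConf
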