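import Pool.Agent.RigidConf.Homog

/-!
# Moving an induced theta subgraph of a cubic incidence graph
-/

namespace Pool.Agent.RigidConf

open Classical

variable {V : Type*}

/-- a realization by vectors of real three-space; points and lines both become vectors and
incidence is orthogonality -/
structure VReal (G : SimpleGraph V) (ty : V → Bool) (ρ : V → V3) : Prop where
  inc : ∀ x y, ty x ≠ ty y → (dt (ρ x) (ρ y) = 0 ↔ G.Adj x y)
  dist : ∀ x y, ty x = ty y → x ≠ y → cr (ρ x) (ρ y) ≠ 0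
  ne : ∀ x, ρ x ≠ 0

/-- the incidence graph of a configuration: cubic, bipartite, without four-cycles -/
structure Cubic (G : SimpleGraph V) (ty : V → Bool) : Prop where
  bip : ∀ x y, G.Adj x y → ty x ≠ ty y
  three : ∀ x, ∃ a b c, a ≠ b ∧ a ≠ c ∧ b ≠ c ∧ ∀ y, G.Adj x y ↔ (y = a ∨ y = b ∨ y = c)
  noC4 : ∀ x y a b, G.Adj x a → G.Adj y a → G.Adj x b → G.Adj y b → x ≠ y → a = b

/-- an induced theta subgraph with non-adjacent branch vertices `w, v`; the three paths are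
`x i 0 = w, x i 1, …, x i (k i), x i (k i + 1) = v` -/
structure Theta (G : SimpleGraph V) where
  k : Fin 3 → ℕ
  kpos : ∀ i, 1 ≤ k i
  x : Fin 3 → ℕ → V
  w : V
  v : V
  x0 : ∀ i, x i 0 = w
  xl : ∀ i, x i (k i + 1) = v
  wv : w ≠ v
  inj : ∀ i j i' j', 1 ≤ j → j ≤ k i → 1 ≤ j' → j' ≤ k i' → x i j = x i' j' → i = i' ∧ j = j'
  xw : ∀ i j, 1 ≤ j → j ≤ k i → x i j ≠ w
  xv : ∀ i j, 1 ≤ j → j ≤ k i → x i j ≠ v
  adj : ∀ i j, j ≤ k i → G.Adj (x i j) (x i (j + 1))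
  ind : ∀ i j i' j', 1 ≤ j → j ≤ k i → j' ≤ k i' + 1 → G.Adj (x i j) (x i' j') →
    x i' j' = x i (j - 1) ∨ x i' j' = x i (j + 1)

namespace Theta

variable {G : SimpleGraph V} {ty : V → Bool} (θ : Theta G)

/-- the vertices of the theta -/
def S : Set V := {y | ∃ i j, j ≤ θ.k i + 1 ∧ y = θ.x i j}

theorem w_mem : θ.w ∈ θ.S := ⟨0, 0, Nat.zero_le _, (θ.x0 0).symm⟩
theorem v_mem : θ.v ∈ θ.S := ⟨0, θ.k 0 + 1, le_refl _, (θ.xl 0).symm⟩

theorem pred_ne_succ (i : Fin 3) (j : ℕ) (h1 : 1 ≤ j) (h2 : j ≤ θ.k i) :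
    θ.x i (j - 1) ≠ θ.x i (j + 1) := by
  intro h
  rcases Nat.eq_or_lt_of_le h1 with h3 | h3
  · rw [← h3] at h
    simp only [Nat.sub_self] at h
    rw [θ.x0] at h
    rcases Nat.eq_or_lt_of_le h2 with h4 | h4
    · have : (1 : ℕ) + 1 = θ.k i + 1 := by omega
      rw [this, θ.xl] at h
      exact θ.wv h
    · exact θ.xw i 2 (by omega) (by omega) h.symm
  · rcases Nat.eq_or_lt_of_le h2 with h4 | h4
    · rw [h4, θ.xl] at h
      exact θ.xv i (θ.k i - 1) (by omega) (by omega) h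
    · have := (θ.inj i (j - 1) i (j + 1) (by omega) (by omega) (by omega) (by omega) h).2
      omega

/-- the third neighbour of an interior vertex -/
theorem exists_out (hG : Cubic G ty) (i : Fin 3) (j : ℕ) (h1 : 1 ≤ j) (h2 : j ≤ θ.k i) :
    ∃ o, o ∉ θ.S ∧ ∀ y, G.Adj (θ.x i j) y ↔
      (y = θ.x i (j - 1) ∨ y = θ.x i (j + 1) ∨ y = o) := by
  obtain ⟨a, b, c, hab, hac, hbc, hN⟩ := hG.three (θ.x i j)
  have hp : G.Adj (θ.x i j) (θ.x i (j - 1)) := by
    have := θ.adj i (j - 1) (by omega)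
    rw [Nat.sub_add_cancel h1] at this
    exact this.symm
  have hs : G.Adj (θ.x i j) (θ.x i (j + 1)) := θ.adj i j h2
  have hps := θ.pred_ne_succ i j h1 h2
  have key : ∃ o, o ≠ θ.x i (j - 1) ∧ o ≠ θ.x i (j + 1) ∧ ∀ y, G.Adj (θ.x i j) y ↔
      (y = θ.x i (j - 1) ∨ y = θ.x i (j + 1) ∨ y = o) := by
    have hp' := (hN _).mp hp
    have hs' := (hN _).mp hs
    rcases hp' with hp' | hp' | hp' <;> rcases hs' with hs' | hs' | hs'
    · exact absurd (hp'.trans hs'.symm) hps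
    · refine ⟨c, by rw [hp']; exact hac.symm, by rw [hs']; exact hbc.symm, fun y => ?_⟩
      rw [hN, hp', hs']
    · refine ⟨b, by rw [hp']; exact hab.symm, by rw [hs']; exact hbc, fun y => ?_⟩
      rw [hN, hp', hs']; tauto
    · refine ⟨c, by rw [hp']; exact hbc.symm, by rw [hs']; exact hac.symm, fun y => ?_⟩
      rw [hN, hp', hs']; tauto
    · exact absurd (hp'.trans hs'.symm) hps
    · refine ⟨a, by rw [hp']; exact hab, by rw [hs']; exact hac, fun y => ?_⟩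
      rw [hN, hp', hs']; tauto
    · refine ⟨b, by rw [hp']; exact hbc, by rw [hs']; exact hab.symm, fun y => ?_⟩
      rw [hN, hp', hs']; tauto
    · refine ⟨a, by rw [hp']; exact hac, by rw [hs']; exact hab, fun y => ?_⟩
      rw [hN, hp', hs']; tauto
    · exact absurd (hp'.trans hs'.symm) hps
  obtain ⟨o, ho1, ho2, ho⟩ := key
  refine ⟨o, ?_, ho⟩
  rintro ⟨i', j', hj', rfl⟩
  have hadj : G.Adj (θ.x i j) (θ.x i' j') := (ho _).mpr (Or.inr (Or.inr rfl))
  rcases θ.ind i j i' j' h1 h2 hj' hadj with h | h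
  · exact ho1 h
  · exact ho2 h

/-- the neighbours of the branch vertex `w` -/
theorem adj_w (hG : Cubic G ty) (y : V) : G.Adj θ.w y ↔ ∃ i, y = θ.x i 1 := by
  have h1 : ∀ i, G.Adj θ.w (θ.x i 1) := by
    intro i
    have := θ.adj i 0 (Nat.zero_le _)
    rwa [θ.x0] at this
  constructor
  · intro h
    obtain ⟨a, b, c, hab, hac, hbc, hN⟩ := hG.three θ.w
    have hd : ∀ i i', θ.x i 1 = θ.x i' 1 → i = i' := fun i i' h =>
      (θ.inj i 1 i' 1 (le_refl _) (θ.kpos i) (le_refl _) (θ.kpos i') h).1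
    have h01 : θ.x 0 1 ≠ θ.x 1 1 := fun h => by have := hd _ _ h; simp at this
    have h02 : θ.x 0 1 ≠ θ.x 2 1 := fun h => by have := hd _ _ h; simp at this
    have h12 : θ.x 1 1 ≠ θ.x 2 1 := fun h => by have := hd _ _ h; simp at this
    have n0 := (hN _).mp (h1 0)
    have n1 := (hN _).mp (h1 1)
    have n2 := (hN _).mp (h1 2)
    have ny := (hN _).mp h
    have : y = θ.x 0 1 ∨ y = θ.x 1 1 ∨ y = θ.x 2 1 := by
      rcases n0 with n0 | n0 | n0 <;> rcases n1 with n1 | n1 | n1 <;>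
        rcases n2 with n2 | n2 | n2 <;> rw [n0, n1, n2] <;> rw [n0, n1] at h01 <;>
        rw [n0, n2] at h02 <;> rw [n1, n2] at h12 <;> tauto
    rcases this with h | h | h
    · exact ⟨0, h⟩
    · exact ⟨1, h⟩
    · exact ⟨2, h⟩
  · rintro ⟨i, rfl⟩
    exact h1 i

/-- the neighbours of the branch vertex `v` -/
theorem adj_v (hG : Cubic G ty) (y : V) : G.Adj θ.v y ↔ ∃ i, y = θ.x i (θ.k i) := by
  have h1 : ∀ i, G.Adj θ.v (θ.x i (θ.k i)) := by
    intro i
    have := θ.adj i (θ.k i) (le_refl _)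
    rw [θ.xl] at this
    exact this.symm
  constructor
  · intro h
    obtain ⟨a, b, c, hab, hac, hbc, hN⟩ := hG.three θ.v
    have hd : ∀ i i', θ.x i (θ.k i) = θ.x i' (θ.k i') → i = i' := fun i i' h =>
      (θ.inj i _ i' _ (θ.kpos i) (le_refl _) (θ.kpos i') (le_refl _) h).1
    have h01 : θ.x 0 (θ.k 0) ≠ θ.x 1 (θ.k 1) := fun h => by have := hd _ _ h; simp at this
    have h02 : θ.x 0 (θ.k 0) ≠ θ.x 2 (θ.k 2) := fun h => by have := hd _ _ h; simp at this
    have h12 : θ.x 1 (θ.k 1) ≠ θ.x 2 (θ.k 2) := fun h => by have := hd _ _ h; simp at this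
    have n0 := (hN _).mp (h1 0)
    have n1 := (hN _).mp (h1 1)
    have n2 := (hN _).mp (h1 2)
    have ny := (hN _).mp h
    have : y = θ.x 0 (θ.k 0) ∨ y = θ.x 1 (θ.k 1) ∨ y = θ.x 2 (θ.k 2) := by
      rcases n0 with n0 | n0 | n0 <;> rcases n1 with n1 | n1 | n1 <;>
        rcases n2 with n2 | n2 | n2 <;> rw [n0, n1, n2] <;> rw [n0, n1] at h01 <;>
        rw [n0, n2] at h02 <;> rw [n1, n2] at h12 <;> tauto
    rcases this with h | h | h
    · exact ⟨0, h⟩
    · exact ⟨1, h⟩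
    · exact ⟨2, h⟩
  · rintro ⟨i, rfl⟩
    exact h1 i

end Theta

/-- the linear map `a ↦ a × c` -/
def crL (c : V3) : V3 →ₗ[ℝ] V3 where
  toFun a := cr a c
  map_add' a b := by apply v3_ext <;> simp <;> ring
  map_smul' r a := by apply v3_ext <;> simp <;> ring

@[simp] theorem crL_apply (c a : V3) : crL c a = cr a c := rfl

end Pool.Agent.RigidConf
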