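import Pool.Agent.RigidConf.Cubic

/-!
# Vectors of real three-space and the algebraic core
-/

namespace Pool.Agent.RigidConf

/-- real three-space -/
abbrev V3 : Type := Fin 3 → ℝ

/-- dot product -/
def dt (a b : V3) : ℝ := a 0 * b 0 + a 1 * b 1 + a 2 * b 2

/-- cross product -/
def cr (a b : V3) : V3 :=
  ![a 1 * b 2 - a 2 * b 1, a 2 * b 0 - a 0 * b 2, a 0 * b 1 - a 1 * b 0]

@[simp] theorem cr_zero (a b : V3) : cr a b 0 = a 1 * b 2 - a 2 * b 1 := rfl
@[simp] theorem cr_one (a b : V3) : cr a b 1 = a 2 * b 0 - a 0 * b 2 := rfl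
@[simp] theorem cr_two (a b : V3) : cr a b 2 = a 0 * b 1 - a 1 * b 0 := rfl

/-- triple product -/
def tri (a b c : V3) : ℝ := dt a (cr b c)

theorem v3_ext {a b : V3} (h0 : a 0 = b 0) (h1 : a 1 = b 1) (h2 : a 2 = b 2) : a = b := by
  funext i
  fin_cases i
  · exact h0
  · exact h1
  · exact h2

theorem v3_ne_zero {a : V3} (h : a ≠ 0) : a 0 ^ 2 + a 1 ^ 2 + a 2 ^ 2 ≠ 0 := by
  intro h0
  apply h
  have h1 : a 0 = 0 := by nlinarith [sq_nonneg (a 0), sq_nonneg (a 1), sq_nonneg (a 2)]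
  have h2 : a 1 = 0 := by nlinarith [sq_nonneg (a 0), sq_nonneg (a 1), sq_nonneg (a 2)]
  have h3 : a 2 = 0 := by nlinarith [sq_nonneg (a 0), sq_nonneg (a 1), sq_nonneg (a 2)]
  exact v3_ext h1 h2 h3

theorem dt_comm (a b : V3) : dt a b = dt b a := by unfold dt; ring

theorem dt_cr_left (a b : V3) : dt a (cr a b) = 0 := by unfold dt; simp; ring
theorem dt_cr_right (a b : V3) : dt b (cr a b) = 0 := by unfold dt; simp; ring
theorem cr_dt_left (a b : V3) : dt (cr a b) a = 0 := by unfold dt; simp; ring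
theorem cr_dt_right (a b : V3) : dt (cr a b) b = 0 := by unfold dt; simp; ring
theorem cr_self (a : V3) : cr a a = 0 := by
  apply v3_ext <;> simp <;> ring

theorem cr_anti (a b : V3) : cr a b = -cr b a := by
  apply v3_ext <;> simp <;> ring

theorem cr_ne_symm {a b : V3} (h : cr a b ≠ 0) : cr b a ≠ 0 := by
  intro h'
  apply h
  rw [cr_anti, h', neg_zero]

theorem ne_zero_of_cr_left {a b : V3} (h : cr a b ≠ 0) : a ≠ 0 := by
  rintro rfl
  apply h
  apply v3_ext <;> simp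

theorem ne_zero_of_cr_right {a b : V3} (h : cr a b ≠ 0) : b ≠ 0 := by
  rintro rfl
  apply h
  apply v3_ext <;> simp

theorem div_form {N p r a b c : ℝ} (hN : N ≠ 0) (h : N * c = p * a + r * b) :
    c = p / N * a + r / N * b := by
  field_simp
  linarith

theorem div_form' {N p a c : ℝ} (hN : N ≠ 0) (h : N * c = p * a) : c = p / N * a := by
  field_simp
  linarith

/-- a vector in the plane of two independent vectors -/
theorem exists_lin {a b c : V3} (h : tri a b c = 0) (hab : cr a b ≠ 0) :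
    ∃ α β : ℝ, c = α • a + β • b := by
  have hN := v3_ne_zero hab
  refine ⟨dt (cr c b) (cr a b) / (cr a b 0 ^ 2 + cr a b 1 ^ 2 + cr a b 2 ^ 2),
    dt (cr a c) (cr a b) / (cr a b 0 ^ 2 + cr a b 1 ^ 2 + cr a b 2 ^ 2), ?_⟩
  unfold tri dt at h
  simp only [cr_zero, cr_one, cr_two] at h
  apply v3_ext
  · refine div_form hN ?_
    simp only [dt, cr_zero, cr_one, cr_two]
    linear_combination (a 1 * b 2 - a 2 * b 1) * h
  · refine div_form hN ?_
    simp only [dt, cr_zero, cr_one, cr_two]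
    linear_combination (a 2 * b 0 - a 0 * b 2) * h
  · refine div_form hN ?_
    simp only [dt, cr_zero, cr_one, cr_two]
    linear_combination (a 0 * b 1 - a 1 * b 0) * h

/-- a vector orthogonal to two independent ones is a multiple of their cross product -/
theorem exists_smul_of_orth {a b c : V3} (hab : cr a b ≠ 0) (ha : dt c a = 0) (hb : dt c b = 0) :
    ∃ μ : ℝ, c = μ • cr a b := by
  have hN := v3_ne_zero hab
  refine ⟨tri c a b / (cr a b 0 ^ 2 + cr a b 1 ^ 2 + cr a b 2 ^ 2), ?_⟩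
  unfold dt at ha hb
  apply v3_ext
  · refine div_form' hN ?_
    simp only [tri, dt, cr_zero, cr_one, cr_two]
    linear_combination (a 0 * (b 0 ^ 2 + b 1 ^ 2 + b 2 ^ 2) - b 0 * (a 0 * b 0 + a 1 * b 1 + a 2 * b 2)) * ha + (b 0 * (a 0 ^ 2 + a 1 ^ 2 + a 2 ^ 2) - a 0 * (a 0 * b 0 + a 1 * b 1 + a 2 * b 2)) * hb
  · refine div_form' hN ?_
    simp only [tri, dt, cr_zero, cr_one, cr_two]
    linear_combination (a 1 * (b 0 ^ 2 + b 1 ^ 2 + b 2 ^ 2) - b 1 * (a 0 * b 0 + a 1 * b 1 + a 2 * b 2)) * ha + (b 1 * (a 0 ^ 2 + a 1 ^ 2 + a 2 ^ 2) - a 1 * (a 0 * b 0 + a 1 * b 1 + a 2 * b 2)) * hb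
  · refine div_form' hN ?_
    simp only [tri, dt, cr_zero, cr_one, cr_two]
    linear_combination (a 2 * (b 0 ^ 2 + b 1 ^ 2 + b 2 ^ 2) - b 2 * (a 0 * b 0 + a 1 * b 1 + a 2 * b 2)) * ha + (b 2 * (a 0 ^ 2 + a 1 ^ 2 + a 2 ^ 2) - a 2 * (a 0 * b 0 + a 1 * b 1 + a 2 * b 2)) * hb

end Pool.Agent.RigidConf
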